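import Mathlib

set_option autoImplicit false
open Filter Topology Finset

namespace Pool.Agent.P18b69d

open scoped Classical in
/-- The pairing `⟨f, |x|⟩` of a finitely supported functional with a sequence. -/
noncomputable def pr (f : ℕ →₀ ℚ) (x : ℕ → ℝ) : ℝ := ∑ n ∈ f.support, (f n : ℝ) * |x n|

/-- A set of nonnegative finitely supported functionals containing all unit vectors. -/
structure NormingSet where
  S : Set (ℕ →₀ ℚ)
  nonneg : ∀ f ∈ S, ∀ n, 0 ≤ f n
  le_one : ∀ f ∈ S, ∀ n, f n ≤ 1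
  single : ∀ n, Finsupp.single n 1 ∈ S

/-- The tail of a sequence. -/
noncomputable def tail (p : ℕ) (x : ℕ → ℝ) : ℕ → ℝ := fun n => if n < p then 0 else x n

lemma pr_single (n : ℕ) (x : ℕ → ℝ) : pr (Finsupp.single n 1) x = |x n| := by
  unfold pr
  rw [Finsupp.support_single n (by norm_num : (1:ℚ) ≠ 0)]
  simp

lemma pr_superset {f : ℕ →₀ ℚ} {s : Finset ℕ} (hs : f.support ⊆ s) (x : ℕ → ℝ) :
    pr f x = ∑ n ∈ s, (f n : ℝ) * |x n| := by
  unfold pr
  refine Finset.sum_subset hs ?_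
  intro n _ hn
  simp [Finsupp.notMem_support_iff.mp hn]

lemma pr_nonneg {f : ℕ →₀ ℚ} (hf : ∀ n, 0 ≤ f n) (x : ℕ → ℝ) : 0 ≤ pr f x := by
  unfold pr
  refine Finset.sum_nonneg fun n _ => mul_nonneg ?_ (abs_nonneg _)
  exact_mod_cast hf n

lemma pr_mono {f : ℕ →₀ ℚ} (hf : ∀ n, 0 ≤ f n) {x y : ℕ → ℝ} (h : ∀ n, |x n| ≤ |y n|) :
    pr f x ≤ pr f y := by
  unfold pr
  refine Finset.sum_le_sum fun n _ => mul_le_mul_of_nonneg_left (h n) ?_
  exact_mod_cast hf n

lemma pr_add_le {f : ℕ →₀ ℚ} (hf : ∀ n, 0 ≤ f n) (x y : ℕ → ℝ) :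
    pr f (x + y) ≤ pr f x + pr f y := by
  unfold pr
  rw [← Finset.sum_add_distrib]
  refine Finset.sum_le_sum fun n _ => ?_
  rw [← mul_add]
  refine mul_le_mul_of_nonneg_left (abs_add_le _ _) ?_
  exact_mod_cast hf n

lemma pr_smul (f : ℕ →₀ ℚ) (c : ℝ) (x : ℕ → ℝ) : pr f (c • x) = |c| * pr f x := by
  unfold pr
  rw [Finset.mul_sum]
  refine Finset.sum_congr rfl fun n _ => ?_
  simp only [Pi.smul_apply, smul_eq_mul, abs_mul]
  ring

lemma pr_zero (f : ℕ →₀ ℚ) : pr f 0 = 0 := by simp [pr]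

lemma pr_mono_left {f g : ℕ →₀ ℚ} (h : ∀ n, f n ≤ g n) (x : ℕ → ℝ) : pr f x ≤ pr g x := by
  rw [pr_superset (f := f) (s := f.support ∪ g.support) Finset.subset_union_left,
    pr_superset (f := g) (s := f.support ∪ g.support) Finset.subset_union_right]
  refine Finset.sum_le_sum fun n _ => mul_le_mul_of_nonneg_right ?_ (abs_nonneg _)
  exact_mod_cast h n

lemma pr_sum_le {ι : Type*} {f : ℕ →₀ ℚ} (hf : ∀ n, 0 ≤ f n) (s : Finset ι) (x : ι → ℕ → ℝ) :
    pr f (∑ i ∈ s, x i) ≤ ∑ i ∈ s, pr f (x i) := by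
  classical
  induction s using Finset.induction_on with
  | empty => simp [pr_zero]
  | insert a s ha ih =>
    rw [Finset.sum_insert ha, Finset.sum_insert ha]
    exact (pr_add_le hf _ _).trans (by linarith)

lemma pr_congr {f : ℕ →₀ ℚ} {x y : ℕ → ℝ} (h : ∀ n ∈ f.support, |x n| = |y n|) :
    pr f x = pr f y := by
  unfold pr
  exact Finset.sum_congr rfl fun n hn => by rw [h n hn]

lemma tail_add (p : ℕ) (x y : ℕ → ℝ) : tail p (x + y) = tail p x + tail p y := by
  funext n; simp only [tail, Pi.add_apply]; split_ifs <;> simp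

lemma tail_smul (p : ℕ) (c : ℝ) (x : ℕ → ℝ) : tail p (c • x) = c • tail p x := by
  funext n; simp only [tail, Pi.smul_apply, smul_eq_mul]; split_ifs <;> simp

lemma tail_sub (p : ℕ) (x y : ℕ → ℝ) : tail p (x - y) = tail p x - tail p y := by
  funext n; simp only [tail, Pi.sub_apply]; split_ifs <;> simp

lemma abs_tail_le (p : ℕ) (x : ℕ → ℝ) (n : ℕ) : |tail p x n| ≤ |x n| := by
  simp only [tail]; split_ifs <;> simp

lemma abs_tail_anti {p q : ℕ} (h : p ≤ q) (x : ℕ → ℝ) (n : ℕ) : |tail q x n| ≤ |tail p x n| := by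
  simp only [tail]
  split_ifs with h1 h2 h2
  · simp
  · simp
  · omega
  · simp

variable (𝓦 : NormingSet)

/-- The sequences with vanishing tails. -/
noncomputable def SeqSub : Submodule ℝ (ℕ → ℝ) where
  carrier := {x | ∀ ε > 0, ∃ p, ∀ f ∈ 𝓦.S, pr f (tail p x) ≤ ε}
  add_mem' := by
    intro x y hx hy ε hε
    obtain ⟨p, hp⟩ := hx (ε / 2) (by positivity)
    obtain ⟨q, hq⟩ := hy (ε / 2) (by positivity)
    refine ⟨max p q, fun f hf => ?_⟩
    rw [tail_add]
    have h1 : pr f (tail (max p q) x) ≤ pr f (tail p x) :=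
      pr_mono (𝓦.nonneg f hf) (abs_tail_anti (le_max_left _ _) x)
    have h2 : pr f (tail (max p q) y) ≤ pr f (tail q y) :=
      pr_mono (𝓦.nonneg f hf) (abs_tail_anti (le_max_right _ _) y)
    have := pr_add_le (𝓦.nonneg f hf) (tail (max p q) x) (tail (max p q) y)
    linarith [hp f hf, hq f hf]
  zero_mem' := by
    intro ε hε
    refine ⟨0, fun f hf => ?_⟩
    have : tail 0 (0 : ℕ → ℝ) = 0 := by funext n; simp [tail]
    rw [this, pr_zero]; exact hε.le
  smul_mem' := by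
    intro c x hx ε hε
    obtain ⟨p, hp⟩ := hx (ε / (|c| + 1)) (by positivity)
    refine ⟨p, fun f hf => ?_⟩
    rw [tail_smul, pr_smul]
    have h0 := pr_nonneg (𝓦.nonneg f hf) (tail p x)
    have h1 := hp f hf
    have h2 : |c| * pr f (tail p x) ≤ (|c| + 1) * (ε / (|c| + 1)) := by
      have : |c| ≤ |c| + 1 := by linarith
      exact mul_le_mul this h1 h0 (by positivity)
    rw [mul_div_cancel₀ _ (by positivity : |c| + 1 ≠ 0)] at h2
    exact h2

/-- The Banach sequence space with norm `sup_f ⟨f, |x|⟩`. -/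
def Space : Type := ↥(SeqSub 𝓦)

noncomputable instance : AddCommGroup (Space 𝓦) := inferInstanceAs (AddCommGroup ↥(SeqSub 𝓦))
noncomputable instance : Module ℝ (Space 𝓦) := inferInstanceAs (Module ℝ ↥(SeqSub 𝓦))

variable {𝓦}

instance : CoeFun (Space 𝓦) (fun _ => ℕ → ℝ) := ⟨fun x => x.1⟩

namespace Space

/-- Constructor. -/
def mk (x : ℕ → ℝ) (hx : x ∈ SeqSub 𝓦) : Space 𝓦 := ⟨x, hx⟩

@[simp] lemma mk_apply (x : ℕ → ℝ) (hx : x ∈ SeqSub 𝓦) (n : ℕ) : (mk x hx) n = x n := rfl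

lemma ext' {x y : Space 𝓦} (h : ∀ n, x n = y n) : x = y := Subtype.ext (funext h)

@[simp] lemma add_apply (x y : Space 𝓦) (n : ℕ) : (x + y) n = x n + y n := rfl
@[simp] lemma sub_apply (x y : Space 𝓦) (n : ℕ) : (x - y) n = x n - y n := rfl
@[simp] lemma neg_apply (x : Space 𝓦) (n : ℕ) : (-x) n = - x n := rfl
@[simp] lemma zero_apply (n : ℕ) : (0 : Space 𝓦) n = 0 := rfl
@[simp] lemma smul_apply (c : ℝ) (x : Space 𝓦) (n : ℕ) : (c • x) n = c * x n := rfl

lemma coe_add (x y : Space 𝓦) : ((x + y : Space 𝓦) : ℕ → ℝ) = (x : ℕ → ℝ) + (y : ℕ → ℝ) := rfl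
lemma coe_sub (x y : Space 𝓦) : ((x - y : Space 𝓦) : ℕ → ℝ) = (x : ℕ → ℝ) - (y : ℕ → ℝ) := rfl
lemma coe_smul (c : ℝ) (x : Space 𝓦) : ((c • x : Space 𝓦) : ℕ → ℝ) = c • (x : ℕ → ℝ) := rfl

lemma bdd (x : Space 𝓦) : BddAbove ((fun f => pr f x) '' 𝓦.S) := by
  obtain ⟨p, hp⟩ := x.2 1 one_pos
  refine ⟨∑ n ∈ range p, |x n| + 1, ?_⟩
  rintro _ ⟨f, hf, rfl⟩
  have hdec : (x : ℕ → ℝ) = (fun n => if n < p then x n else 0) + tail p x := by
    funext n; simp only [tail, Pi.add_apply]; split_ifs <;> simp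
  have h1 : pr f x ≤ pr f (fun n => if n < p then x n else 0) + pr f (tail p x) := by
    conv_lhs => rw [hdec]
    exact pr_add_le (𝓦.nonneg f hf) _ _
  have h2 : pr f (fun n => if n < p then x n else 0) ≤ ∑ n ∈ range p, |x n| := by
    rw [pr_superset (s := f.support ∪ range p) Finset.subset_union_left]
    have : ∑ n ∈ range p, |x n| = ∑ n ∈ f.support ∪ range p, if n < p then |x n| else 0 := by
      rw [← Finset.sum_filter]
      refine Finset.sum_congr ?_ fun _ _ => rfl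
      ext n; simp; tauto
    rw [this]
    refine Finset.sum_le_sum fun n _ => ?_
    split_ifs with h
    · have h3 : (f n : ℝ) ≤ 1 := by exact_mod_cast 𝓦.le_one f hf n
      nlinarith [abs_nonneg (x n)]
    · simp
  have h3 := hp f hf
  simp only
  linarith

noncomputable instance : Norm (Space 𝓦) := ⟨fun x => sSup ((fun f => pr f x) '' 𝓦.S)⟩

lemma norm_def (x : Space 𝓦) : ‖x‖ = sSup ((fun f => pr f x) '' 𝓦.S) := rfl

lemma pr_le_norm (x : Space 𝓦) {f : ℕ →₀ ℚ} (hf : f ∈ 𝓦.S) : pr f x ≤ ‖x‖ :=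
  le_csSup (bdd x) ⟨f, hf, rfl⟩

lemma norm_le_of (x : Space 𝓦) {C : ℝ} (h : ∀ f ∈ 𝓦.S, pr f x ≤ C) : ‖x‖ ≤ C := by
  refine csSup_le ⟨_, ⟨_, 𝓦.single 0, rfl⟩⟩ ?_
  rintro _ ⟨f, hf, rfl⟩
  exact h f hf

lemma exists_pr_gt (x : Space 𝓦) {C : ℝ} (h : C < ‖x‖) : ∃ f ∈ 𝓦.S, C < pr f x := by
  by_contra hcon
  push Not at hcon
  exact absurd (norm_le_of x hcon) (not_le.mpr h)

lemma abs_apply_le (x : Space 𝓦) (n : ℕ) : |x n| ≤ ‖x‖ := by
  rw [← pr_single n x]; exact pr_le_norm x (𝓦.single n)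

lemma norm_nonneg' (x : Space 𝓦) : 0 ≤ ‖x‖ := (abs_nonneg _).trans (abs_apply_le x 0)

noncomputable instance : NormedAddCommGroup (Space 𝓦) :=
  NormedAddCommGroup.ofCore (𝕜 := ℝ)
    { norm_nonneg := norm_nonneg'
      norm_smul := by
        intro c x
        apply le_antisymm
        · refine norm_le_of _ fun f hf => ?_
          rw [coe_smul, pr_smul]
          exact mul_le_mul_of_nonneg_left (pr_le_norm x hf) (abs_nonneg _)
        · by_cases hc : c = 0
          · subst hc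
            simp only [norm_zero, zero_mul]
            exact norm_nonneg' _
          · have hc' : 0 < ‖c‖ := norm_pos_iff.mpr hc
            have : ‖x‖ ≤ ‖c‖⁻¹ * ‖c • x‖ := by
              refine norm_le_of _ fun f hf => ?_
              have h1 := pr_le_norm (c • x) hf
              rw [coe_smul, pr_smul] at h1
              rw [le_inv_mul_iff₀ hc']
              exact h1
            rwa [le_inv_mul_iff₀ hc'] at this
      norm_triangle := by
        intro x y
        refine norm_le_of _ fun f hf => ?_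
        rw [coe_add]
        exact (pr_add_le (𝓦.nonneg f hf) _ _).trans
          (add_le_add (pr_le_norm x hf) (pr_le_norm y hf))
      norm_eq_zero_iff := by
        intro x
        constructor
        · intro h
          refine ext' fun n => ?_
          have := abs_apply_le x n
          rw [h] at this
          exact abs_eq_zero.mp (le_antisymm this (abs_nonneg _))
        · rintro rfl
          refine le_antisymm (norm_le_of _ fun f _ => ?_) (norm_nonneg' _)
          exact (pr_zero f).le }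

noncomputable instance : NormedSpace ℝ (Space 𝓦) where
  norm_smul_le := by
    intro c x
    refine norm_le_of _ fun f hf => ?_
    rw [coe_smul, pr_smul]
    exact mul_le_mul_of_nonneg_left (pr_le_norm x hf) (abs_nonneg _)

lemma norm_mono {x y : Space 𝓦} (h : ∀ n, |x n| ≤ |y n|) : ‖x‖ ≤ ‖y‖ :=
  norm_le_of _ fun f hf => (pr_mono (𝓦.nonneg f hf) h).trans (pr_le_norm y hf)

lemma pr_tail_small (x : Space 𝓦) {ε : ℝ} (hε : 0 < ε) : ∃ p, ∀ q ≥ p, ∀ f ∈ 𝓦.S,
    pr f (tail q x) ≤ ε := by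
  obtain ⟨p, hp⟩ := x.2 ε hε
  exact ⟨p, fun q hq f hf =>
    (pr_mono (𝓦.nonneg f hf) (abs_tail_anti hq x)).trans (hp f hf)⟩

instance : CompleteSpace (Space 𝓦) := by
  refine Metric.complete_of_cauchySeq_tendsto ?_
  intro u hu
  have hco : ∀ n, ∃ a : ℝ, Tendsto (fun k => u k n) atTop (𝓝 a) := by
    intro n
    apply cauchySeq_tendsto_of_complete
    rw [Metric.cauchySeq_iff] at hu ⊢
    intro ε hε
    obtain ⟨N, hN⟩ := hu ε hε
    refine ⟨N, fun a ha b hb => ?_⟩
    refine lt_of_le_of_lt ?_ (hN a ha b hb)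
    rw [dist_eq_norm, dist_eq_norm, Real.norm_eq_abs]
    exact abs_apply_le (u a - u b) n
  choose x hx using hco
  have key : ∀ ε > 0, ∃ N, ∀ k ≥ N, ∀ f ∈ 𝓦.S, pr f (fun n => u k n - x n) ≤ ε := by
    intro ε hε
    rw [Metric.cauchySeq_iff] at hu
    obtain ⟨N, hN⟩ := hu ε hε
    refine ⟨N, fun k hk f hf => ?_⟩
    have hlim : Tendsto (fun l => pr f (fun n => u k n - u l n)) atTop
        (𝓝 (pr f (fun n => u k n - x n))) := by
      unfold pr
      refine tendsto_finsetSum _ fun n _ => ?_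
      exact ((tendsto_const_nhds.sub (hx n)).abs).const_mul _
    refine le_of_tendsto hlim ?_
    filter_upwards [eventually_ge_atTop N] with l hl
    have h1 := pr_le_norm (u k - u l) hf
    have h2 := hN k hk l hl
    rw [dist_eq_norm] at h2
    exact h1.trans h2.le
  have hxm : x ∈ SeqSub 𝓦 := by
    intro ε hε
    obtain ⟨N, hN⟩ := key (ε / 2) (by positivity)
    obtain ⟨p, hp⟩ := (u N).2 (ε / 2) (by positivity)
    refine ⟨p, fun f hf => ?_⟩
    have h1 : tail p x = tail p (fun n => x n - u N n) + tail p (u N) := by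
      funext n; simp only [tail, Pi.add_apply]; split_ifs <;> simp
    rw [h1]
    refine (pr_add_le (𝓦.nonneg f hf) _ _).trans ?_
    have h2 : pr f (tail p (fun n => x n - u N n)) ≤ pr f (fun n => u N n - x n) := by
      refine pr_mono (𝓦.nonneg f hf) fun n => ?_
      refine (abs_tail_le p _ n).trans ?_
      rw [abs_sub_comm]
    linarith [hN N le_rfl f hf, hp f hf]
  refine ⟨mk x hxm, ?_⟩
  rw [Metric.tendsto_atTop]
  intro ε hε
  obtain ⟨N, hN⟩ := key (ε / 2) (by positivity)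
  refine ⟨N, fun k hk => ?_⟩
  rw [dist_eq_norm]
  refine lt_of_le_of_lt (norm_le_of _ fun f hf => ?_) (half_lt_self hε)
  exact hN k hk f hf

/-- Sequences that vanish from some point on belong to the space. -/
lemma mem_of_eventually_zero (x : ℕ → ℝ) (p : ℕ) (h : ∀ n ≥ p, x n = 0) : x ∈ SeqSub 𝓦 := by
  intro ε hε
  refine ⟨p, fun f _ => ?_⟩
  have : tail p x = 0 := by
    funext n; simp only [tail, Pi.zero_apply]; split_ifs with h1
    · rfl
    · exact h n (by omega)
  rw [this, pr_zero]; exact hε.le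

lemma mem_of_le {x y : ℕ → ℝ} (hy : y ∈ SeqSub 𝓦) (K : ℝ) (h : ∀ n, |x n| ≤ K * |y n|) :
    x ∈ SeqSub 𝓦 := by
  have hy' := (SeqSub 𝓦).smul_mem K hy
  intro ε hε
  obtain ⟨p, hp⟩ := hy' ε hε
  refine ⟨p, fun f hf => (pr_mono (𝓦.nonneg f hf) fun n => ?_).trans (hp f hf)⟩
  simp only [tail, Pi.smul_apply, smul_eq_mul]
  split_ifs
  · simp
  · rw [abs_mul]
    exact (h n).trans (mul_le_mul_of_nonneg_right (le_abs_self K) (abs_nonneg _))

/-- Coordinate functionals. -/
noncomputable def coord (n : ℕ) : Space 𝓦 →L[ℝ] ℝ :=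
  LinearMap.mkContinuous
    { toFun := fun x => x n
      map_add' := fun _ _ => rfl
      map_smul' := fun _ _ => rfl } 1
    (fun x => by
      rw [one_mul]
      exact abs_apply_le x n)

@[simp] lemma coord_apply (n : ℕ) (x : Space 𝓦) : coord n x = x n := rfl

/-- Unit vectors. -/
noncomputable def bv (n : ℕ) : Space 𝓦 :=
  mk (fun k => if k = n then 1 else 0)
    (mem_of_eventually_zero _ (n + 1) (by intro k hk; simp; omega))

@[simp] lemma bv_apply (n k : ℕ) : (bv n : Space 𝓦) k = if k = n then 1 else 0 := rfl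

/-- Multiplication operators. -/
noncomputable def mulOp (a : ℕ → ℝ) (K : ℝ) (h : ∀ n, |a n| ≤ K) : Space 𝓦 →L[ℝ] Space 𝓦 :=
  LinearMap.mkContinuous
    { toFun := fun x => mk (fun n => a n * x n)
        (mem_of_le x.2 K fun n => by
          rw [abs_mul]; exact mul_le_mul_of_nonneg_right (h n) (abs_nonneg _))
      map_add' := fun x y => ext' fun n => by simp [mul_add]
      map_smul' := fun c x => ext' fun n => by simp; ring } K
    (fun x => by
      have hK : 0 ≤ K := (abs_nonneg _).trans (h 0)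
      have : ‖K • x‖ = K * ‖x‖ := by rw [norm_smul, Real.norm_of_nonneg hK]
      rw [← this]
      refine norm_mono fun n => ?_
      simp only [LinearMap.coe_mk, AddHom.coe_mk, mk_apply, smul_apply, abs_mul]
      exact mul_le_mul_of_nonneg_right ((h n).trans (le_abs_self K)) (abs_nonneg _))

@[simp] lemma mulOp_apply (a : ℕ → ℝ) (K : ℝ) (h : ∀ n, |a n| ≤ K) (x : Space 𝓦) (n : ℕ) :
    mulOp a K h x n = a n * x n := rfl

lemma norm_mulOp_apply_le (a : ℕ → ℝ) (K : ℝ) (h : ∀ n, |a n| ≤ K) (x : Space 𝓦) :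
    ‖mulOp a K h x‖ ≤ K * ‖x‖ := by
  have hK : 0 ≤ K := (abs_nonneg _).trans (h 0)
  have : ‖K • x‖ = K * ‖x‖ := by rw [norm_smul, Real.norm_of_nonneg hK]
  rw [← this]
  refine norm_mono fun n => ?_
  simp only [mulOp_apply, smul_apply, abs_mul]
  exact mul_le_mul_of_nonneg_right ((h n).trans (le_abs_self K)) (abs_nonneg _)

open scoped Classical in
/-- Coordinate projections. -/
noncomputable def P (A : Set ℕ) : Space 𝓦 →L[ℝ] Space 𝓦 :=
  mulOp (fun n => if n ∈ A then 1 else 0) 1 (fun n => by split_ifs <;> simp)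

open scoped Classical in
@[simp] lemma P_apply (A : Set ℕ) (x : Space 𝓦) (n : ℕ) : P A x n = if n ∈ A then x n else 0 := by
  simp [P]

lemma abs_P_le (A : Set ℕ) (x : Space 𝓦) (n : ℕ) : |P A x n| ≤ |x n| := by
  rw [P_apply]; split_ifs <;> simp

lemma norm_P_le (A : Set ℕ) (x : Space 𝓦) : ‖P A x‖ ≤ ‖x‖ := norm_mono (abs_P_le A x)

lemma norm_P_mono {A B : Set ℕ} (h : A ⊆ B) (x : Space 𝓦) : ‖P A x‖ ≤ ‖P B x‖ := by
  refine norm_mono fun n => ?_
  rw [P_apply, P_apply]
  split_ifs with h1 h2 h2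
  · exact le_rfl
  · exact absurd (h h1) h2
  · simp
  · simp

lemma P_add_compl (A : Set ℕ) (x : Space 𝓦) : P A x + P Aᶜ x = x := by
  refine ext' fun n => ?_
  rw [add_apply, P_apply, P_apply]
  by_cases h : n ∈ A <;> simp [h]

lemma P_P (A B : Set ℕ) (x : Space 𝓦) : P A (P B x) = P (A ∩ B) x := by
  refine ext' fun n => ?_
  simp only [P_apply, Set.mem_inter_iff]
  by_cases h : n ∈ A <;> by_cases h' : n ∈ B <;> simp [h, h']

lemma P_eq_self {A : Set ℕ} {x : Space 𝓦} (h : ∀ n, n ∉ A → x n = 0) : P A x = x := by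
  refine ext' fun n => ?_
  rw [P_apply]; split_ifs with h1
  · rfl
  · exact (h n h1).symm

lemma P_eq_zero {A : Set ℕ} {x : Space 𝓦} (h : ∀ n, n ∈ A → x n = 0) : P A x = 0 := by
  refine ext' fun n => ?_
  rw [P_apply]; split_ifs with h1
  · exact h n h1
  · rfl

lemma P_union_le (A B : Set ℕ) (x : Space 𝓦) : ‖P (A ∪ B) x‖ ≤ ‖P A x‖ + ‖P B x‖ := by
  have h : ‖P (A ∪ B) x‖ ≤ ‖P A x + P (B \ A) x‖ := by
    refine norm_mono fun n => ?_
    rw [add_apply, P_apply, P_apply, P_apply]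
    by_cases h : n ∈ A <;> by_cases h' : n ∈ B <;> simp [h, h']
  refine h.trans ((norm_add_le _ _).trans ?_)
  have := norm_P_mono (A := B \ A) (B := B) Set.sdiff_subset x
  linarith

/-- Tails go to zero. -/
lemma tail_small (x : Space 𝓦) {ε : ℝ} (hε : 0 < ε) :
    ∃ p, ∀ q ≥ p, ‖P {n | q ≤ n} x‖ ≤ ε := by
  obtain ⟨p, hp⟩ := pr_tail_small x hε
  refine ⟨p, fun q hq => norm_le_of _ fun f hf => ?_⟩
  refine (pr_mono (𝓦.nonneg f hf) fun n => ?_).trans (hp q hq f hf)
  rw [P_apply]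
  simp only [tail, Set.mem_ofPred_eq]
  split_ifs <;> first | omega | simp

lemma sum_apply {ι : Type*} (s : Finset ι) (x : ι → Space 𝓦) (n : ℕ) :
    (∑ i ∈ s, x i : Space 𝓦) n = ∑ i ∈ s, x i n := by
  exact map_sum (coord (𝓦 := 𝓦) n) x s

lemma coe_sum {ι : Type*} (s : Finset ι) (x : ι → Space 𝓦) :
    ((∑ i ∈ s, x i : Space 𝓦) : ℕ → ℝ) = ∑ i ∈ s, (x i : ℕ → ℝ) := by
  funext n
  rw [sum_apply, Finset.sum_apply]

lemma partial_sum_eq (x : Space 𝓦) (N : ℕ) :
    ∑ n ∈ range N, x n • (bv n : Space 𝓦) = P {n | n < N} x := by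
  refine ext' fun k => ?_
  rw [sum_apply, P_apply]
  simp only [smul_apply, bv_apply, mul_ite, mul_one, mul_zero, Set.mem_ofPred_eq]
  rw [Finset.sum_ite_eq]
  simp

lemma head_add_tail (x : Space 𝓦) (N : ℕ) : P {n | n < N} x + P {n | N ≤ n} x = x := by
  have h : ({n | N ≤ n} : Set ℕ) = {n | n < N}ᶜ := by ext n; simp
  rw [h]; exact P_add_compl _ _

lemma tendsto_partial (x : Space 𝓦) :
    Tendsto (fun N => ∑ n ∈ range N, x n • (bv n : Space 𝓦)) atTop (𝓝 x) := by
  rw [Metric.tendsto_atTop]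
  intro ε hε
  obtain ⟨p, hp⟩ := tail_small x (half_pos hε)
  refine ⟨p, fun N hN => ?_⟩
  rw [partial_sum_eq, dist_eq_norm]
  have h1 : P {n | n < N} x - x = - P {n | N ≤ n} x := by
    rw [← head_add_tail x N]
    simp only [map_add, P_P]
    refine ext' fun k => ?_
    simp only [sub_apply, add_apply, P_apply, neg_apply, Set.mem_ofPred_eq, Set.mem_inter_iff]
    split_ifs <;> first | omega | simp
  rw [h1, norm_neg]
  exact lt_of_le_of_lt (hp N hN) (half_lt_self hε)

lemma norm_bv_le (n : ℕ) : ‖(bv n : Space 𝓦)‖ ≤ 1 := by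
  refine norm_le_of _ fun f hf => ?_
  unfold pr
  have : ∑ k ∈ f.support, (f k : ℝ) * |(bv n : Space 𝓦) k| ≤
      ∑ k ∈ f.support, if k = n then 1 else 0 := by
    refine Finset.sum_le_sum fun k _ => ?_
    rw [bv_apply]
    split_ifs
    · simp only [abs_one, mul_one]; exact_mod_cast 𝓦.le_one f hf k
    · simp
  refine this.trans ?_
  rw [Finset.sum_ite_eq']
  split_ifs <;> norm_num

/-- A finitely supported vector is a finite combination of the unit vectors. -/
lemma eq_sum_of_finite (x : Space 𝓦) (N : ℕ) (h : ∀ n ≥ N, x n = 0) :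
    x = ∑ n ∈ range N, x n • (bv n : Space 𝓦) := by
  rw [partial_sum_eq]
  exact (P_eq_self fun n hn => h n (by simpa using hn)).symm

end Space

end Pool.Agent.P18b69d
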