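import Mathlib
import Pool.Agent.Lib.P18b69d.SeqSpace

set_option autoImplicit false
open Filter Topology Finset

namespace Pool.Agent.P18b69d

/-- Exponents. -/
def ex (i : ℕ) : ℕ := 2 ^ i

/-- Weights `m_i = 2^(2^i)`. -/
def mm (i : ℕ) : ℕ := 2 ^ ex i

/-- Lengths. -/
def nn : ℕ → ℕ
  | 0 => 1
  | i + 1 => (2 * nn i) ^ (2 * ex (i + 1) + 2) * (mm (i + 1)) ^ 2

lemma ex_pos (i : ℕ) : 1 ≤ ex i := Nat.one_le_two_pow

lemma mm_pos (i : ℕ) : 1 ≤ mm i := Nat.one_le_two_pow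

lemma two_le_mm (i : ℕ) : 2 ≤ mm i := by
  calc 2 = 2 ^ 1 := by norm_num
    _ ≤ 2 ^ ex i := Nat.pow_le_pow_right (by norm_num) (ex_pos i)

lemma ex_mono {i j : ℕ} (h : i ≤ j) : ex i ≤ ex j := Nat.pow_le_pow_right (by norm_num) h

lemma ex_succ (i : ℕ) : ex (i + 1) = 2 * ex i := by unfold ex; ring

lemma mm_mono {i j : ℕ} (h : i ≤ j) : mm i ≤ mm j :=
  Nat.pow_le_pow_right (by norm_num) (ex_mono h)

lemma mm_succ (i : ℕ) : mm (i + 1) = mm i ^ 2 := by
  unfold mm; rw [ex_succ, ← pow_mul, mul_comm]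

lemma lt_mm (i : ℕ) : i < mm i := by
  have h1 : i < ex i := Nat.lt_two_pow_self
  have h2 : ex i < mm i := Nat.lt_two_pow_self
  omega

lemma two_pow_le_mm (i : ℕ) : 2 ^ i ≤ mm i := by
  unfold mm
  exact Nat.pow_le_pow_right (by norm_num) (Nat.lt_two_pow_self (n := i)).le

lemma nn_pos (i : ℕ) : 1 ≤ nn i := by
  induction i with
  | zero => simp [nn]
  | succ i ih =>
    simp only [nn]
    exact Nat.one_le_iff_ne_zero.mpr (by
      have := mm_pos (i + 1)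
      positivity)

lemma nn_succ (i : ℕ) : nn (i + 1) = (2 * nn i) ^ (2 * ex (i + 1) + 2) * (mm (i + 1)) ^ 2 := rfl

lemma two_nn_le (i : ℕ) : 2 * nn i ≤ nn (i + 1) := by
  rw [nn_succ]
  have h0 : 1 ≤ 2 * nn i := by have := nn_pos i; omega
  have h1 : 2 * nn i ≤ (2 * nn i) ^ (2 * ex (i + 1) + 2) :=
    Nat.le_self_pow (by omega) _
  have h2 : 1 ≤ mm (i + 1) ^ 2 := Nat.one_le_pow _ _ (mm_pos _)
  calc 2 * nn i = 2 * nn i * 1 := by ring
    _ ≤ _ := Nat.mul_le_mul h1 h2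

lemma nn_mono {i j : ℕ} (h : i ≤ j) : nn i ≤ nn j := by
  induction h with
  | refl => exact le_rfl
  | @step m _ ih =>
    have h1 := two_nn_le m
    have h2 : nn m.succ = nn (m + 1) := rfl
    omega

lemma two_pow_le_nn (i : ℕ) : 2 ^ i ≤ nn i := by
  induction i with
  | zero => simp [nn]
  | succ i ih =>
    have := two_nn_le i
    rw [pow_succ]; omega

lemma mm_sq_le_nn (i : ℕ) : mm (i + 1) ^ 2 ≤ nn (i + 1) := by
  rw [nn_succ]
  have h0 : 1 ≤ 2 * nn i := by have := nn_pos i; omega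
  have h1 : 1 ≤ (2 * nn i) ^ (2 * ex (i + 1) + 2) := Nat.one_le_pow _ _ h0
  calc mm (i + 1) ^ 2 = 1 * mm (i + 1) ^ 2 := by ring
    _ ≤ _ := Nat.mul_le_mul_right _ h1

instance : Countable (List (ℕ →₀ ℚ)) := inferInstance

/-- The coding function. -/
noncomputable def code : List (ℕ →₀ ℚ) → ℕ := (exists_injective_nat (List (ℕ →₀ ℚ))).choose

lemma code_inj : Function.Injective code := (exists_injective_nat (List (ℕ →₀ ℚ))).choose_spec

/-- Successively supported families. -/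
def Succ (r : ℕ) (F : ℕ → (ℕ →₀ ℚ)) : Prop :=
  ∀ l l', l < l' → l' < r → ∀ a ∈ (F l).support, ∀ b ∈ (F l').support, a < b

/-- The coding condition for special functionals. -/
structure Special (i r : ℕ) (F : ℕ → (ℕ →₀ ℚ)) (I : ℕ → ℕ) : Prop where
  pos : ∀ l < r, 1 ≤ I l
  even : ∀ l < r, Even (I l)
  mono : ∀ l l', l < l' → l' < r → I l < I l'
  big : ∀ l < r, nn i ^ 2 ≤ mm (I l)
  coded : ∀ l, 1 ≤ l → l < r → (Nat.unpair (I l / 2)).1 = code ((List.range l).map F)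

/-- The norming functionals. -/
inductive W : ℕ → (ℕ →₀ ℚ) → Prop
  | basis (n : ℕ) (f : ℕ →₀ ℚ) (h0 : ∀ k, 0 ≤ f k)
      (h1 : ∀ k, f k ≤ Finsupp.single n (1 : ℚ) k) : W 0 f
  | node (i r : ℕ) (F : ℕ → (ℕ →₀ ℚ)) (I : ℕ → ℕ) (f : ℕ →₀ ℚ) (hi : 1 ≤ i) (hr : r ≤ nn i)
      (hF : ∀ l < r, W (I l) (F l)) (hs : Succ r F) (hodd : Odd i → Special i r F I)
      (h0 : ∀ k, 0 ≤ f k) (h1 : ∀ k, f k ≤ (1 / (mm i : ℚ)) * ∑ l ∈ range r, F l k)
      (ho : ∀ k, f k ≠ 0 → Odd k) : W i f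

lemma W.nonneg {i : ℕ} {f : ℕ →₀ ℚ} (h : W i f) : ∀ k, 0 ≤ f k := by
  cases h with
  | basis n f h0 h1 => exact h0
  | node i r F I f hi hr hF hs hodd h0 h1 ho => exact h0

lemma W.of_le {i : ℕ} {f g : ℕ →₀ ℚ} (h : W i f) (h0 : ∀ k, 0 ≤ g k) (hg : ∀ k, g k ≤ f k) :
    W i g := by
  cases h with
  | basis n f h0' h1 => exact W.basis n g h0 fun k => (hg k).trans (h1 k)
  | node i r F I f hi hr hF hs hodd h0' h1 ho =>
    refine W.node i r F I g hi hr hF hs hodd h0 (fun k => (hg k).trans (h1 k)) ?_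
    intro k hk
    refine ho k ?_
    have h2 := lt_of_le_of_ne (h0 k) (Ne.symm hk)
    exact (lt_of_lt_of_le h2 (hg k)).ne'

lemma succ_unique {r : ℕ} {F : ℕ → (ℕ →₀ ℚ)} (hs : Succ r F) {l l' k : ℕ} (hl : l < r)
    (hl' : l' < r) (h : F l k ≠ 0) (h' : F l' k ≠ 0) : l = l' := by
  rcases lt_trichotomy l l' with h1 | h1 | h1
  · exact absurd (hs l l' h1 hl' k (Finsupp.mem_support_iff.mpr h) k
      (Finsupp.mem_support_iff.mpr h')) (lt_irrefl _)
  · exact h1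
  · exact absurd (hs l' l h1 hl k (Finsupp.mem_support_iff.mpr h') k
      (Finsupp.mem_support_iff.mpr h)) (lt_irrefl _)

lemma succ_sum_le {r : ℕ} {F : ℕ → (ℕ →₀ ℚ)} (hs : Succ r F) (k : ℕ)
    (h1 : ∀ l < r, F l k ≤ 1) : ∑ l ∈ range r, F l k ≤ 1 := by
  by_cases h : ∃ l ∈ range r, F l k ≠ 0
  · obtain ⟨l, hl, hl0⟩ := h
    rw [Finset.sum_eq_single_of_mem l hl]
    · exact h1 l (mem_range.mp hl)
    · intro l' hl' hne
      by_contra hcon
      exact hne (succ_unique hs (mem_range.mp hl') (mem_range.mp hl) hcon hl0)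
  · push Not at h
    rw [Finset.sum_eq_zero h]; norm_num

lemma W.le_one {i : ℕ} {f : ℕ →₀ ℚ} (h : W i f) : ∀ k, f k ≤ 1 := by
  induction h with
  | basis n f h0 h1 =>
    intro k
    refine (h1 k).trans ?_
    rw [Finsupp.single_apply]
    split_ifs <;> norm_num
  | node i r F I f hi hr hF hs hodd h0 h1 ho ih =>
    intro k
    have h2 : ∑ l ∈ range r, F l k ≤ 1 := succ_sum_le hs k fun l hl => ih l hl k
    have h3 : (0 : ℚ) < mm i := by exact_mod_cast mm_pos i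
    have h4 : (1 : ℚ) / mm i ≤ 1 := by
      rw [div_le_one h3]; exact_mod_cast mm_pos i
    have h5 : (0 : ℚ) ≤ 1 / mm i := by positivity
    calc f k ≤ (1 / (mm i : ℚ)) * ∑ l ∈ range r, F l k := h1 k
      _ ≤ (1 / (mm i : ℚ)) * 1 := mul_le_mul_of_nonneg_left h2 h5
      _ ≤ 1 := by rw [mul_one]; exact h4

/-- For functionals of positive index the sup norm is at most `1/m_i`. -/
lemma W.le_inv {i : ℕ} {f : ℕ →₀ ℚ} (h : W i f) (hi : 1 ≤ i) (k : ℕ) : f k ≤ 1 / (mm i : ℚ) := by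
  cases h with
  | basis n f h0 h1 => omega
  | node i r F I f hi hr hF hs hodd h0 h1 ho =>
    have h2 : ∑ l ∈ range r, F l k ≤ 1 := succ_sum_le hs k fun l hl => (hF l hl).le_one k
    have h5 : (0 : ℚ) ≤ 1 / mm i := by positivity
    calc f k ≤ (1 / (mm i : ℚ)) * ∑ l ∈ range r, F l k := h1 k
      _ ≤ (1 / (mm i : ℚ)) * 1 := mul_le_mul_of_nonneg_left h2 h5
      _ = 1 / mm i := mul_one _

/-- The norming set. -/
noncomputable def NS : NormingSet where
  S := {f | ∃ i, W i f}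
  nonneg := by rintro f ⟨i, h⟩; exact h.nonneg
  le_one := by rintro f ⟨i, h⟩; exact h.le_one
  single := by
    intro n
    refine ⟨0, W.basis n _ ?_ fun k => le_rfl⟩
    intro k; rw [Finsupp.single_apply]; split_ifs <;> norm_num

/-- The Banach space. -/
abbrev X : Type := Space NS

lemma pr_add_left (f g : ℕ →₀ ℚ) (x : ℕ → ℝ) : pr (f + g) x = pr f x + pr g x := by
  rw [pr_superset (f := f + g) (s := f.support ∪ g.support) Finsupp.support_add,
    pr_superset (f := f) (s := f.support ∪ g.support) Finset.subset_union_left,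
    pr_superset (f := g) (s := f.support ∪ g.support) Finset.subset_union_right,
    ← Finset.sum_add_distrib]
  refine Finset.sum_congr rfl fun n _ => ?_
  rw [Finsupp.add_apply]; push_cast; ring

lemma pr_smul_left (c : ℚ) (f : ℕ →₀ ℚ) (x : ℕ → ℝ) : pr (c • f) x = c * pr f x := by
  rw [pr_superset (f := c • f) (s := f.support) Finsupp.support_smul]
  unfold pr
  rw [Finset.mul_sum]
  refine Finset.sum_congr rfl fun n _ => ?_
  rw [Finsupp.smul_apply, smul_eq_mul]; push_cast; ring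

lemma pr_zero_left (x : ℕ → ℝ) : pr 0 x = 0 := by simp [pr]

lemma pr_sum_left {ι : Type*} (s : Finset ι) (F : ι → (ℕ →₀ ℚ)) (x : ℕ → ℝ) :
    pr (∑ l ∈ s, F l) x = ∑ l ∈ s, pr (F l) x := by
  classical
  induction s using Finset.induction_on with
  | empty => simp [pr_zero_left]
  | insert a s ha ih => rw [Finset.sum_insert ha, Finset.sum_insert ha, pr_add_left, ih]

lemma pr_node_le {i r : ℕ} {F : ℕ → (ℕ →₀ ℚ)} {f : ℕ →₀ ℚ}
    (h1 : ∀ k, f k ≤ (1 / (mm i : ℚ)) * ∑ l ∈ range r, F l k) (x : ℕ → ℝ) :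
    pr f x ≤ (1 / (mm i : ℝ)) * ∑ l ∈ range r, pr (F l) x := by
  have : pr f x ≤ pr ((1 / (mm i : ℚ)) • ∑ l ∈ range r, F l) x := by
    refine pr_mono_left (fun k => ?_) x
    rw [Finsupp.smul_apply, Finsupp.finsetSum_apply, smul_eq_mul]
    exact h1 k
  rw [pr_smul_left, pr_sum_left] at this
  push_cast at this
  exact this

end Pool.Agent.P18b69d
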