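import Mathlib
import Pool.Agent.Lib.P18b69d.Norming

set_option autoImplicit false
open Filter Topology Finset

namespace Pool.Agent.P18b69d

/-- Successively supported sequences of vectors. -/
def VSucc (x : ℕ → ℕ → ℝ) : Prop :=
  ∀ k k', k < k' → ∀ a b, x k a ≠ 0 → x k' b ≠ 0 → a < b

/-- Rapidly increasing sequences. -/
structure RIS (C : ℝ) (x : ℕ → ℕ → ℝ) (j : ℕ → ℕ) : Prop where
  hC : 0 ≤ C
  succ : VSucc x
  mono : StrictMono j
  norm : ∀ k i f, W i f → pr f (x k) ≤ C
  low : ∀ k i f, W i f → 1 ≤ i → i < j k → pr f (x k) ≤ C / mm i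
  high : ∀ k i f, W i f → j (k + 1) ≤ i → pr f (x k) ≤ (1 / 2) ^ k

lemma vsucc_unique {x : ℕ → ℕ → ℝ} (hx : VSucc x) {k k' a : ℕ} (h : x k a ≠ 0)
    (h' : x k' a ≠ 0) : k = k' := by
  rcases lt_trichotomy k k' with h1 | h1 | h1
  · exact absurd (hx k k' h1 a a h h') (lt_irrefl _)
  · exact h1
  · exact absurd (hx k' k h1 a a h' h) (lt_irrefl _)

lemma sum_half_le (s : Finset ℕ) : ∑ k ∈ s, ((1 : ℝ) / 2) ^ k ≤ 2 := by
  have h1 : Summable fun k : ℕ => ((1 : ℝ) / 2) ^ k := summable_geometric_two
  calc ∑ k ∈ s, ((1 : ℝ) / 2) ^ k ≤ ∑' k : ℕ, ((1 : ℝ) / 2) ^ k :=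
        h1.sum_le_tsum s fun i _ => by positivity
    _ = 2 := tsum_geometric_two

lemma pr_eq_zero_of_disj {f : ℕ →₀ ℚ} {x : ℕ → ℝ} (h : ∀ a, f a ≠ 0 → x a = 0) : pr f x = 0 := by
  unfold pr
  refine Finset.sum_eq_zero fun n hn => ?_
  rw [h n (Finsupp.mem_support_iff.mp hn)]; simp

section
variable {C : ℝ} {x : ℕ → ℕ → ℝ} {j : ℕ → ℕ}

lemma RIS.split (hR : RIS C x j) {i : ℕ} {f : ℕ →₀ ℚ} (hf : W i f) (A : Finset ℕ) :
    ∑ k ∈ A, pr f (x k) ≤ (C + 2) + ∑ k ∈ A with i < j k, pr f (x k) := by
  classical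
  have h1 : ∑ k ∈ A, pr f (x k) = ∑ k ∈ A with i < j k, pr f (x k)
      + ∑ k ∈ A with ¬ (i < j k), pr f (x k) := (Finset.sum_filter_add_sum_filter_not _ _ _).symm
  have h2 : ∑ k ∈ A with ¬ (i < j k), pr f (x k)
      = ∑ k ∈ {k ∈ A | ¬ (i < j k)} with j (k + 1) ≤ i, pr f (x k)
      + ∑ k ∈ {k ∈ A | ¬ (i < j k)} with ¬ (j (k + 1) ≤ i), pr f (x k) :=
    (Finset.sum_filter_add_sum_filter_not _ _ _).symm
  have h3 : ∑ k ∈ {k ∈ A | ¬ (i < j k)} with j (k + 1) ≤ i, pr f (x k) ≤ 2 := by
    refine le_trans (Finset.sum_le_sum fun k hk => ?_) (sum_half_le _)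
    exact hR.high k i f hf (Finset.mem_filter.mp hk).2
  have h4 : ∑ k ∈ {k ∈ A | ¬ (i < j k)} with ¬ (j (k + 1) ≤ i), pr f (x k) ≤ C := by
    have hcard : ({k ∈ {k ∈ A | ¬ (i < j k)} | ¬ (j (k + 1) ≤ i)} : Finset ℕ).card ≤ 1 := by
      rw [Finset.card_le_one]
      intro a ha b hb
      simp only [Finset.mem_filter] at ha hb
      rcases lt_trichotomy a b with h | h | h
      · have := hR.mono.monotone (Nat.succ_le_of_lt h)
        have e : j a.succ = j (a + 1) := rfl
        omega
      · exact h
      · have := hR.mono.monotone (Nat.succ_le_of_lt h)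
        have e : j b.succ = j (b + 1) := rfl
        omega
    calc _ ≤ ∑ k ∈ {k ∈ A | ¬ (i < j k)} with ¬ (j (k + 1) ≤ i), C :=
          Finset.sum_le_sum fun k _ => hR.norm k i f hf
      _ = _ * C := by rw [Finset.sum_const, nsmul_eq_mul]
      _ ≤ 1 * C := by
          refine mul_le_mul_of_nonneg_right ?_ hR.hC
          exact_mod_cast hcard
      _ = C := one_mul C
  linarith

lemma RIS.trivial_bound (hR : RIS C x j) {i : ℕ} {f : ℕ →₀ ℚ} (hf : W i f) (hi : 1 ≤ i)
    (A : Finset ℕ) : ∑ k ∈ A, pr f (x k) ≤ (C + 2) + C * A.card / mm i := by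
  classical
  refine (hR.split hf A).trans ?_
  have : ∑ k ∈ A with i < j k, pr f (x k) ≤ C * A.card / mm i := by
    calc ∑ k ∈ A with i < j k, pr f (x k) ≤ ∑ k ∈ A with i < j k, C / mm i :=
          Finset.sum_le_sum fun k hk => hR.low k i f hf hi (Finset.mem_filter.mp hk).2
      _ = ({k ∈ A | i < j k} : Finset ℕ).card * (C / mm i) := by
          rw [Finset.sum_const, nsmul_eq_mul]
      _ ≤ A.card * (C / mm i) := by
          refine mul_le_mul_of_nonneg_right ?_ (by have := hR.hC; positivity)
          exact_mod_cast Finset.card_filter_le _ _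
      _ = C * A.card / mm i := by ring
  linarith

/-- Analysis of a functional at its root. -/
lemma RIS.node_bound (hR : RIS C x j) {i r : ℕ} {F : ℕ → (ℕ →₀ ℚ)} {I : ℕ → ℕ} {f : ℕ →₀ ℚ}
    (hf : W i f) (hi : 1 ≤ i) (hF : ∀ l < r, W (I l) (F l)) (hs : Succ r F)
    (h1 : ∀ k, f k ≤ (1 / (mm i : ℚ)) * ∑ l ∈ range r, F l k) (A : Finset ℕ) :
    ∃ B : ℕ → Finset ℕ, (∑ l ∈ range r, (B l).card ≤ A.card) ∧
      ∑ k ∈ A, pr f (x k) ≤ (C + 2) + C * r / mm i +
        (1 / (mm i : ℝ)) * ∑ l ∈ range r, ∑ k ∈ B l, pr (F l) (x k) := by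
  classical
  set meets : ℕ → ℕ → Prop := fun k l => ∃ a, x k a ≠ 0 ∧ F l a ≠ 0 with hmeets
  set A3 : Finset ℕ := {k ∈ A | i < j k} with hA3
  set As : Finset ℕ := {k ∈ A3 | ∃ l l', l < l' ∧ l' < r ∧ meets k l ∧ meets k l'} with hAs
  set An : Finset ℕ := {k ∈ A3 | ¬ ∃ l l', l < l' ∧ l' < r ∧ meets k l ∧ meets k l'} with hAn
  set B : ℕ → Finset ℕ := fun l => {k ∈ An | meets k l} with hB
  have hm0 : (0 : ℝ) < mm i := by exact_mod_cast mm_pos i
  refine ⟨B, ?_, ?_⟩
  · -- disjointness
    have hdisj : ∀ l ∈ range r, ∀ l' ∈ range r, l ≠ l' → Disjoint (B l) (B l') := by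
      intro l hl l' hl' hne
      rw [Finset.disjoint_left]
      intro k hk hk'
      simp only [hB, hAn, Finset.mem_filter] at hk hk'
      rcases lt_or_gt_of_ne hne with h | h
      · exact hk.1.2 ⟨l, l', h, mem_range.mp hl', hk.2, hk'.2⟩
      · exact hk.1.2 ⟨l', l, h, mem_range.mp hl, hk'.2, hk.2⟩
    rw [← Finset.card_biUnion hdisj]
    refine Finset.card_le_card ?_
    intro k hk
    rw [Finset.mem_biUnion] at hk
    obtain ⟨l, _, hk⟩ := hk
    simp only [hB, hAn, hA3, Finset.mem_filter] at hk
    exact hk.1.1.1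
  · refine (hR.split hf A).trans ?_
    have hsp : ∑ k ∈ A3, pr f (x k) = ∑ k ∈ As, pr f (x k) + ∑ k ∈ An, pr f (x k) :=
      (Finset.sum_filter_add_sum_filter_not _ _ _).symm
    -- straddling part
    have hstr : ∑ k ∈ As, pr f (x k) ≤ C * r / mm i := by
      have hcard : As.card ≤ r := by
        have hex : ∀ k ∈ As, ∃ l, ∃ l', l < l' ∧ l' < r ∧ meets k l ∧ meets k l' := by
          intro k hk
          obtain ⟨l, l', h⟩ := (Finset.mem_filter.mp hk).2
          exact ⟨l, l', h⟩
        choose! g hg using hex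
        have := Finset.card_le_card_of_injOn (s := As) (t := range r) g
          (by
            intro k hk
            obtain ⟨l', h1, h2, _⟩ := hg k hk
            simp only [coe_range, Set.mem_Iio]
            omega)
          (by
            intro k hk k' hk' hgg
            obtain ⟨l1, a1, a2, ⟨p, hp1, hp2⟩, ⟨q, hq1, hq2⟩⟩ := hg k hk
            obtain ⟨l2, b1, b2, ⟨p', hp1', hp2'⟩, ⟨q', hq1', hq2'⟩⟩ := hg k' hk'
            rcases lt_trichotomy k k' with h | h | h
            · exfalso
              -- q in x k, F l1 ; p' in x k', F (g k')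
              have e1 : q < p' := hR.succ k k' h q p' hq1 hp1'
              have e2 : p' < q := hs (g k') l1 (by rw [← hgg]; exact a1) a2 p'
                (Finsupp.mem_support_iff.mpr hp2') q (Finsupp.mem_support_iff.mpr hq2)
              omega
            · exact h
            · exfalso
              have e1 : q' < p := hR.succ k' k h q' p hq1' hp1
              have e2 : p < q' := hs (g k) l2 (by rw [hgg]; exact b1) b2 p
                (Finsupp.mem_support_iff.mpr hp2) q' (Finsupp.mem_support_iff.mpr hq2')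
              omega)
        simpa using this
      calc ∑ k ∈ As, pr f (x k) ≤ ∑ k ∈ As, C / mm i := by
            refine Finset.sum_le_sum fun k hk => hR.low k i f hf hi ?_
            exact (Finset.mem_filter.mp (Finset.mem_filter.mp hk).1).2
        _ = As.card * (C / mm i) := by rw [Finset.sum_const, nsmul_eq_mul]
        _ ≤ r * (C / mm i) := by
            refine mul_le_mul_of_nonneg_right ?_ (by have := hR.hC; positivity)
            exact_mod_cast hcard
        _ = C * r / mm i := by ring
    have hns : ∑ k ∈ An, pr f (x k) ≤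
        (1 / (mm i : ℝ)) * ∑ l ∈ range r, ∑ k ∈ B l, pr (F l) (x k) := by
      calc ∑ k ∈ An, pr f (x k)
          ≤ ∑ k ∈ An, (1 / (mm i : ℝ)) * ∑ l ∈ range r, pr (F l) (x k) :=
            Finset.sum_le_sum fun k _ => pr_node_le h1 (x k)
        _ = (1 / (mm i : ℝ)) * ∑ l ∈ range r, ∑ k ∈ An, pr (F l) (x k) := by
            rw [← Finset.mul_sum, Finset.sum_comm]
        _ = _ := by
            congr 1
            refine Finset.sum_congr rfl fun l _ => ?_
            refine (Finset.sum_filter_of_ne (p := fun k => meets k l) ?_).symm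
            intro k _ hne
            by_contra hcon
            refine hne (pr_eq_zero_of_disj fun a ha => ?_)
            by_contra hcon'
            exact hcon ⟨a, hcon', ha⟩
    rw [hsp]
    linarith

/-- The basic estimate. -/
theorem RIS.basic (hR : RIS C x j) (q S : ℕ)
    (hbig : ∀ i f, W i f → q + 1 ≤ i → ∀ A : Finset ℕ,
      ∑ k ∈ A, pr f (x k) ≤ (C + 2) * (1 + A.card / 2 ^ S)) :
    ∀ i f, W i f → ∀ s ≤ S, ∀ A : Finset ℕ,
      ∑ k ∈ A, pr f (x k) ≤ (C + 2) * ((2 * nn q) ^ s + A.card / 2 ^ s) := by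
  intro i f hf
  have hC := hR.hC
  have hν1 : (1 : ℝ) ≤ nn q := by exact_mod_cast nn_pos q
  induction hf with
  | basis n f h0 h1 =>
    intro s _ A
    classical
    have hW : W 0 f := W.basis n f h0 h1
    have hle : ∑ k ∈ A, pr f (x k) ≤ C := by
      by_cases h : ∃ k ∈ A, x k n ≠ 0
      · obtain ⟨k, hk, hkn⟩ := h
        rw [Finset.sum_eq_single_of_mem k hk]
        · exact hR.norm k 0 f hW
        · intro k' _ hne
          refine pr_eq_zero_of_disj fun a ha => ?_
          have han : a = n := by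
            by_contra hcon
            have := h1 a
            rw [Finsupp.single_apply, if_neg (Ne.symm hcon)] at this
            exact ha (le_antisymm this (h0 a))
          subst han
          by_contra hcon
          exact hne (vsucc_unique hR.succ hcon hkn)
      · push Not at h
        rw [Finset.sum_eq_zero]
        · exact hC
        · intro k hk
          refine pr_eq_zero_of_disj fun a ha => ?_
          have han : a = n := by
            by_contra hcon
            have := h1 a
            rw [Finsupp.single_apply, if_neg (Ne.symm hcon)] at this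
            exact ha (le_antisymm this (h0 a))
          subst han
          exact h k hk
    have h2 : (1 : ℝ) ≤ (2 * nn q) ^ s := one_le_pow₀ (by linarith)
    have h3 : (0 : ℝ) ≤ A.card / 2 ^ s := by positivity
    nlinarith
  | node i r F I f hi hr hF hs hodd h0 h1 ho ih =>
    intro s hsS A
    have hW : W i f := W.node i r F I f hi hr hF hs hodd h0 h1 ho
    by_cases hiq : q + 1 ≤ i
    · refine (hbig i f hW hiq A).trans ?_
      refine mul_le_mul_of_nonneg_left ?_ (by linarith)
      have h2 : (1 : ℝ) ≤ (2 * nn q) ^ s := one_le_pow₀ (by linarith)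
      have h3 : (A.card : ℝ) / 2 ^ S ≤ A.card / 2 ^ s := by
        refine div_le_div_of_nonneg_left (by positivity) (by positivity) ?_
        exact pow_le_pow_right₀ (by norm_num) hsS
      linarith
    · have hiq' : i ≤ q := by omega
      by_cases hse : s ≤ ex i
      · refine (hR.trivial_bound hW hi A).trans ?_
        have h2 : (1 : ℝ) ≤ (2 * nn q) ^ s := one_le_pow₀ (by linarith)
        have h3 : (A.card : ℝ) / mm i ≤ A.card / 2 ^ s := by
          refine div_le_div_of_nonneg_left (by positivity) (by positivity) ?_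
          unfold mm
          push_cast
          exact pow_le_pow_right₀ (by norm_num) hse
        have h4 : C * A.card / mm i = C * (A.card / mm i) := by ring
        rw [h4]
        have h5 : (0 : ℝ) ≤ A.card / 2 ^ s := by positivity
        have h6 : C * ((A.card : ℝ) / mm i) ≤ C * (A.card / 2 ^ s) :=
          mul_le_mul_of_nonneg_left h3 hC
        nlinarith
      · push Not at hse
        obtain ⟨B, hB1, hB2⟩ := hR.node_bound hW hi hF hs h1 A
        obtain ⟨t, ht⟩ : ∃ t, s = ex i + t := ⟨s - ex i, by omega⟩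
        have htS : t ≤ S := by omega
        set ν : ℝ := ((nn q : ℕ) : ℝ) with hν
        have hrν : (r : ℝ) ≤ ν := by
          have := hr.trans (nn_mono hiq')
          rw [hν]; exact_mod_cast this
        have hmm2 : (mm i : ℝ) = 2 ^ ex i := by unfold mm; push_cast; rfl
        have hm0 : (0 : ℝ) < mm i := by exact_mod_cast mm_pos i
        have hm2 : (2 : ℝ) ≤ mm i := by exact_mod_cast two_le_mm i
        have hsum : ∑ l ∈ range r, ∑ k ∈ B l, pr (F l) (x k) ≤
            (C + 2) * (ν * (2 * ν) ^ t + A.card / 2 ^ t) := by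
          calc ∑ l ∈ range r, ∑ k ∈ B l, pr (F l) (x k)
              ≤ ∑ l ∈ range r, (C + 2) * ((2 * ν) ^ t + (B l).card / 2 ^ t) := by
                refine Finset.sum_le_sum fun l hl => ?_
                exact ih l (mem_range.mp hl) t htS (B l)
            _ = (C + 2) * (r * (2 * ν) ^ t + (∑ l ∈ range r, ((B l).card : ℝ)) / 2 ^ t) := by
                rw [← Finset.mul_sum, Finset.sum_add_distrib, Finset.sum_const, card_range,
                  nsmul_eq_mul, Finset.sum_div]
            _ ≤ _ := by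
                refine mul_le_mul_of_nonneg_left ?_ (by linarith)
                refine add_le_add ?_ ?_
                · exact mul_le_mul_of_nonneg_right hrν (by positivity)
                · refine div_le_div_of_nonneg_right ?_ (by positivity)
                  exact_mod_cast hB1
        refine hB2.trans ?_
        -- arithmetic
        have hpow : (2 * ν) ^ s = (2 * ν) ^ (ex i) * (2 * ν) ^ t := by rw [ht, pow_add]
        have h2s : (2 : ℝ) ^ s = mm i * 2 ^ t := by rw [ht, pow_add, hmm2]
        have h2ν : (1 : ℝ) ≤ 2 * ν := by linarith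
        have hXt : (1 : ℝ) ≤ (2 * ν) ^ t := one_le_pow₀ h2ν
        have hexi : 2 * ν ≤ (2 * ν) ^ (ex i) := by
          calc 2 * ν = (2 * ν) ^ 1 := (pow_one _).symm
            _ ≤ _ := pow_le_pow_right₀ h2ν (ex_pos i)
        have key : 1 + ν / mm i + (1 / mm i) * (ν * (2 * ν) ^ t) ≤ (2 * ν) ^ s := by
          rw [hpow]
          have e1 : ν / mm i ≤ ν / 2 := div_le_div_of_nonneg_left (by linarith) (by norm_num) hm2
          have e2 : (1 / mm i) * (ν * (2 * ν) ^ t) ≤ (1 / 2) * (ν * (2 * ν) ^ t) := by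
            refine mul_le_mul_of_nonneg_right ?_ (by positivity)
            exact one_div_le_one_div_of_le (by norm_num) hm2
          have e3 : 2 * ν * (2 * ν) ^ t ≤ (2 * ν) ^ (ex i) * (2 * ν) ^ t :=
            mul_le_mul_of_nonneg_right hexi (by positivity)
          nlinarith
        have hCr : C * r / mm i ≤ (C + 2) * (ν / mm i) := by
          rw [mul_div_assoc]
          have : (r : ℝ) / mm i ≤ ν / mm i := div_le_div_of_nonneg_right hrν hm0.le
          have h0' : (0 : ℝ) ≤ ν / mm i := by positivity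
          have h0'' : (0 : ℝ) ≤ (r : ℝ) / mm i := by positivity
          nlinarith
        have hfin : (1 / (mm i : ℝ)) * ((C + 2) * (ν * (2 * ν) ^ t + A.card / 2 ^ t)) =
            (C + 2) * ((1 / mm i) * (ν * (2 * ν) ^ t)) + (C + 2) * (A.card / 2 ^ s) := by
          rw [h2s]
          field_simp
        have hstep : (1 / (mm i : ℝ)) * ∑ l ∈ range r, ∑ k ∈ B l, pr (F l) (x k) ≤
            (1 / (mm i : ℝ)) * ((C + 2) * (ν * (2 * ν) ^ t + A.card / 2 ^ t)) :=
          mul_le_mul_of_nonneg_left hsum (by positivity)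
        rw [hfin] at hstep
        have hC2 : (0 : ℝ) < C + 2 := by linarith
        have := mul_le_mul_of_nonneg_left key hC2.le
        nlinarith

end

end Pool.Agent.P18b69d
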