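import Mathlib
import Pool.Agent.Lib.P18b69d.Basic

set_option autoImplicit false
open Filter Topology Finset

namespace Pool.Agent.P18b69d

lemma mm_cast (i : ℕ) : (mm i : ℝ) = 2 ^ ex i := by unfold mm; push_cast; rfl

lemma mm_posR (i : ℕ) : (0 : ℝ) < mm i := by exact_mod_cast mm_pos i

lemma nn_posR (i : ℕ) : (0 : ℝ) < nn i := by exact_mod_cast nn_pos i

lemma nn_succ_cast (q : ℕ) :
    (nn (q + 1) : ℝ) = (2 * nn q) ^ (2 * ex (q + 1) + 2) * (mm (q + 1)) ^ 2 := by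
  rw [nn_succ]; push_cast; rfl

/-- `n/m` dominates the number of small branches. -/
lemma pow_le_nn_div (q : ℕ) :
    ((2 : ℝ) * nn q) ^ (ex (q + 1)) ≤ nn (q + 1) / mm (q + 1) := by
  have h1 : (1 : ℝ) ≤ 2 * nn q := by
    have : (1 : ℝ) ≤ nn q := by exact_mod_cast nn_pos q
    linarith
  rw [le_div_iff₀ (mm_posR _), nn_succ_cast]
  have h2 : ((2 : ℝ) * nn q) ^ (ex (q + 1)) ≤ (2 * nn q) ^ (2 * ex (q + 1) + 2) :=
    pow_le_pow_right₀ h1 (by omega)
  have h3 : (mm (q + 1) : ℝ) ≤ mm (q + 1) ^ 2 := by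
    have : (1 : ℝ) ≤ mm (q + 1) := by exact_mod_cast mm_pos _
    nlinarith
  exact mul_le_mul h2 h3 (mm_posR _).le (by positivity)

lemma pow_le_nn_div_sq (q : ℕ) :
    ((2 : ℝ) * nn q) ^ (2 * ex (q + 1)) ≤ nn (q + 1) / mm (q + 1) ^ 2 := by
  have h1 : (1 : ℝ) ≤ 2 * nn q := by
    have : (1 : ℝ) ≤ nn q := by exact_mod_cast nn_pos q
    linarith
  have hm := mm_posR (q + 1)
  rw [le_div_iff₀ (by positivity), nn_succ_cast]
  have h2 : ((2 : ℝ) * nn q) ^ (2 * ex (q + 1)) ≤ (2 * nn q) ^ (2 * ex (q + 1) + 2) :=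
    pow_le_pow_right₀ h1 (by omega)
  exact mul_le_mul_of_nonneg_right h2 (by positivity)

section
variable {C : ℝ} {x : ℕ → ℕ → ℝ} {j : ℕ → ℕ}

lemma RIS.basic' (hR : RIS C x j) (q : ℕ) : ∀ i f, W i f → ∀ s ≤ ex (q + 1), ∀ A : Finset ℕ,
      ∑ k ∈ A, pr f (x k) ≤ (C + 2) * ((2 * nn q) ^ s + A.card / 2 ^ s) := by
  refine hR.basic q (ex (q + 1)) ?_
  intro i f hf hi A
  have hC := hR.hC
  refine (hR.trivial_bound hf (by omega) A).trans ?_
  have h1 : (mm (q + 1) : ℝ) ≤ mm i := by exact_mod_cast mm_mono hi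
  rw [mm_cast (q + 1)] at h1
  have h2 : (A.card : ℝ) / mm i ≤ A.card / 2 ^ ex (q + 1) :=
    div_le_div_of_nonneg_left (by positivity) (by positivity) h1
  have h3 : C * A.card / mm i = C * (A.card / mm i) := by ring
  have h4 : (0 : ℝ) ≤ A.card / mm i := by positivity
  rw [h3]
  nlinarith

/-- Norm of long sums. -/
lemma RIS.sum_le (hR : RIS C x j) (q : ℕ) {i : ℕ} {f : ℕ →₀ ℚ} (hf : W i f) (A : Finset ℕ)
    (hA : A.card = nn (q + 1)) :
    ∑ k ∈ A, pr f (x k) ≤ 2 * (C + 2) * (nn (q + 1) / mm (q + 1)) := by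
  have h1 := hR.basic' q i f hf (ex (q + 1)) le_rfl A
  have h2 := pow_le_nn_div q
  rw [hA, ← mm_cast] at h1
  have hC := hR.hC
  nlinarith

/-- Weighted estimate for long sums. -/
lemma RIS.sum_le_weight (hR : RIS C x j) (q : ℕ) {i : ℕ} {f : ℕ →₀ ℚ} (hf : W i f) (hi : 1 ≤ i)
    (hiq : i ≤ q) (A : Finset ℕ) (hA : A.card = nn (q + 1)) :
    ∑ k ∈ A, pr f (x k) ≤ 2 * (C + 2) * (nn (q + 1) / mm (q + 1)) / mm i := by
  have hW := hf
  have hC := hR.hC
  cases hf with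
  | basis n f h0 h1 => omega
  | node i r F I f hi hr hF hs hodd h0 h1 ho =>
    obtain ⟨B, hB1, hB2⟩ := hR.node_bound hW hi hF hs h1 A
    set ν : ℝ := ((nn q : ℕ) : ℝ) with hν
    have hν1 : (1 : ℝ) ≤ ν := by rw [hν]; exact_mod_cast nn_pos q
    have hrν : (r : ℝ) ≤ ν := by
      have := hr.trans (nn_mono hiq)
      rw [hν]; exact_mod_cast this
    set S := ex (q + 1) with hS
    have hsum : ∑ l ∈ range r, ∑ k ∈ B l, pr (F l) (x k) ≤
        (C + 2) * (ν * (2 * ν) ^ S + A.card / 2 ^ S) := by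
      calc ∑ l ∈ range r, ∑ k ∈ B l, pr (F l) (x k)
          ≤ ∑ l ∈ range r, (C + 2) * ((2 * ν) ^ S + (B l).card / 2 ^ S) := by
            refine Finset.sum_le_sum fun l hl => ?_
            exact hR.basic' q _ _ (hF l (mem_range.mp hl)) S le_rfl (B l)
        _ = (C + 2) * (r * (2 * ν) ^ S + (∑ l ∈ range r, ((B l).card : ℝ)) / 2 ^ S) := by
            rw [← Finset.mul_sum, Finset.sum_add_distrib, Finset.sum_const, card_range,
              nsmul_eq_mul, Finset.sum_div]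
        _ ≤ _ := by
            refine mul_le_mul_of_nonneg_left ?_ (by linarith)
            refine add_le_add ?_ ?_
            · exact mul_le_mul_of_nonneg_right hrν (by positivity)
            · refine div_le_div_of_nonneg_right ?_ (by positivity)
              exact_mod_cast hB1
    have hm := mm_posR i
    have hmq := mm_posR (q + 1)
    have hmi : (mm i : ℝ) ≤ mm (q + 1) := by exact_mod_cast mm_mono (by omega : i ≤ q + 1)
    have hmq1 : (1 : ℝ) ≤ mm (q + 1) := by exact_mod_cast mm_pos (q + 1)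
    -- key numerical fact
    set Z : ℝ := (2 * ν) ^ (S + 1) with hZ
    have h2ν : (2 : ℝ) ≤ 2 * ν := by linarith
    have hZ2 : 2 * ν ≤ Z := by
      calc 2 * ν = (2 * ν) ^ 1 := (pow_one _).symm
        _ ≤ _ := pow_le_pow_right₀ (by linarith) (by omega)
    have hZe : ν * (2 * ν) ^ S = Z / 2 := by rw [hZ, pow_succ]; ring
    have hn : (nn (q + 1) : ℝ) = Z ^ 2 * mm (q + 1) ^ 2 := by
      rw [nn_succ_cast, hZ, ← pow_mul]
      congr 2
      ring
    have hkey : (mm i : ℝ) + ν + ν * (2 * ν) ^ S ≤ nn (q + 1) / mm (q + 1) := by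
      rw [hn, hZe]
      have : Z ^ 2 * (mm (q + 1) : ℝ) ^ 2 / mm (q + 1) = Z ^ 2 * mm (q + 1) := by
        field_simp
      rw [this]
      have hZ2' : 2 ≤ Z := by linarith
      have g1 : Z * 1 ≤ Z * mm (q + 1) := mul_le_mul_of_nonneg_left hmq1 (by linarith)
      have g2 : 1 * (mm (q + 1) : ℝ) ≤ Z * mm (q + 1) :=
        mul_le_mul_of_nonneg_right (by linarith) hmq.le
      have g3 : 2 * (Z * (mm (q + 1) : ℝ)) ≤ Z * (Z * mm (q + 1)) :=
        mul_le_mul_of_nonneg_right hZ2' (by positivity)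
      nlinarith
    have hsum' : (1 / (mm i : ℝ)) * ∑ l ∈ range r, ∑ k ∈ B l, pr (F l) (x k) ≤
        (1 / (mm i : ℝ)) * ((C + 2) * (ν * (2 * ν) ^ S + A.card / 2 ^ S)) :=
      mul_le_mul_of_nonneg_left hsum (by positivity)
    have h2S : (2 : ℝ) ^ S = mm (q + 1) := by rw [hS, ← mm_cast]
    rw [hA, h2S] at hsum'
    have hfinal : (C + 2) + C * r / mm i + (1 / (mm i : ℝ)) *
        ((C + 2) * (ν * (2 * ν) ^ S + nn (q + 1) / mm (q + 1))) ≤
        2 * (C + 2) * (nn (q + 1) / mm (q + 1)) / mm i := by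
      rw [le_div_iff₀ hm]
      have e1 : ((C + 2) + C * r / mm i + (1 / (mm i : ℝ)) *
        ((C + 2) * (ν * (2 * ν) ^ S + nn (q + 1) / mm (q + 1)))) * mm i =
        (C + 2) * mm i + C * r + (C + 2) * (ν * (2 * ν) ^ S + nn (q + 1) / mm (q + 1)) := by
        field_simp
      rw [e1]
      have e2 : C * r ≤ (C + 2) * ν := by
        have hr0 : (0 : ℝ) ≤ r := by positivity
        nlinarith
      have := mul_le_mul_of_nonneg_left hkey (by linarith : 0 ≤ C + 2)
      nlinarith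
    linarith

end

end Pool.Agent.P18b69d
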