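import Mathlib
import Pool.Agent.Lib.P18b69d.Estimates

set_option autoImplicit false
open Filter Topology Finset

namespace Pool.Agent.P18b69d

/-- Dependent sequences. -/
structure Dep (q : ℕ) (C : ℝ) (y : ℕ → ℕ → ℝ) (h : ℕ → (ℕ →₀ ℚ)) (I : ℕ → ℕ) : Prop where
  ris : RIS C y I
  coded : ∀ l, 1 ≤ l → (Nat.unpair (I l / 2)).1 = code ((List.range l).map h)
  big : nn q ^ 2 ≤ mm (I 0)
  disj : ∀ l k a, h l a ≠ 0 → y k a = 0
  high : ∀ k i f, W i f → I k < i → pr f (y k) ≤ 2 * C / mm (I k)

section
variable {q : ℕ} {C : ℝ} {y : ℕ → ℕ → ℝ} {h : ℕ → (ℕ →₀ ℚ)} {I : ℕ → ℕ}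

/-- Special functionals of index `q` are small on dependent sequences. -/
lemma Dep.special_bound (hD : Dep q C y h I) (hq : Odd q) {f : ℕ →₀ ℚ} (hf : W q f)
    (A : Finset ℕ) :
    ∑ k ∈ A, pr f (y k) ≤ (1 / (mm q : ℝ)) * (3 * C + 2 * C * A.card / nn q) := by
  classical
  have hR := hD.ris
  have hC := hR.hC
  cases hf with
  | basis n f h0 h1 => exact absurd hq (by decide)
  | node i r F I' f hi hr hF hs hodd h0 h1 ho =>
    have hSp := hodd hq
    have hnn := nn_posR q
    have hmq := mm_posR q
    -- pointwise bound for non matching pairs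
    have hsmall : ∀ l < r, ∀ k, I' l ≠ I k → pr (F l) (y k) ≤ 2 * C / (nn q) ^ 2 := by
      intro l hl k hne
      have hbig1 : ((nn q : ℝ)) ^ 2 ≤ mm (I' l) := by exact_mod_cast hSp.big l hl
      have hbig2 : ((nn q : ℝ)) ^ 2 ≤ mm (I k) := by
        have h2 : I 0 ≤ I k := hR.mono.monotone (Nat.zero_le k)
        exact_mod_cast hD.big.trans (mm_mono h2)
      rcases lt_or_gt_of_ne hne with hlt | hgt
      · refine (hR.low k _ _ (hF l hl) (hSp.pos l hl) hlt).trans ?_
        calc C / mm (I' l) ≤ C / (nn q) ^ 2 :=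
              div_le_div_of_nonneg_left hC (by positivity) hbig1
          _ ≤ 2 * C / (nn q) ^ 2 := by
              refine div_le_div_of_nonneg_right ?_ (by positivity)
              linarith
      · refine (hD.high k _ _ (hF l hl) hgt).trans ?_
        exact div_le_div_of_nonneg_left (by positivity) (by positivity) hbig2
    set Pn : Finset (ℕ × ℕ) := range r ×ˢ A with hPn
    set g : ℕ × ℕ → ℝ := fun p => pr (F p.1) (y p.2) with hg
    set bad : ℕ × ℕ → Prop := fun p => I' p.1 = I p.2 ∧ pr (F p.1) (y p.2) ≠ 0 with hbad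
    have hg0 : ∀ p ∈ Pn, 0 ≤ g p := by
      intro p hp
      have hl : p.1 < r := mem_range.mp (Finset.mem_product.mp hp).1
      exact pr_nonneg (hF p.1 hl).nonneg _
    have hsplit : ∑ p ∈ Pn, g p = ∑ p ∈ Pn with bad p, g p + ∑ p ∈ Pn with ¬ bad p, g p :=
      (Finset.sum_filter_add_sum_filter_not _ _ _).symm
    -- few bad pairs
    have hcard : ({p ∈ Pn | bad p} : Finset (ℕ × ℕ)).card ≤ 3 := by
      have hsub : ({p ∈ Pn | bad p} : Finset (ℕ × ℕ)) ⊆
          ({p ∈ Pn | bad p ∧ p.1 = 0} ∪ {p ∈ Pn | bad p ∧ p.2 = 0}) ∪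
            {p ∈ Pn | bad p ∧ 1 ≤ p.1 ∧ 1 ≤ p.2} := by
        intro p hp
        simp only [Finset.mem_union, Finset.mem_filter] at hp ⊢
        rcases Nat.eq_zero_or_pos p.1 with h1 | h1
        · exact Or.inl (Or.inl ⟨hp.1, hp.2, h1⟩)
        · rcases Nat.eq_zero_or_pos p.2 with h2 | h2
          · exact Or.inl (Or.inr ⟨hp.1, hp.2, h2⟩)
          · exact Or.inr ⟨hp.1, hp.2, h1, h2⟩
      have c0 : ({p ∈ Pn | bad p ∧ p.1 = 0} : Finset (ℕ × ℕ)).card ≤ 1 := by
        rw [Finset.card_le_one]
        intro a ha b hb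
        simp only [Finset.mem_filter, hbad] at ha hb
        have e : a.1 = b.1 := ha.2.2.trans hb.2.2.symm
        refine Prod.ext e ?_
        apply hR.mono.injective
        rw [← ha.2.1.1, ← hb.2.1.1, e]
      have c1 : ({p ∈ Pn | bad p ∧ p.2 = 0} : Finset (ℕ × ℕ)).card ≤ 1 := by
        rw [Finset.card_le_one]
        intro a ha b hb
        simp only [Finset.mem_filter, hbad, hPn, Finset.mem_product, mem_range] at ha hb
        have e : a.2 = b.2 := ha.2.2.trans hb.2.2.symm
        refine Prod.ext ?_ e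
        have e2 : I' a.1 = I' b.1 := by rw [ha.2.1.1, hb.2.1.1, e]
        rcases lt_trichotomy a.1 b.1 with hlt | heq | hgt
        · exact absurd e2 (hSp.mono _ _ hlt hb.1.1).ne
        · exact heq
        · exact absurd e2 (hSp.mono _ _ hgt ha.1.1).ne'
      have hmatch : ∀ l < r, ∀ k, 1 ≤ l → 1 ≤ k → I' l = I k →
          l = k ∧ ∀ s < l, F s = h s := by
        intro l hl k hl1 hk1 hIk
        have e1 := hSp.coded l hl1 hl
        have e2 := hD.coded k hk1
        rw [hIk, e2] at e1
        have e3 := code_inj e1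
        have e4 : k = l := by
          have := congrArg List.length e3
          simpa using this
        subst e4
        refine ⟨rfl, fun s hs' => ?_⟩
        have := (List.map_inj_left.mp e3) s (List.mem_range.mpr hs')
        exact this.symm
      have c2 : ({p ∈ Pn | bad p ∧ 1 ≤ p.1 ∧ 1 ≤ p.2} : Finset (ℕ × ℕ)).card ≤ 1 := by
        rw [Finset.card_le_one]
        intro a ha b hb
        simp only [Finset.mem_filter, hbad, hPn, Finset.mem_product, mem_range] at ha hb
        obtain ⟨ea, fa⟩ := hmatch a.1 ha.1.1 a.2 ha.2.2.1 ha.2.2.2 ha.2.1.1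
        obtain ⟨eb, fb⟩ := hmatch b.1 hb.1.1 b.2 hb.2.2.1 hb.2.2.2 hb.2.1.1
        have key : a.1 = b.1 := by
          rcases lt_trichotomy a.1 b.1 with hlt | heq | hgt
          · exfalso
            apply ha.2.1.2
            rw [fb a.1 hlt]
            exact pr_eq_zero_of_disj fun c hc => hD.disj _ _ c hc
          · exact heq
          · exfalso
            apply hb.2.1.2
            rw [fa b.1 hgt]
            exact pr_eq_zero_of_disj fun c hc => hD.disj _ _ c hc
        exact Prod.ext key (by rw [← ea, ← eb, key])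
      calc _ ≤ _ := Finset.card_le_card hsub
        _ ≤ _ := Finset.card_union_le _ _
        _ ≤ _ := Nat.add_le_add_right (Finset.card_union_le _ _) _
        _ ≤ 3 := by omega
    have hb : ∑ p ∈ Pn with bad p, g p ≤ 3 * C := by
      calc ∑ p ∈ Pn with bad p, g p ≤ ∑ p ∈ Pn with bad p, C := by
            refine Finset.sum_le_sum fun p hp => ?_
            have hl : p.1 < r :=
              mem_range.mp (Finset.mem_product.mp (Finset.mem_filter.mp hp).1).1
            exact hR.norm _ _ _ (hF p.1 hl)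
        _ = _ * C := by rw [Finset.sum_const, nsmul_eq_mul]
        _ ≤ 3 * C := by
            refine mul_le_mul_of_nonneg_right ?_ hC
            exact_mod_cast hcard
    have hnb : ∑ p ∈ Pn with ¬ bad p, g p ≤ 2 * C * A.card / nn q := by
      calc ∑ p ∈ Pn with ¬ bad p, g p ≤ ∑ p ∈ Pn with ¬ bad p, 2 * C / (nn q) ^ 2 := by
            refine Finset.sum_le_sum fun p hp => ?_
            obtain ⟨hp1, hp2⟩ := Finset.mem_filter.mp hp
            have hl : p.1 < r := mem_range.mp (Finset.mem_product.mp hp1).1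
            by_cases hI : I' p.1 = I p.2
            · have h3 : pr (F p.1) (y p.2) = 0 := by
                by_contra hcon
                exact hp2 ⟨hI, hcon⟩
              simp only [hg, h3]
              positivity
            · exact hsmall _ hl _ hI
        _ = _ * (2 * C / (nn q) ^ 2) := by rw [Finset.sum_const, nsmul_eq_mul]
        _ ≤ (nn q * A.card) * (2 * C / (nn q) ^ 2) := by
            refine mul_le_mul_of_nonneg_right ?_ (by positivity)
            have e1 : ({p ∈ Pn | ¬ bad p} : Finset (ℕ × ℕ)).card ≤ r * A.card := by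
              refine (Finset.card_filter_le _ _).trans ?_
              rw [hPn, Finset.card_product, card_range]
            have e2 : r * A.card ≤ nn q * A.card := Nat.mul_le_mul_right _ hr
            exact_mod_cast e1.trans e2
        _ = 2 * C * A.card / nn q := by field_simp
    calc ∑ k ∈ A, pr f (y k)
        ≤ ∑ k ∈ A, (1 / (mm q : ℝ)) * ∑ l ∈ range r, pr (F l) (y k) :=
          Finset.sum_le_sum fun k _ => pr_node_le h1 (y k)
      _ = (1 / (mm q : ℝ)) * ∑ p ∈ Pn, g p := by
          rw [← Finset.mul_sum, hPn, Finset.sum_product_right]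
      _ ≤ _ := by
          refine mul_le_mul_of_nonneg_left ?_ (by positivity)
          rw [hsplit]; linarith

/-- Upper estimate for dependent sequences. -/
theorem Dep.sum_le {q : ℕ} (hD : Dep (q + 1) C y h I) (hq : Odd (q + 1)) {i : ℕ} {f : ℕ →₀ ℚ}
    (hf : W i f) :
    ∑ k ∈ range (nn (q + 1)), pr f (y k) ≤
      2 * (C + 2) * (nn (q + 1) / mm (q + 1) ^ 2) := by
  have hR := hD.ris
  have hC := hR.hC
  have hm4 : (4 : ℝ) ≤ mm (q + 1) := by
    have h1 : mm 1 ≤ mm (q + 1) := mm_mono (by omega)
    have h2 : mm 1 = 4 := by decide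
    rw [h2] at h1
    exact_mod_cast h1
  have hn : ((mm (q + 1) : ℝ)) ^ 2 ≤ nn (q + 1) := by exact_mod_cast mm_sq_le_nn q
  have hn0 := nn_posR (q + 1)
  have hm0 := mm_posR (q + 1)
  have h2S : (2 : ℝ) ^ (2 * ex (q + 1)) = mm (q + 1) ^ 2 := by
    rw [mm_cast, ← pow_mul, mul_comm]
  have hmain := hR.basic q (2 * ex (q + 1)) ?_ i f hf (2 * ex (q + 1)) le_rfl
    (range (nn (q + 1)))
  · rw [card_range, h2S] at hmain
    have := pow_le_nn_div_sq q
    nlinarith
  · intro i f hf hi A
    rw [h2S]
    rcases Nat.eq_or_lt_of_le hi with he | hlt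
    · subst he
      refine (hD.special_bound hq hf A).trans ?_
      have hA0 : (0 : ℝ) ≤ A.card := by positivity
      have e1 : (1 / (mm (q + 1) : ℝ)) * (3 * C + 2 * C * A.card / nn (q + 1)) =
          3 * C / mm (q + 1) + 2 * C * A.card / (nn (q + 1) * mm (q + 1)) := by
        field_simp
      rw [e1]
      have e2 : 3 * C / mm (q + 1) ≤ C + 2 := by
        rw [div_le_iff₀ hm0]; nlinarith
      have e3 : 2 * C * A.card / (nn (q + 1) * mm (q + 1)) ≤
          (C + 2) * (A.card / mm (q + 1) ^ 2) := by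
        rw [← mul_div_assoc, div_le_div_iff₀ (by positivity) (by positivity)]
        have g1 : 2 * C * (A.card : ℝ) * mm (q + 1) ^ 2 ≤ 2 * C * A.card * nn (q + 1) :=
          mul_le_mul_of_nonneg_left hn (by positivity)
        have g2 : 2 * (C * (A.card : ℝ) * nn (q + 1)) ≤
            mm (q + 1) * (C * A.card * nn (q + 1)) :=
          mul_le_mul_of_nonneg_right (by linarith) (by positivity)
        have g3 : (0 : ℝ) ≤ 2 * (A.card * (nn (q + 1) * mm (q + 1))) := by positivity
        nlinarith
      nlinarith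
    · refine (hR.trivial_bound hf (by omega) A).trans ?_
      have h1 : (mm (q + 2) : ℝ) ≤ mm i := by exact_mod_cast mm_mono (by omega)
      have h2 : (mm (q + 2) : ℝ) = mm (q + 1) ^ 2 := by
        have := mm_succ (q + 1)
        exact_mod_cast this
      rw [h2] at h1
      have h3 : (A.card : ℝ) / mm i ≤ A.card / mm (q + 1) ^ 2 :=
        div_le_div_of_nonneg_left (by positivity) (by positivity) h1
      have h4 : C * A.card / mm i = C * (A.card / mm i) := by ring
      have h5 : (0 : ℝ) ≤ A.card / mm i := by positivity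
      rw [h4]
      nlinarith

end

end Pool.Agent.P18b69d
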