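import Mathlib
import Pool.Agent.Lib.P18b69d.Dependent

set_option autoImplicit false
open Filter Topology Finset

namespace Pool.Agent.P18b69d

/-- Low weight estimate for averages of successive vectors. -/
lemma avg_low {N : ℕ} {u : ℕ → ℕ → ℝ}
    (hu : ∀ s s', s < s' → s' < N → ∀ a b, u s a ≠ 0 → u s' b ≠ 0 → a < b)
    (h1 : ∀ s < N, ∀ i f, W i f → pr f (u s) ≤ 1) {i : ℕ} {f : ℕ →₀ ℚ} (hf : W i f)
    (hi : 1 ≤ i) :
    ∑ s ∈ range N, pr f (u s) ≤ ((nn i : ℝ) + N) / mm i := by
  classical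
  cases hf with
  | basis n f h0 h1 => omega
  | node i r F I f hi hr hF hs hodd h0 h1' ho =>
    have hm := mm_posR i
    set meets : ℕ × ℕ → Prop := fun p => ∃ a, F p.1 a ≠ 0 ∧ u p.2 a ≠ 0 with hmeets
    have hcard : ({p ∈ range r ×ˢ range N | meets p} : Finset (ℕ × ℕ)).card ≤ r + N := by
      have := Finset.card_le_card_of_injOn (s := {p ∈ range r ×ˢ range N | meets p})
        (t := range (r + N)) (fun p => p.1 + p.2)
        (by
          intro p hp
          simp only [Finset.coe_filter, Finset.mem_product, mem_range, Set.mem_ofPred_eq] at hp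
          simp only [coe_range, Set.mem_Iio]
          omega)
        (by
          intro p hp p' hp' hpp
          simp only [Finset.coe_filter, Finset.mem_product, mem_range, Set.mem_ofPred_eq] at hp hp'
          simp only at hpp
          obtain ⟨⟨hp1, hp2⟩, a, ha1, ha2⟩ := hp
          obtain ⟨⟨hp1', hp2'⟩, b, hb1, hb2⟩ := hp'
          rcases lt_trichotomy p.1 p'.1 with h | h | h
          · exfalso
            have e1 : a < b := hs _ _ h hp1' a (Finsupp.mem_support_iff.mpr ha1) b
              (Finsupp.mem_support_iff.mpr hb1)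
            have e2 : b < a := hu p'.2 p.2 (by omega) hp2 b a hb2 ha2
            omega
          · exact Prod.ext h (by omega)
          · exfalso
            have e1 : b < a := hs _ _ h hp1 b (Finsupp.mem_support_iff.mpr hb1) a
              (Finsupp.mem_support_iff.mpr ha1)
            have e2 : a < b := hu p.2 p'.2 (by omega) hp2' a b ha2 hb2
            omega)
      simpa using this
    calc ∑ s ∈ range N, pr f (u s)
        ≤ ∑ s ∈ range N, (1 / (mm i : ℝ)) * ∑ l ∈ range r, pr (F l) (u s) :=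
          Finset.sum_le_sum fun s _ => pr_node_le h1' (u s)
      _ = (1 / (mm i : ℝ)) * ∑ p ∈ range r ×ˢ range N, pr (F p.1) (u p.2) := by
          rw [← Finset.mul_sum, Finset.sum_product_right]
      _ ≤ (1 / (mm i : ℝ)) * ∑ p ∈ range r ×ˢ range N, (if meets p then (1 : ℝ) else 0) := by
          refine mul_le_mul_of_nonneg_left (Finset.sum_le_sum fun p hp => ?_) (by positivity)
          obtain ⟨hp1, hp2⟩ := Finset.mem_product.mp hp
          rw [mem_range] at hp1 hp2
          split_ifs with h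
          · exact h1 p.2 hp2 _ _ (hF p.1 hp1)
          · refine (pr_eq_zero_of_disj fun a ha => ?_).le
            by_contra hcon
            exact h ⟨a, ha, hcon⟩
      _ ≤ (1 / (mm i : ℝ)) * (r + N) := by
          refine mul_le_mul_of_nonneg_left ?_ (by positivity)
          rw [← Finset.sum_filter, Finset.sum_const, nsmul_eq_mul, mul_one]
          exact_mod_cast hcard
      _ ≤ (1 / (mm i : ℝ)) * (nn i + N) := by
          refine mul_le_mul_of_nonneg_left ?_ (by positivity)
          have : (r : ℝ) ≤ nn i := by exact_mod_cast hr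
          linarith
      _ = _ := by ring

lemma high_exists (x : ℕ → ℝ) (b : ℕ) (hb : ∀ a ≥ b, x a = 0) (l : ℕ) :
    ∃ J, ∀ i ≥ J, ∀ f, W i f → pr f x ≤ (1 / 2) ^ l := by
  set s : ℝ := ∑ a ∈ range b, |x a| with hs
  have hs0 : 0 ≤ s := Finset.sum_nonneg fun _ _ => abs_nonneg _
  obtain ⟨J, hJ⟩ := exists_nat_gt (2 ^ l * s + 1)
  refine ⟨J, fun i hi f hf => ?_⟩
  have hJ1 : 1 ≤ J := by
    by_contra hcon
    have : J = 0 := by omega
    subst this
    have : (0 : ℝ) ≤ 2 ^ l * s := by positivity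
    push_cast at hJ
    linarith
  have hmi : (J : ℝ) ≤ mm i := by exact_mod_cast (hi.trans (lt_mm i).le)
  have hm := mm_posR i
  have h1 : pr f x ≤ (1 / (mm i : ℝ)) * s := by
    rw [pr_superset (s := f.support ∪ range b) Finset.subset_union_left, hs, Finset.mul_sum]
    have h2 : ∑ a ∈ range b, (1 / (mm i : ℝ)) * |x a| =
        ∑ a ∈ f.support ∪ range b, (1 / (mm i : ℝ)) * |x a| := by
      refine Finset.sum_subset Finset.subset_union_right fun a _ ha => ?_
      rw [hb a (by simpa using ha)]; simp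
    rw [h2]
    refine Finset.sum_le_sum fun a _ => mul_le_mul_of_nonneg_right ?_ (abs_nonneg _)
    have := hf.le_inv (by omega) a
    have h4 : ((f a : ℚ) : ℝ) ≤ ((1 / (mm i : ℚ) : ℚ) : ℝ) := by exact_mod_cast this
    refine h4.trans ?_
    push_cast
    exact le_rfl
  refine h1.trans ?_
  rw [one_div, inv_mul_le_iff₀ hm]
  have h2 : (2 : ℝ) ^ l * s ≤ mm i := by linarith
  have h3 : s = (1 / 2) ^ l * (2 ^ l * s) := by
    rw [← mul_assoc, ← mul_pow]; norm_num
  rw [h3, mul_comm (mm i : ℝ)]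
  exact mul_le_mul_of_nonneg_left h2 (by positivity)

/-- Families of averages. -/
structure AvgFam (Z : ℕ → ℕ → ℕ → ℝ) : Prop where
  norm : ∀ N K i f, 1 ≤ N → W i f → pr f (Z N K) ≤ 1
  low : ∀ N K i f, 1 ≤ N → W i f → 1 ≤ i → pr f (Z N K) ≤ ((nn i : ℝ) + N) / N / mm i
  fin : ∀ N K, ∃ b, ∀ a ≥ b, Z N K a = 0
  beyond : ∀ N K a, Z N K a ≠ 0 → K ≤ a

lemma AvgFam.exists_RIS {Z : ℕ → ℕ → ℕ → ℝ} (hZ : AvgFam Z) (g : ℕ → ℕ) :
    ∃ (N K j : ℕ → ℕ), (∀ l, 1 ≤ N l) ∧ StrictMono K ∧ (∀ l, g l ≤ K l) ∧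
      RIS 2 (fun l => Z (N l) (K l)) j := by
  have hfin := hZ.fin
  choose b hb using hfin
  have hhigh : ∀ N K l, ∃ J, ∀ i ≥ J, ∀ f, W i f → pr f (Z N K) ≤ (1 / 2) ^ l := fun N K l =>
    high_exists _ (b N K) (hb N K) l
  choose J hJ using hhigh
  -- state: (K, j)
  let st : ℕ → ℕ × ℕ := fun l => Nat.rec (g 0, 1)
    (fun l p => (max (max (p.1 + 1) (b (nn p.2) p.1)) (g (l + 1)),
      max (p.2 + 1) (J (nn p.2) p.1 l))) l
  have hst : ∀ l, st (l + 1) = (max (max ((st l).1 + 1) (b (nn (st l).2) (st l).1)) (g (l + 1)),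
      max ((st l).2 + 1) (J (nn (st l).2) (st l).1 l)) := fun l => rfl
  have hKmono : StrictMono fun l => (st l).1 := by
    refine strictMono_nat_of_lt_succ fun l => ?_
    rw [hst]; simp only
    have := le_max_left (max ((st l).1 + 1) (b (nn (st l).2) (st l).1)) (g (l + 1))
    have h2 := le_max_left ((st l).1 + 1) (b (nn (st l).2) (st l).1)
    omega
  have hjmono : StrictMono fun l => (st l).2 := by
    refine strictMono_nat_of_lt_succ fun l => ?_
    rw [hst]; simp only
    have h2 := le_max_left ((st l).2 + 1) (J (nn (st l).2) (st l).1 l)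
    omega
  refine ⟨fun l => nn (st l).2, fun l => (st l).1, fun l => (st l).2, fun l => nn_pos _, hKmono,
    ?_, ?_⟩
  · intro l
    cases l with
    | zero => exact le_rfl
    | succ l => change g (l + 1) ≤ (st (l + 1)).1; rw [hst]; exact le_max_right _ _
  · refine ⟨by norm_num, ?_, hjmono, ?_, ?_, ?_⟩
    · -- successive
      intro k k' hk a a' ha ha'
      have h1 : a < b (nn (st k).2) (st k).1 := by
        by_contra hcon
        exact ha (hb _ _ a (not_lt.mp hcon))
      have h2 : b (nn (st k).2) (st k).1 ≤ (st (k + 1)).1 := by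
        rw [hst]
        exact (le_max_right _ _).trans (le_max_left _ _)
      have h3 : (st (k + 1)).1 ≤ (st k').1 := hKmono.monotone hk
      have h4 : (st k').1 ≤ a' := hZ.beyond _ _ _ ha'
      omega
    · intro k i f hf
      exact (hZ.norm _ _ i f (nn_pos _) hf).trans (by norm_num)
    · intro k i f hf hi hik
      refine (hZ.low _ _ i f (nn_pos _) hf hi).trans ?_
      refine div_le_div_of_nonneg_right ?_ (mm_posR i).le
      rw [div_le_iff₀ (nn_posR _)]
      have : (nn i : ℝ) ≤ nn (st k).2 := by exact_mod_cast nn_mono hik.le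
      linarith
    · intro k i f hf hik
      refine hJ _ _ _ i ?_ f hf
      refine le_trans ?_ hik
      change _ ≤ (st (k + 1)).2
      rw [hst]
      exact le_max_right _ _

/-- Passing to subsequences and restrictions. -/
lemma RIS.sub {C : ℝ} {x : ℕ → ℕ → ℝ} {j : ℕ → ℕ} (hR : RIS C x j) {φ : ℕ → ℕ}
    (hφ : StrictMono φ) {x' : ℕ → ℕ → ℝ} (h : ∀ k a, |x' k a| ≤ |x (φ k) a|) :
    RIS C x' (j ∘ φ) := by
  have hne : ∀ k a, x' k a ≠ 0 → x (φ k) a ≠ 0 := by
    intro k a h1 h2
    have := h k a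
    rw [h2, abs_zero] at this
    exact h1 (abs_eq_zero.mp (le_antisymm this (abs_nonneg _)))
  refine ⟨hR.hC, ?_, hR.mono.comp hφ, ?_, ?_, ?_⟩
  · intro k k' hk a b ha hb
    exact hR.succ _ _ (hφ hk) a b (hne _ _ ha) (hne _ _ hb)
  · intro k i f hf
    exact (pr_mono hf.nonneg (h k)).trans (hR.norm _ i f hf)
  · intro k i f hf hi hik
    exact (pr_mono hf.nonneg (h k)).trans (hR.low _ i f hf hi hik)
  · intro k i f hf hik
    refine (pr_mono hf.nonneg (h k)).trans ((hR.high (φ k) i f hf ?_).trans ?_)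
    · refine le_trans ?_ hik
      exact hR.mono.monotone (Nat.succ_le_of_lt (hφ (Nat.lt_succ_self k)))
    · exact pow_le_pow_of_le_one (by norm_num) (by norm_num) (hφ.id_le k)

end Pool.Agent.P18b69d
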