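import Mathlib
import Pool.Agent.Lib.P18b69d.Averages

set_option autoImplicit false
open Filter Topology Finset

namespace Pool.Agent.P18b69d

open Space

/-- Odd coordinates. -/
def Od : Set ℕ := {n | Odd n}

/-- Even coordinates. -/
def Ev : Set ℕ := {n | Even n}

lemma norm_le_iffW (x : X) {c : ℝ} (h : ∀ i f, W i f → pr f x ≤ c) : ‖x‖ ≤ c :=
  norm_le_of x (by rintro f ⟨i, hf⟩; exact h i f hf)

lemma pr_le_normW (x : X) {i : ℕ} {f : ℕ →₀ ℚ} (hf : W i f) : pr f x ≤ ‖x‖ :=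
  pr_le_norm x ⟨i, hf⟩

lemma exists_prW (x : X) {c : ℝ} (h : c < ‖x‖) : ∃ i f, W i f ∧ c < pr f x := by
  obtain ⟨f, ⟨i, hf⟩, h2⟩ := exists_pr_gt x h
  exact ⟨i, f, hf, h2⟩

/-- Splitting criterion for the norm. -/
lemma norm_le_cases (x : X) {c : ℝ} (h0 : ∀ n, |x n| ≤ c)
    (h1 : ∀ i f, 1 ≤ i → W i f → pr f x ≤ c) : ‖x‖ ≤ c := by
  refine norm_le_iffW x fun i f hf => ?_
  by_cases hi : 1 ≤ i
  · exact h1 i f hi hf
  · have : i = 0 := by omega
    subst this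
    cases hf with
    | basis n f g0 g1 =>
      refine (pr_mono_left g1 x).trans ?_
      rw [pr_single]
      exact h0 n
    | node i r F I f hi' hr hF hs hodd h0 h1 ho => omega

lemma W.odd {i : ℕ} {f : ℕ →₀ ℚ} (hf : W i f) (hi : 1 ≤ i) : ∀ k, f k ≠ 0 → Odd k := by
  cases hf with
  | basis n f g0 g1 => omega
  | node i r F I f hi' hr hF hs hodd h0 h1 ho => exact ho

lemma even_norm_le (x : X) {c : ℝ} (hx : ∀ n, Odd n → x n = 0) (h0 : ∀ n, |x n| ≤ c) :
    ‖x‖ ≤ c := by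
  refine norm_le_cases x h0 fun i f hi hf => ?_
  rw [pr_eq_zero_of_disj fun a ha => hx a (hf.odd hi a ha)]
  exact (abs_nonneg _).trans (h0 0)

/-- Block sequences on which a functional is large. -/
lemma build_blocks (Λ : Set ℕ) (φ : X →L[ℝ] ℝ) {ε : ℝ} (hε : 0 < ε)
    (hfail : ∀ p : ℕ, ∃ x : X, (∀ n, n ∉ Λ → x n = 0) ∧ (∀ n < p, x n = 0) ∧
      ε * ‖x‖ < |φ x|) :
    ∃ w : ℕ → X, (∀ k, ‖w k‖ ≤ 1) ∧ (∀ k, ε / 2 ≤ φ (w k)) ∧ (∀ k n, n ∉ Λ → w k n = 0) ∧
      VSucc (fun k => (w k : ℕ → ℝ)) ∧ (∀ k, ∃ b, ∀ a ≥ b, w k a = 0) ∧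
      (∀ k a, w k a ≠ 0 → k ≤ a) := by
  have hG : ∀ p : ℕ, ∃ (y : X) (b : ℕ), ‖y‖ ≤ 1 ∧ ε / 2 ≤ φ y ∧ (∀ n, n ∉ Λ → y n = 0) ∧
      (∀ n < p, y n = 0) ∧ (∀ a ≥ b, y a = 0) := by
    intro p
    obtain ⟨x, hx1, hx2, hx3⟩ := hfail p
    have hx0 : 0 < ‖x‖ := by
      rcases (norm_nonneg x).lt_or_eq with h | h
      · exact h
      · exfalso
        have : x = 0 := norm_eq_zero.mp h.symm
        subst this
        simp at hx3
    -- normalised with the right sign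
    obtain ⟨c, hc1, hc2⟩ : ∃ c : ℝ, |c| = ‖x‖⁻¹ ∧ φ (c • x) = |φ x| / ‖x‖ := by
      rcases le_total 0 (φ x) with h | h
      · refine ⟨‖x‖⁻¹, abs_of_pos (by positivity), ?_⟩
        rw [map_smul, smul_eq_mul, abs_of_nonneg h]; field_simp
      · refine ⟨-‖x‖⁻¹, by rw [abs_neg]; exact abs_of_pos (by positivity), ?_⟩
        rw [map_smul, smul_eq_mul, abs_of_nonpos h]; field_simp
    set x' : X := c • x with hx'
    have hn' : ‖x'‖ = 1 := by
      rw [hx', norm_smul, Real.norm_eq_abs, hc1]; field_simp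
    have hφ' : ε < φ x' := by
      rw [hc2, lt_div_iff₀ hx0]; exact hx3
    obtain ⟨b, hb⟩ := tail_small x' (ε := ε / (2 * (‖φ‖ + 1))) (by positivity)
    refine ⟨P {n | n < b} x', b, ?_, ?_, ?_, ?_, ?_⟩
    · exact (norm_P_le _ _).trans hn'.le
    · have h1 : φ x' = φ (P {n | n < b} x') + φ (P {n | b ≤ n} x') := by
        rw [← map_add, head_add_tail]
      have h2 : φ (P {n | b ≤ n} x') ≤ ε / 2 := by
        calc φ (P {n | b ≤ n} x') ≤ ‖φ (P {n | b ≤ n} x')‖ := Real.le_norm_self _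
          _ ≤ ‖φ‖ * ‖P {n | b ≤ n} x'‖ := φ.le_opNorm _
          _ ≤ (‖φ‖ + 1) * (ε / (2 * (‖φ‖ + 1))) := by
              refine mul_le_mul (by linarith) (hb b le_rfl) (norm_nonneg _) (by positivity)
          _ = ε / 2 := by field_simp
      linarith
    · intro n hn
      rw [P_apply]
      split_ifs
      · rw [hx', smul_apply, hx1 n hn, mul_zero]
      · rfl
    · intro n hn
      rw [P_apply]
      split_ifs
      · rw [hx', smul_apply, hx2 n hn, mul_zero]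
      · rfl
    · intro a ha
      rw [P_apply, if_neg]
      simpa using ha
  choose G b hG1 hG2 hG3 hG4 hG5 using hG
  let p : ℕ → ℕ := fun k => Nat.rec 0 (fun _ q => max (q + 1) (b q)) k
  have hp : ∀ k, p (k + 1) = max (p k + 1) (b (p k)) := fun k => rfl
  have hpm : StrictMono p := by
    refine strictMono_nat_of_lt_succ fun k => ?_
    rw [hp]
    exact lt_of_lt_of_le (Nat.lt_succ_self _) (le_max_left _ _)
  refine ⟨fun k => G (p k), fun k => hG1 _, fun k => hG2 _, fun k => hG3 _, ?_,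
    fun k => ⟨b (p k), hG5 _⟩, ?_⟩
  · intro k k' hk a a' ha ha'
    have h1 : a < b (p k) := by
      by_contra hcon
      exact ha (hG5 _ a (not_lt.mp hcon))
    have h2 : b (p k) ≤ p (k + 1) := by rw [hp]; exact le_max_right _ _
    have h3 : p (k + 1) ≤ p k' := hpm.monotone hk
    have h4 : p k' ≤ a' := by
      by_contra hcon
      exact ha' (hG4 _ a' (not_le.mp hcon))
    omega
  · intro k a ha
    have h4 : p k ≤ a := by
      by_contra hcon
      exact ha (hG4 _ a (not_le.mp hcon))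
    exact (hpm.id_le k).trans h4

lemma shrink_even (φ : X →L[ℝ] ℝ) {ε : ℝ} (hε : 0 < ε) :
    ∃ p : ℕ, ∀ x : X, (∀ n, n ∉ Ev → x n = 0) → (∀ n < p, x n = 0) → |φ x| ≤ ε * ‖x‖ := by
  by_contra hcon
  push Not at hcon
  obtain ⟨w, hw1, hw2, hw3, hw4, hw5, hw6⟩ := build_blocks Ev φ hε hcon
  obtain ⟨N, hN⟩ := exists_nat_gt (2 * ‖φ‖ / ε)
  set z : X := ∑ k ∈ range N, w k with hz
  have hz1 : ‖z‖ ≤ 1 := by
    refine even_norm_le z ?_ ?_
    · intro n hn
      rw [hz, sum_apply]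
      refine Finset.sum_eq_zero fun k _ => hw3 k n ?_
      simpa [Ev] using hn
    · intro n
      rw [hz, sum_apply]
      by_cases h : ∃ k ∈ range N, w k n ≠ 0
      · obtain ⟨k, hk, hkn⟩ := h
        rw [Finset.sum_eq_single_of_mem k hk]
        · exact (abs_apply_le _ _).trans (hw1 k)
        · intro k' _ hne
          by_contra hcon'
          exact hne (vsucc_unique hw4 hcon' hkn)
      · push Not at h
        rw [Finset.sum_eq_zero h]; simp
  have h2 : N * (ε / 2) ≤ φ z := by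
    rw [hz, map_sum]
    calc (N : ℝ) * (ε / 2) = ∑ k ∈ range N, ε / 2 := by simp
      _ ≤ _ := Finset.sum_le_sum fun k _ => hw2 k
  have h3 : φ z ≤ ‖φ‖ := by
    calc φ z ≤ ‖φ z‖ := Real.le_norm_self _
      _ ≤ ‖φ‖ * ‖z‖ := φ.le_opNorm _
      _ ≤ ‖φ‖ * 1 := mul_le_mul_of_nonneg_left hz1 (norm_nonneg _)
      _ = ‖φ‖ := mul_one _
  rw [div_lt_iff₀ hε] at hN
  linarith

lemma shrink_odd (φ : X →L[ℝ] ℝ) {ε : ℝ} (hε : 0 < ε) :
    ∃ p : ℕ, ∀ x : X, (∀ n, n ∉ Od → x n = 0) → (∀ n < p, x n = 0) → |φ x| ≤ ε * ‖x‖ := by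
  by_contra hcon
  push Not at hcon
  obtain ⟨w, hw1, hw2, hw3, hw4, hw5, hw6⟩ := build_blocks Od φ hε hcon
  -- averages
  let ZX : ℕ → ℕ → X := fun N K => (1 / (N : ℝ)) • ∑ s ∈ range N, w (K + s)
  let Z : ℕ → ℕ → ℕ → ℝ := fun N K => (ZX N K : ℕ → ℝ)
  have hZle : ∀ N K i f, W i f → pr f (Z N K) ≤ (1 / (N : ℝ)) * ∑ s ∈ range N, pr f (w (K + s)) := by
    intro N K i f hf
    change pr f ((1 / (N : ℝ)) • ∑ s ∈ range N, w (K + s) : X) ≤ _
    rw [coe_smul, pr_smul, coe_sum]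
    rw [abs_of_nonneg (by positivity : (0 : ℝ) ≤ 1 / (N : ℝ))]
    exact mul_le_mul_of_nonneg_left (pr_sum_le hf.nonneg _ _) (by positivity)
  have hZ : AvgFam Z := by
    refine ⟨?_, ?_, ?_, ?_⟩
    · intro N K i f hN hf
      refine (hZle N K i f hf).trans ?_
      have hN0 : (0 : ℝ) < N := by exact_mod_cast hN
      rw [one_div, inv_mul_le_iff₀ hN0, mul_one]
      calc ∑ s ∈ range N, pr f (w (K + s)) ≤ ∑ s ∈ range N, (1 : ℝ) :=
            Finset.sum_le_sum fun s _ => (pr_le_normW _ hf).trans (hw1 _)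
        _ = N := by simp
    · intro N K i f hN hf hi
      refine (hZle N K i f hf).trans ?_
      have hN0 : (0 : ℝ) < N := by exact_mod_cast hN
      have := avg_low (N := N) (u := fun s => (w (K + s) : ℕ → ℝ))
        (fun s s' hs _ a b ha hb => hw4 (K + s) (K + s') (by omega) a b ha hb)
        (fun s _ i f hf => (pr_le_normW _ hf).trans (hw1 _)) hf hi
      calc (1 / (N : ℝ)) * ∑ s ∈ range N, pr f (w (K + s))
          ≤ (1 / (N : ℝ)) * (((nn i : ℝ) + N) / mm i) :=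
            mul_le_mul_of_nonneg_left this (by positivity)
        _ = _ := by ring
    · intro N K
      choose b hb using hw5
      refine ⟨∑ s ∈ range N, b (K + s), fun a ha => ?_⟩
      change ((1 / (N : ℝ)) • ∑ s ∈ range N, w (K + s) : X) a = 0
      rw [smul_apply, sum_apply, Finset.sum_eq_zero, mul_zero]
      intro s hs
      refine hb _ a (le_trans ?_ ha)
      exact Finset.single_le_sum (f := fun s => b (K + s)) (fun _ _ => Nat.zero_le _) hs
    · intro N K a ha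
      by_contra hcon'
      apply ha
      change ((1 / (N : ℝ)) • ∑ s ∈ range N, w (K + s) : X) a = 0
      rw [smul_apply, sum_apply, Finset.sum_eq_zero, mul_zero]
      intro s hs
      by_contra hne
      have := hw6 _ _ hne
      omega
  obtain ⟨N, K, j, hN, hK, -, hR⟩ := hZ.exists_RIS (fun _ => 0)
  have hφz : ∀ l, ε / 2 ≤ φ (ZX (N l) (K l)) := by
    intro l
    change ε / 2 ≤ φ ((1 / (N l : ℝ)) • ∑ s ∈ range (N l), w (K l + s))
    have hN0 : (0 : ℝ) < N l := by exact_mod_cast hN l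
    rw [map_smul, map_sum, smul_eq_mul, one_div, le_inv_mul_iff₀ hN0]
    calc (N l : ℝ) * (ε / 2) = ∑ s ∈ range (N l), ε / 2 := by simp
      _ ≤ _ := Finset.sum_le_sum fun k _ => hw2 _
  obtain ⟨q, hq⟩ := exists_nat_gt (16 * ‖φ‖ / ε)
  set n := nn (q + 1) with hn
  set z : X := ∑ l ∈ range n, ZX (N l) (K l) with hz
  have hz1 : ‖z‖ ≤ 2 * (2 + 2) * (n / mm (q + 1)) := by
    refine norm_le_iffW z fun i f hf => ?_
    rw [hz, coe_sum]
    refine (pr_sum_le hf.nonneg _ _).trans ?_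
    exact hR.sum_le q hf (range n) (by simp [hn])
  have hn0 : (0 : ℝ) < n := by rw [hn]; exact nn_posR _
  have h2 : n * (ε / 2) ≤ φ z := by
    rw [hz, map_sum]
    calc (n : ℝ) * (ε / 2) = ∑ k ∈ range n, ε / 2 := by simp
      _ ≤ _ := Finset.sum_le_sum fun k _ => hφz k
  have h3 : φ z ≤ ‖φ‖ * (2 * (2 + 2) * (n / mm (q + 1))) := by
    calc φ z ≤ ‖φ z‖ := Real.le_norm_self _
      _ ≤ ‖φ‖ * ‖z‖ := φ.le_opNorm _
      _ ≤ _ := mul_le_mul_of_nonneg_left hz1 (norm_nonneg _)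
  have hm0 := mm_posR (q + 1)
  have h4 : (mm (q + 1) : ℝ) * (ε / 2) ≤ 8 * ‖φ‖ := by
    have h5 : (n : ℝ) * (ε / 2) ≤ n * (8 * ‖φ‖ / mm (q + 1)) := by
      calc (n : ℝ) * (ε / 2) ≤ _ := h2.trans h3
        _ = _ := by ring
    have h6 := le_of_mul_le_mul_left h5 hn0
    rw [le_div_iff₀ hm0] at h6
    linarith
  have h7 : (q : ℝ) < mm (q + 1) := by exact_mod_cast (Nat.lt_succ_self q).trans (lt_mm (q + 1))
  rw [div_lt_iff₀ hε] at hq
  nlinarith

/-- The basis is shrinking. -/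
theorem shrinking (φ : X →L[ℝ] ℝ) {ε : ℝ} (hε : 0 < ε) :
    ∃ p : ℕ, ∀ x : X, (∀ n < p, x n = 0) → |φ x| ≤ ε * ‖x‖ := by
  obtain ⟨p, hp⟩ := shrink_even φ (half_pos hε)
  obtain ⟨q, hq⟩ := shrink_odd φ (half_pos hε)
  refine ⟨max p q, fun x hx => ?_⟩
  have hdec : x = P Ev x + P Od x := by
    refine ext' fun n => ?_
    rw [add_apply, P_apply, P_apply]
    rcases Nat.even_or_odd n with h | h
    · have h' : ¬ Odd n := Nat.not_odd_iff_even.mpr h
      simp [Ev, Od, h, h']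
    · have h' : ¬ Even n := Nat.not_even_iff_odd.mpr h
      simp [Ev, Od, h, h']
  have h1 : |φ (P Ev x)| ≤ ε / 2 * ‖P Ev x‖ := by
    refine hp _ ?_ ?_
    · intro n hn; rw [P_apply, if_neg hn]
    · intro n hn
      rw [P_apply, hx n (lt_of_lt_of_le hn (le_max_left _ _))]; simp
  have h2 : |φ (P Od x)| ≤ ε / 2 * ‖P Od x‖ := by
    refine hq _ ?_ ?_
    · intro n hn; rw [P_apply, if_neg hn]
    · intro n hn
      rw [P_apply, hx n (lt_of_lt_of_le hn (le_max_right _ _))]; simp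
  have h3 := norm_P_le Ev x
  have h4 := norm_P_le Od x
  have h5 : |φ x| ≤ |φ (P Ev x)| + |φ (P Od x)| := by
    conv_lhs => rw [hdec]
    rw [map_add]; exact abs_add_le _ _
  nlinarith

/-- Initial segments of images of far out vectors are small. -/
lemma head_small (S : X →L[ℝ] X) (p : ℕ) {ε : ℝ} (hε : 0 < ε) :
    ∃ K : ℕ, ∀ x : X, (∀ n < K, x n = 0) → ∑ n ∈ range p, |S x n| ≤ ε * ‖x‖ := by
  have h : ∀ n, ∃ K : ℕ, ∀ x : X, (∀ k < K, x k = 0) → |S x n| ≤ ε / (p + 1) * ‖x‖ := by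
    intro n
    obtain ⟨K, hK⟩ := shrinking ((coord n).comp S) (ε := ε / (p + 1)) (by positivity)
    exact ⟨K, fun x hx => hK x hx⟩
  choose K hK using h
  refine ⟨∑ n ∈ range p, K n, fun x hx => ?_⟩
  calc ∑ n ∈ range p, |S x n| ≤ ∑ n ∈ range p, ε / (p + 1) * ‖x‖ := by
        refine Finset.sum_le_sum fun n hn => hK n x fun k hk => hx k (lt_of_lt_of_le hk ?_)
        exact Finset.single_le_sum (f := K) (fun _ _ => Nat.zero_le _) hn
    _ = p * (ε / (p + 1) * ‖x‖) := by simp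
    _ ≤ ε * ‖x‖ := by
        have h1 : (p : ℝ) * (ε / (p + 1)) ≤ ε := by
          rw [← mul_div_assoc, div_le_iff₀ (by positivity)]
          nlinarith
        have := mul_le_mul_of_nonneg_right h1 (norm_nonneg x)
        linarith

lemma norm_head_le (x : X) (p : ℕ) : ‖P {n | n < p} x‖ ≤ ∑ n ∈ range p, |x n| := by
  rw [← partial_sum_eq]
  refine (norm_sum_le _ _).trans (Finset.sum_le_sum fun n _ => ?_)
  rw [norm_smul, Real.norm_eq_abs]
  calc |x n| * ‖(bv n : X)‖ ≤ |x n| * 1 := mul_le_mul_of_nonneg_left (norm_bv_le n) (abs_nonneg _)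
    _ = |x n| := mul_one _

end Pool.Agent.P18b69d
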