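import Mathlib
import Pool.Agent.Lib.P18b69d.Shrinking

set_option autoImplicit false
open Filter Topology Finset

namespace Pool.Agent.P18b69d

open Space

/-- Functional block. -/
noncomputable def Hf (g : ℕ → (ℕ →₀ ℚ)) (i a : ℕ) : ℕ →₀ ℚ :=
  (1 / (mm i : ℚ)) • ∑ k ∈ Ico a (a + nn i), g k

/-- Vector block. -/
noncomputable def Yf (y : ℕ → X) (i a : ℕ) : X :=
  ((mm i : ℝ) / nn i) • ∑ k ∈ Ico a (a + nn i), y k

lemma dep_exists (g : ℕ → (ℕ →₀ ℚ)) (y : ℕ → X) (hy : ∀ k, ∃ b, ∀ a ≥ b, y k a = 0) (q : ℕ) :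
    ∃ I A : ℕ → ℕ, StrictMono I ∧ (∀ l, 1 ≤ I l) ∧ (∀ l, Even (I l)) ∧
      (∀ l, (Nat.unpair (I l / 2)).1 = code ((List.range l).map fun s => Hf g (I s) (A s))) ∧
      nn q ^ 2 ≤ mm (I 0) ∧ (∀ l, nn (I l) ≤ A l) ∧ (∀ l, A l + nn (I l) ≤ A (l + 1)) ∧
      (∀ l, ∀ i ≥ I (l + 1), ∀ f, W i f → pr f (Yf y (I l) (A l)) ≤ (1 / 2) ^ l) := by
  have hfin : ∀ i a, ∃ b, ∀ c ≥ b, Yf y i a c = 0 := by
    intro i a
    choose b hb using hy
    refine ⟨∑ k ∈ Ico a (a + nn i), b k, fun c hc => ?_⟩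
    unfold Yf
    rw [smul_apply, sum_apply, Finset.sum_eq_zero, mul_zero]
    intro k hk
    refine hb k c (le_trans ?_ hc)
    exact Finset.single_le_sum (f := b) (fun _ _ => Nat.zero_le _) hk
  choose bb hbb using hfin
  have hhigh : ∀ i a l, ∃ J, ∀ i' ≥ J, ∀ f, W i' f → pr f (Yf y i a) ≤ (1 / 2) ^ l :=
    fun i a l => high_exists _ (bb i a) (hbb i a) l
  choose J hJ using hhigh
  -- state: (prefix, lower bound for the next block, lower bound for the next index)
  let iOf : List (ℕ →₀ ℚ) × ℕ × ℕ → ℕ := fun s => 2 * Nat.pair (code s.1) (s.2.2 + 1)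
  let aOf : List (ℕ →₀ ℚ) × ℕ × ℕ → ℕ := fun s => max s.2.1 (nn (iOf s))
  let step : ℕ → List (ℕ →₀ ℚ) × ℕ × ℕ → List (ℕ →₀ ℚ) × ℕ × ℕ := fun l s =>
    (s.1 ++ [Hf g (iOf s) (aOf s)], aOf s + nn (iOf s), max (iOf s) (J (iOf s) (aOf s) l))
  let st : ℕ → List (ℕ →₀ ℚ) × ℕ × ℕ := fun l => Nat.rec ([], 0, nn q ^ 2) step l
  have hst : ∀ l, st (l + 1) = step l (st l) := fun l => rfl
  have hi_ge : ∀ s, s.2.2 + 1 ≤ iOf s := by
    intro s
    have := Nat.right_le_pair (code s.1) (s.2.2 + 1)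
    simp only [iOf]
    omega
  have hpre : ∀ l, (st l).1 = (List.range l).map fun s => Hf g (iOf (st s)) (aOf (st s)) := by
    intro l
    induction l with
    | zero => rfl
    | succ l ih =>
      rw [hst, List.range_succ, List.map_append]
      simp only [step, List.map_cons, List.map_nil]
      rw [ih]
  refine ⟨fun l => iOf (st l), fun l => aOf (st l), ?_, ?_, ?_, ?_, ?_, ?_, ?_, ?_⟩
  · refine strictMono_nat_of_lt_succ fun l => ?_
    have h1 := hi_ge (st (l + 1))
    have h2 : iOf (st l) ≤ (st (l + 1)).2.2 := by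
      rw [hst]; exact le_max_left _ _
    omega
  · intro l
    have h1 := hi_ge (st l)
    simp only
    omega
  · intro l
    exact even_two_mul _
  · intro l
    rw [← hpre l]
    simp only [iOf]
    rw [Nat.mul_div_cancel_left _ (by norm_num : 0 < 2), Nat.unpair_pair]
  · have h1 := hi_ge (st 0)
    have h2 : (st 0).2.2 = nn q ^ 2 := rfl
    have h3 := lt_mm (iOf (st 0))
    simp only
    omega
  · intro l
    exact le_max_right _ _
  · intro l
    have : (st (l + 1)).2.1 = aOf (st l) + nn (iOf (st l)) := by rw [hst]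
    simp only
    rw [← this]
    exact le_max_left _ _
  · intro l i hi f hf
    refine hJ _ _ l i ?_ f hf
    refine le_trans ?_ hi
    have h1 := hi_ge (st (l + 1))
    have h2 : J (iOf (st l)) (aOf (st l)) l ≤ (st (l + 1)).2.2 := by
      rw [hst]; exact le_max_right _ _
    simp only
    omega

/-- Blocks of vectors and functionals on which an operator is large. -/
structure Cells (S : X →L[ℝ] X) (C ε : ℝ) (y : ℕ → X) (g : ℕ → (ℕ →₀ ℚ)) (j lo hi : ℕ → ℕ) :
    Prop where
  ris : RIS C (fun k => (y k : ℕ → ℝ)) j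
  mem : ∀ k, ∃ i, W i (g k)
  odd : ∀ k a, g k a ≠ 0 → Odd a
  gsup : ∀ k a, g k a ≠ 0 → lo k ≤ a ∧ a < hi k
  ysup : ∀ k a, y k a ≠ 0 → lo k ≤ a ∧ a < hi k
  step : ∀ k k', k < k' → hi k ≤ lo k'
  disj : ∀ k a, g k a ≠ 0 → y k a = 0
  big : ∀ k, ε ≤ pr (g k) (S (y k))
  cross : ∀ k k', k ≠ k' → pr (g k) (S (y k')) ≤ ε / 8 * (1 / 2) ^ k * (1 / 2) ^ k'

section
variable {S : X →L[ℝ] X} {C ε : ℝ} {y : ℕ → X} {g : ℕ → (ℕ →₀ ℚ)} {j lo hi : ℕ → ℕ}

lemma Cells.disj' (hc : Cells S C ε y g j lo hi) (k k' a : ℕ) (h : g k a ≠ 0) : y k' a = 0 := by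
  by_contra hcon
  have h1 := hc.gsup k a h
  have h2 := hc.ysup k' a hcon
  rcases lt_trichotomy k k' with hlt | heq | hgt
  · have := hc.step k k' hlt; omega
  · subst heq; exact hcon (hc.disj k a h)
  · have := hc.step k' k hgt; omega

lemma Hf_apply (g : ℕ → (ℕ →₀ ℚ)) (i a c : ℕ) :
    Hf g i a c = (1 / (mm i : ℚ)) * ∑ s ∈ range (nn i), g (a + s) c := by
  unfold Hf
  rw [Finsupp.smul_apply, smul_eq_mul, Finsupp.finsetSum_apply, Finset.sum_Ico_eq_sum_range]
  simp

lemma pr_Hf (g : ℕ → (ℕ →₀ ℚ)) (i a : ℕ) (x : ℕ → ℝ) :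
    pr (Hf g i a) x = (1 / (mm i : ℝ)) * ∑ k ∈ Ico a (a + nn i), pr (g k) x := by
  unfold Hf
  rw [pr_smul_left, pr_sum_left]; push_cast; rfl

lemma Hf_supp (g : ℕ → (ℕ →₀ ℚ)) (i a c : ℕ) (h : Hf g i a c ≠ 0) :
    ∃ k ∈ Ico a (a + nn i), g k c ≠ 0 := by
  by_contra hcon
  push Not at hcon
  apply h
  rw [Hf_apply, Finset.sum_eq_zero, mul_zero]
  intro s hs
  refine hcon (a + s) ?_
  rw [mem_range] at hs
  simp [hs]

lemma Yf_supp (y : ℕ → X) (i a c : ℕ) (h : Yf y i a c ≠ 0) :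
    ∃ k ∈ Ico a (a + nn i), y k c ≠ 0 := by
  by_contra hcon
  push Not at hcon
  apply h
  unfold Yf
  rw [smul_apply, sum_apply, Finset.sum_eq_zero hcon, mul_zero]

lemma Cells.Hf_mem (hc : Cells S C ε y g j lo hi) {i : ℕ} (hi1 : 1 ≤ i) (he : Even i) (a : ℕ) :
    W i (Hf g i a) := by
  have hmem := hc.mem
  choose ι hι using hmem
  refine W.node i (nn i) (fun s => g (a + s)) (fun s => ι (a + s)) _ hi1 le_rfl
    (fun s _ => hι _) ?_ ?_ ?_ ?_ ?_
  · intro s s' hs _ c hcs d hd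
    have h1 := hc.gsup _ c (Finsupp.mem_support_iff.mp hcs)
    have h2 := hc.gsup _ d (Finsupp.mem_support_iff.mp hd)
    have h3 := hc.step (a + s) (a + s') (by omega)
    omega
  · intro ho
    exact absurd he (Nat.not_even_iff_odd.mpr ho)
  · intro k
    rw [Hf_apply]
    exact mul_nonneg (by positivity) (Finset.sum_nonneg fun s _ => (hι _).nonneg k)
  · intro k
    rw [Hf_apply]
  · intro k hk
    obtain ⟨s, _, hs⟩ := Hf_supp g i a k hk
    exact hc.odd s k hs

lemma pr_Yf_le (y : ℕ → X) (i a : ℕ) {i' : ℕ} {f : ℕ →₀ ℚ} (hf : W i' f) :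
    pr f (Yf y i a) ≤ ((mm i : ℝ) / nn i) * ∑ k ∈ Ico a (a + nn i), pr f (y k) := by
  unfold Yf
  rw [coe_smul, pr_smul, coe_sum, abs_of_nonneg (by positivity)]
  exact mul_le_mul_of_nonneg_left (pr_sum_le hf.nonneg _ _) (by positivity)

lemma Cells.false (hc : Cells S C ε y g j lo hi) (hε : 0 < ε) : False := by
  have hR := hc.ris
  have hC := hR.hC
  set C1 : ℝ := 2 * (C + 2) with hC1
  obtain ⟨t, ht⟩ := exists_nat_gt (4 * ‖S‖ * (C1 + 2) / ε)
  set q := 2 * t + 1 with hq
  have hqo : Odd q := ⟨t, rfl⟩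
  obtain ⟨I, A, hI, hI1, hIe, hcode, hbig, hnA, hAs, hhigh⟩ := dep_exists g y
    (fun k => ⟨hi k, fun a ha => by
      by_contra hcon
      have := (hc.ysup k a hcon).2
      omega⟩) q
  set F : ℕ → Finset ℕ := fun l => Ico (A l) (A l + nn (I l)) with hF
  have hAm : ∀ l l', l < l' → A l + nn (I l) ≤ A l' := by
    intro l l' hl
    have hmono : Monotone A := monotone_nat_of_le_succ fun l => by have := hAs l; omega
    exact (hAs l).trans (hmono hl)
  have hcardF : ∀ l, (F l).card = nn (I l) := by intro l; simp [hF]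
  set Y : ℕ → X := fun l => Yf y (I l) (A l) with hY
  set H : ℕ → (ℕ →₀ ℚ) := fun l => Hf g (I l) (A l) with hH
  have hHmem : ∀ l, W (I l) (H l) := fun l => hc.Hf_mem (hI1 l) (hIe l) _
  have hIs : ∀ l, ∃ i', I l = i' + 1 := fun l => ⟨I l - 1, by have := hI1 l; omega⟩
  -- RIS property of Y
  have hRY : RIS C1 (fun l => (Y l : ℕ → ℝ)) I := by
    refine ⟨by positivity, ?_, hI, ?_, ?_, ?_⟩
    · intro l l' hl a b ha hb
      obtain ⟨k, hk, hka⟩ := Yf_supp y _ _ _ ha
      obtain ⟨k', hk', hkb⟩ := Yf_supp y _ _ _ hb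
      rw [Finset.mem_Ico] at hk hk'
      have h1 := hAm l l' hl
      exact hR.succ k k' (by omega) a b hka hkb
    · intro l i f hf
      refine (pr_Yf_le y _ _ hf).trans ?_
      obtain ⟨i', hi'⟩ := hIs l
      have h1 := hR.sum_le i' hf (F l) (by rw [hcardF, hi'])
      rw [← hi'] at h1
      have hm := mm_posR (I l)
      have hn := nn_posR (I l)
      calc ((mm (I l) : ℝ) / nn (I l)) * ∑ k ∈ F l, pr f (y k)
          ≤ ((mm (I l) : ℝ) / nn (I l)) * (2 * (C + 2) * (nn (I l) / mm (I l))) :=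
            mul_le_mul_of_nonneg_left h1 (by positivity)
        _ = C1 := by rw [hC1]; field_simp
    · intro l i f hf hi1 hil
      refine (pr_Yf_le y _ _ hf).trans ?_
      obtain ⟨i', hi'⟩ := hIs l
      have h1 := hR.sum_le_weight i' hf hi1 (by omega) (F l) (by rw [hcardF, hi'])
      rw [← hi'] at h1
      have hm := mm_posR (I l)
      have hn := nn_posR (I l)
      have hm' := mm_posR i
      calc ((mm (I l) : ℝ) / nn (I l)) * ∑ k ∈ F l, pr f (y k)
          ≤ ((mm (I l) : ℝ) / nn (I l)) * (2 * (C + 2) * (nn (I l) / mm (I l)) / mm i) :=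
            mul_le_mul_of_nonneg_left h1 (by positivity)
        _ = C1 / mm i := by rw [hC1]; field_simp
    · intro l i f hf hil
      exact hhigh l i hil f hf
  have hm2n : ∀ l, ((mm (I l) : ℝ)) ^ 2 ≤ nn (I l) := by
    intro l
    obtain ⟨i', hi'⟩ := hIs l
    rw [hi']
    exact_mod_cast mm_sq_le_nn i'
  have hD : Dep q C1 (fun l => (Y l : ℕ → ℝ)) H I := by
    refine ⟨hRY, fun l _ => hcode l, hbig, ?_, ?_⟩
    · intro l k a ha
      obtain ⟨s, _, hs⟩ := Hf_supp g _ _ _ ha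
      by_contra hcon
      obtain ⟨s', _, hs'⟩ := Yf_supp y _ _ _ hcon
      exact hs' (hc.disj' s s' a hs)
    · intro l i f hf hli
      refine (pr_Yf_le y _ _ hf).trans ?_
      have h1 := hR.trivial_bound hf (by omega) (F l)
      rw [hcardF] at h1
      have hm := mm_posR (I l)
      have hn := nn_posR (I l)
      have hmi : ((mm (I l) : ℝ)) ^ 2 ≤ mm i := by
        have h2 : mm (I l + 1) ≤ mm i := mm_mono hli
        rw [mm_succ] at h2
        exact_mod_cast h2
      have hm' := mm_posR i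
      have hmn := hm2n l
      calc ((mm (I l) : ℝ) / nn (I l)) * ∑ k ∈ F l, pr f (y k)
          ≤ ((mm (I l) : ℝ) / nn (I l)) * ((C + 2) + C * nn (I l) / mm i) :=
            mul_le_mul_of_nonneg_left h1 (by positivity)
        _ = (C + 2) * ((mm (I l) : ℝ) / nn (I l)) + C * (mm (I l) / mm i) := by
            field_simp
        _ ≤ (C + 2) * (1 / mm (I l)) + C * (1 / mm (I l)) := by
            refine add_le_add (mul_le_mul_of_nonneg_left ?_ (by linarith))
              (mul_le_mul_of_nonneg_left ?_ hC)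
            · rw [div_le_div_iff₀ hn hm]; nlinarith
            · rw [div_le_div_iff₀ hm' hm]; nlinarith
        _ ≤ 2 * C1 / mm (I l) := by
            rw [hC1, ← add_mul, mul_one_div]
            exact div_le_div_of_nonneg_right (by linarith) hm.le
  -- upper estimate
  set V : X := ∑ l ∈ range (nn q), Y l with hV
  have hup : ‖V‖ ≤ 2 * (C1 + 2) * (nn q / mm q ^ 2) := by
    refine norm_le_iffW V fun i f hf => ?_
    rw [hV, coe_sum]
    refine (pr_sum_le hf.nonneg _ _).trans ?_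
    exact hD.sum_le hqo hf
  -- the special functional
  set G : ℕ →₀ ℚ := (1 / (mm q : ℚ)) • ∑ l ∈ range (nn q), H l with hG
  have hGapp : ∀ k, G k = (1 / (mm q : ℚ)) * ∑ l ∈ range (nn q), H l k := by
    intro k
    rw [hG, Finsupp.smul_apply, smul_eq_mul, Finsupp.finsetSum_apply]
  have hGW : W q G := by
    refine W.node q (nn q) H I G (by omega) le_rfl (fun l _ => hHmem l) ?_ ?_ ?_ ?_ ?_
    · intro l l' hl _ a ha b hb
      obtain ⟨k, hk, hka⟩ := Hf_supp g _ _ _ (Finsupp.mem_support_iff.mp ha)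
      obtain ⟨k', hk', hkb⟩ := Hf_supp g _ _ _ (Finsupp.mem_support_iff.mp hb)
      rw [Finset.mem_Ico] at hk hk'
      have h1 := hAm l l' hl
      have h2 := hc.step k k' (by omega)
      have h3 := hc.gsup k a hka
      have h4 := hc.gsup k' b hkb
      omega
    · intro _
      refine ⟨fun l _ => hI1 l, fun l _ => hIe l, fun l l' hl _ => hI hl, ?_, fun l _ _ => hcode l⟩
      intro l _
      exact hbig.trans (mm_mono (hI.monotone (Nat.zero_le l)))
    · intro k
      rw [hGapp]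
      exact mul_nonneg (by positivity) (Finset.sum_nonneg fun l _ => (hHmem l).nonneg k)
    · intro k; rw [hGapp]
    · intro k hk
      rw [hGapp] at hk
      have hne : ∑ l ∈ range (nn q), H l k ≠ 0 := right_ne_zero_of_mul hk
      obtain ⟨l, _, hl⟩ := Finset.exists_ne_zero_of_sum_ne_zero hne
      exact (hHmem l).odd (hI1 l) k hl
  -- lower estimate
  have hcl : ∀ l, ∀ k ∈ F l, ((1 : ℝ) / 2) ^ k ≤ mm (I l) / nn (I l) := by
    intro l k hk
    rw [Finset.mem_Ico] at hk
    have h1 : nn (I l) ≤ k := (hnA l).trans hk.1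
    have hn := nn_posR (I l)
    have h2 : ((1 : ℝ) / 2) ^ k ≤ 1 / nn (I l) := by
      rw [one_div_pow]
      refine one_div_le_one_div_of_le hn ?_
      have h3 : nn (I l) < 2 ^ k := lt_of_le_of_lt h1 Nat.lt_two_pow_self
      exact_mod_cast h3.le
    refine h2.trans (div_le_div_of_nonneg_right ?_ hn.le)
    exact_mod_cast mm_pos (I l)
  have hc1 : ∀ l, (mm (I l) : ℝ) / nn (I l) ≤ 1 := by
    intro l
    have hn := nn_posR (I l)
    rw [div_le_one hn]
    have h1 := hm2n l
    have h2 : (1 : ℝ) ≤ mm (I l) := by exact_mod_cast mm_pos (I l)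
    nlinarith
  have hdisjF : ∀ l l' k, k ∈ F l → k ∈ F l' → l = l' := by
    intro l l' k hk hk'
    rw [Finset.mem_Ico] at hk hk'
    rcases lt_trichotomy l l' with h | h | h
    · have := hAm l l' h; omega
    · exact h
    · have := hAm l' l h; omega
  have hSV : S V = ∑ l ∈ range (nn q), ∑ k ∈ F l, ((mm (I l) : ℝ) / nn (I l)) • S (y k) := by
    rw [hV, map_sum]
    refine Finset.sum_congr rfl fun l _ => ?_
    simp only [hY, Yf, map_smul, map_sum, Finset.smul_sum]
    rfl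
  have hlow : ∀ l < nn q, ∀ k ∈ F l,
      (mm (I l) : ℝ) / nn (I l) * (ε / 2) ≤ pr (g k) (S V) := by
    intro l hl k hk
    obtain ⟨ι, hι⟩ := hc.mem k
    set c : ℝ := (mm (I l) : ℝ) / nn (I l) with hcdef
    have hc0 : 0 ≤ c := by rw [hcdef]; positivity
    set R : X := ∑ l' ∈ range (nn q), ∑ k' ∈ (F l').erase k,
      ((mm (I l') : ℝ) / nn (I l')) • S (y k') with hRdef
    have hdec : S V = c • S (y k) + R := by
      rw [hSV, hRdef]
      have h1 : ∀ l' ∈ range (nn q), ∑ k' ∈ F l', ((mm (I l') : ℝ) / nn (I l')) • S (y k') =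
          (if l' = l then c • S (y k) else 0) +
            ∑ k' ∈ (F l').erase k, ((mm (I l') : ℝ) / nn (I l')) • S (y k') := by
        intro l' _
        by_cases h : l' = l
        · subst h
          rw [if_pos rfl]
          exact (Finset.add_sum_erase (F l')
            (fun k' => ((mm (I l') : ℝ) / nn (I l')) • S (y k')) hk).symm
        · rw [if_neg h, zero_add, Finset.erase_eq_of_notMem]
          intro hk'
          exact h (hdisjF l' l k hk' hk)
      rw [Finset.sum_congr rfl h1, Finset.sum_add_distrib, Finset.sum_ite_eq']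
      simp [hl]
    have hRle : pr (g k) R ≤ ε / 4 * (1 / 2) ^ k := by
      rw [hRdef, Space.coe_sum]
      refine (pr_sum_le hι.nonneg _ _).trans ?_
      have h1 : ∀ l' ∈ range (nn q), pr (g k)
          ((∑ k' ∈ (F l').erase k, ((mm (I l') : ℝ) / nn (I l')) • S (y k') : X) : ℕ → ℝ) ≤
          ∑ k' ∈ F l', ε / 8 * (1 / 2) ^ k * (1 / 2) ^ k' := by
        intro l' _
        rw [coe_sum]
        refine (pr_sum_le hι.nonneg _ _).trans ?_
        refine le_trans (Finset.sum_le_sum (g := fun k' => ε / 8 * (1 / 2) ^ k * (1 / 2) ^ k')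
          fun k' hk' => ?_) ?_
        · rw [coe_smul, pr_smul, abs_of_nonneg (by positivity)]
          have hne : k ≠ k' := (Finset.ne_of_mem_erase hk').symm
          have h2 := hc.cross k k' hne
          have h3 := pr_nonneg hι.nonneg (S (y k'))
          calc (mm (I l') : ℝ) / nn (I l') * pr (g k) (S (y k'))
              ≤ 1 * pr (g k) (S (y k')) := mul_le_mul_of_nonneg_right (hc1 l') h3
            _ ≤ _ := by rw [one_mul]; exact h2
        · exact Finset.sum_le_sum_of_subset_of_nonneg (Finset.erase_subset _ _)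
            fun _ _ _ => by positivity
      refine (Finset.sum_le_sum h1).trans ?_
      have h2 : ∑ l' ∈ range (nn q), ∑ k' ∈ F l', ε / 8 * (1 / 2) ^ k * (1 / 2) ^ k' =
          ε / 8 * (1 / 2) ^ k * ∑ k' ∈ (range (nn q)).biUnion F, (1 / 2) ^ k' := by
        rw [Finset.sum_biUnion, Finset.mul_sum]
        · refine Finset.sum_congr rfl fun l' _ => ?_
          rw [Finset.mul_sum]
        · intro a _ b _ hab
          rw [Function.onFun, Finset.disjoint_left]
          intro c hca hcb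
          exact hab (hdisjF a b c hca hcb)
      rw [h2]
      have h3 := sum_half_le ((range (nn q)).biUnion F)
      have h4 : (0 : ℝ) ≤ ε / 8 * (1 / 2) ^ k := by positivity
      nlinarith
    have hRc : pr (g k) R ≤ ε / 4 * c :=
      hRle.trans (mul_le_mul_of_nonneg_left (hcl l k hk) (by positivity))
    have hmain : pr (g k) (c • S (y k) : X) ≤ pr (g k) (S V) + pr (g k) R := by
      have h1 : ((c • S (y k) : X) : ℕ → ℝ) = (S V : ℕ → ℝ) + ((-R : X) : ℕ → ℝ) := by
        rw [hdec]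
        funext a
        simp
      rw [h1]
      refine (pr_add_le hι.nonneg _ _).trans ?_
      have h2 : pr (g k) ((-R : X) : ℕ → ℝ) = pr (g k) R :=
        pr_congr fun a _ => by simp
      rw [h2]
    rw [Space.coe_smul, pr_smul, abs_of_nonneg hc0] at hmain
    have hb := hc.big k
    have : c * ε ≤ c * pr (g k) (S (y k)) := mul_le_mul_of_nonneg_left hb hc0
    nlinarith
  have hmq := mm_posR q
  have hnq := nn_posR q
  have hlow2 : (nn q : ℝ) * (ε / 2) / mm q ≤ pr G (S V) := by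
    have h1 : pr G (S V) = (1 / (mm q : ℝ)) * ∑ l ∈ range (nn q), pr (H l) (S V) := by
      rw [hG, pr_smul_left, pr_sum_left]; push_cast; rfl
    have h2 : ∀ l ∈ range (nn q), ε / 2 ≤ pr (H l) (S V) := by
      intro l hl
      have hm := mm_posR (I l)
      have hn := nn_posR (I l)
      simp only [hH]
      rw [pr_Hf]
      calc ε / 2 = (1 / (mm (I l) : ℝ)) * ∑ k ∈ F l, (mm (I l) : ℝ) / nn (I l) * (ε / 2) := by
            rw [Finset.sum_const, hcardF, nsmul_eq_mul]; field_simp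
        _ ≤ _ := mul_le_mul_of_nonneg_left
            (Finset.sum_le_sum fun k hk => hlow l (mem_range.mp hl) k hk) (by positivity)
    rw [h1]
    calc (nn q : ℝ) * (ε / 2) / mm q = (1 / (mm q : ℝ)) * ∑ l ∈ range (nn q), ε / 2 := by
          rw [Finset.sum_const, card_range, nsmul_eq_mul]; ring
      _ ≤ _ := mul_le_mul_of_nonneg_left (Finset.sum_le_sum h2) (by positivity)
  have hfin : (nn q : ℝ) * (ε / 2) / mm q ≤ ‖S‖ * (2 * (C1 + 2) * (nn q / mm q ^ 2)) := by
    calc (nn q : ℝ) * (ε / 2) / mm q ≤ pr G (S V) := hlow2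
      _ ≤ ‖S V‖ := pr_le_normW _ hGW
      _ ≤ ‖S‖ * ‖V‖ := S.le_opNorm _
      _ ≤ _ := mul_le_mul_of_nonneg_left hup (norm_nonneg _)
  have hfin2 : (mm q : ℝ) * ε ≤ 4 * ‖S‖ * (C1 + 2) := by
    have h1 : (nn q : ℝ) * (ε / 2) / mm q = (nn q / (2 * mm q ^ 2)) * (mm q * ε) := by
      field_simp
    have h2 : ‖S‖ * (2 * (C1 + 2) * (nn q / mm q ^ 2)) =
        (nn q / (2 * mm q ^ 2)) * (4 * ‖S‖ * (C1 + 2)) := by
      field_simp; ring
    rw [h1, h2] at hfin
    exact le_of_mul_le_mul_left hfin (by positivity)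
  rw [div_lt_iff₀ hε] at ht
  have h3 : (t : ℝ) < mm q := by
    have := lt_mm q
    have h4 : t < mm q := by omega
    exact_mod_cast h4
  nlinarith

end

end Pool.Agent.P18b69d
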