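import Mathlib
import Pool.Agent.Lib.P18b69d.OpA

set_option autoImplicit false
open Filter Topology Finset

namespace Pool.Agent.P18b69d

open Space

lemma maxcut_aux (V : Finset ℕ) (c : ℕ → ℕ → ℝ) (hdiag : ∀ n ∈ V, c n n = 0) :
    ∀ a b : ℕ → ℝ, ∃ A ⊆ V, (1 / 4) * ∑ n ∈ V, ∑ i ∈ V, c n i + (1 / 2) * ∑ i ∈ V, (a i + b i) ≤
      ∑ n ∈ V \ A, ∑ i ∈ A, c n i + ∑ i ∈ A, a i + ∑ n ∈ V \ A, b n := by
  classical
  induction V using Finset.induction_on with
  | empty => intro a b; exact ⟨∅, by simp, by simp⟩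
  | insert v V hv ih =>
    intro a b
    have ih' := ih fun n hn => hdiag n (Finset.mem_insert_of_mem hn)
    have hvv := hdiag v (Finset.mem_insert_self v V)
    obtain ⟨A1, hA1, h1⟩ := ih' a (fun n => b n + c n v)
    obtain ⟨A2, hA2, h2⟩ := ih' (fun i => a i + c v i) b
    have hv1 : v ∉ A1 := fun h => hv (hA1 h)
    have hv2 : v ∉ A2 := fun h => hv (hA2 h)
    have e0 : ∑ n ∈ insert v V, ∑ i ∈ insert v V, c n i =
        ∑ n ∈ V, ∑ i ∈ V, c n i + ∑ i ∈ V, c v i + ∑ n ∈ V, c n v := by
      rw [Finset.sum_insert hv, Finset.sum_insert hv, hvv]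
      have : ∀ n ∈ V, ∑ i ∈ insert v V, c n i = c n v + ∑ i ∈ V, c n i := fun n _ =>
        Finset.sum_insert hv
      rw [Finset.sum_congr rfl this, Finset.sum_add_distrib]
      ring
    have e0' : ∑ i ∈ insert v V, (a i + b i) = (a v + b v) + ∑ i ∈ V, (a i + b i) :=
      Finset.sum_insert hv
    by_cases hcase : (1 / 2) * ∑ n ∈ V, c n v + a v ≥ (1 / 2) * ∑ i ∈ V, c v i + b v
    · refine ⟨insert v A1, Finset.insert_subset_insert v hA1, ?_⟩
      have e1 : insert v V \ insert v A1 = V \ A1 := by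
        ext n
        simp only [Finset.mem_sdiff, Finset.mem_insert]
        constructor
        · rintro ⟨h | h, h'⟩
          · exact absurd (Or.inl h) h'
          · exact ⟨h, fun hh => h' (Or.inr hh)⟩
        · rintro ⟨h, h'⟩
          refine ⟨Or.inr h, ?_⟩
          rintro (rfl | hh)
          · exact hv h
          · exact h' hh
      rw [e1, e0, e0', Finset.sum_insert hv1]
      have e2 : ∑ n ∈ V \ A1, ∑ i ∈ insert v A1, c n i =
          ∑ n ∈ V \ A1, c n v + ∑ n ∈ V \ A1, ∑ i ∈ A1, c n i := by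
        rw [← Finset.sum_add_distrib]
        exact Finset.sum_congr rfl fun n _ => Finset.sum_insert hv1
      rw [e2]
      simp only [Finset.sum_add_distrib] at h1 h2 ⊢
      linarith
    · push Not at hcase
      refine ⟨A2, hA2.trans (Finset.subset_insert v V), ?_⟩
      have e1 : insert v V \ A2 = insert v (V \ A2) := by
        rw [Finset.insert_sdiff_of_notMem _ hv2]
      have hvn : v ∉ V \ A2 := fun h => hv (Finset.mem_sdiff.mp h).1
      rw [e1, e0, e0', Finset.sum_insert hvn, Finset.sum_insert hvn]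
      simp only [Finset.sum_add_distrib] at h1 h2 ⊢
      linarith

lemma maxcut (V : Finset ℕ) (c : ℕ → ℕ → ℝ) (hdiag : ∀ n ∈ V, c n n = 0) :
    ∃ A ⊆ V, (1 / 4) * ∑ n ∈ V, ∑ i ∈ V, c n i ≤ ∑ n ∈ V \ A, ∑ i ∈ A, c n i := by
  obtain ⟨A, hA, h⟩ := maxcut_aux V c hdiag 0 0
  exact ⟨A, hA, by simpa using h⟩

/-- Cells used in the gliding hump argument. -/
structure Cell where
  idx : ℕ
  lo : ℕ
  hi : ℕ
  rk : ℕ
  y : X
  g : ℕ →₀ ℚ

lemma pr_le_sum_abs {g : ℕ →₀ ℚ} {i : ℕ} (hg : W i g) {p : ℕ} (hp : ∀ a, g a ≠ 0 → a < p)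
    (x : ℕ → ℝ) : pr g x ≤ ∑ n ∈ range p, |x n| := by
  have hsub : g.support ⊆ range p := by
    intro a ha
    rw [mem_range]; exact hp a (Finsupp.mem_support_iff.mp ha)
  rw [pr_superset hsub]
  refine Finset.sum_le_sum fun n _ => ?_
  have h1 : (g n : ℝ) ≤ 1 := by exact_mod_cast hg.le_one n
  calc (g n : ℝ) * |x n| ≤ 1 * |x n| := mul_le_mul_of_nonneg_right h1 (abs_nonneg _)
    _ = |x n| := one_mul _

/-- **Theorem A**: operators with zero diagonal are small on rapidly increasing sequences. -/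
theorem opA (S : X →L[ℝ] X) (hS : ∀ n, Odd n → S (bv n) n = 0) {C : ℝ} {x : ℕ → X} {j : ℕ → ℕ}
    (hR : RIS C (fun k => (x k : ℕ → ℝ)) j) (hxf : ∀ k, ∃ b, ∀ a ≥ b, x k a = 0) {ε : ℝ}
    (hε : 0 < ε) : ∃ K, ∀ k ≥ K, ‖P Od (S (x k))‖ ≤ ε := by
  classical
  by_contra hcon
  push Not at hcon
  have hC := hR.hC
  have hxC : ∀ k, ‖x k‖ ≤ C := fun k => norm_le_iffW _ fun i f hf => hR.norm k i f hf
  -- supports go to infinity
  have hfar : ∀ p : ℕ, ∃ K, ∀ k ≥ K, ∀ n < p, x k n = 0 := by
    intro p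
    have h1 : ∀ n : ℕ, ∃ K, ∀ k ≥ K, x k n = 0 := by
      intro n
      by_cases h : ∃ k, x k n ≠ 0
      · obtain ⟨k, hk⟩ := h
        refine ⟨k + 1, fun k' hk' => ?_⟩
        by_contra hne
        have := vsucc_unique hR.succ hk hne
        omega
      · push Not at h
        exact ⟨0, fun k _ => h k⟩
    choose K hK using h1
    refine ⟨∑ n ∈ range p, K n, fun k hk n hn => hK n k (le_trans ?_ hk)⟩
    exact Finset.single_le_sum (f := K) (fun _ _ => Nat.zero_le _) (mem_range.mpr hn)
  have htail : ∀ (v : X) (τ : ℝ), ∃ p, 0 < τ → ∀ q ≥ p, ‖P {n | q ≤ n} v‖ ≤ τ := by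
    intro v τ
    by_cases hτ : 0 < τ
    · obtain ⟨p, hp⟩ := tail_small v hτ
      exact ⟨p, fun _ => hp⟩
    · exact ⟨0, fun h => absurd h hτ⟩
  choose pc hpc using htail
  set Pc : Cell → Prop := fun c => (∀ n, |c.y n| ≤ |x c.idx n|) ∧ (∃ i, W i c.g) ∧
    (∀ a, c.g a ≠ 0 → Odd a) ∧ (∀ a, c.g a ≠ 0 → c.lo ≤ a ∧ a < c.hi) ∧
    (∀ a, c.y a ≠ 0 → c.lo ≤ a ∧ a < c.hi) ∧ (∀ a, c.g a ≠ 0 → c.y a = 0) ∧
    ε / 8 ≤ pr c.g (S c.y) with hPc
  set Rc : Cell → Cell → Prop := fun c d => c.rk < d.rk ∧ c.idx < d.idx ∧ c.hi ≤ d.lo ∧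
    pr d.g (S c.y) ≤ ε / 64 * (1 / 4) ^ d.rk ∧ pr c.g (S d.y) ≤ ε / 64 * (1 / 4) ^ d.rk with hRc
  have hex : ∀ s : Finset Cell, (∀ c ∈ s, Pc c) → ∃ d, Pc d ∧ ∀ c ∈ s, Rc c d := by
    intro s hs
    set rk := ∑ c ∈ s, c.rk + 1 with hrk
    set idx0 := ∑ c ∈ s, c.idx + 1 with hidx0
    set τ : ℝ := ε / 64 * (1 / 4) ^ rk with hτ
    have hτ0 : 0 < τ := by positivity
    set lo := ∑ c ∈ s, c.hi + ∑ c ∈ s, pc (S c.y) τ with hlo
    obtain ⟨K1, hK1⟩ := head_small S lo (ε := min τ (ε / 2) / (C + 1)) (by positivity)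
    obtain ⟨K2, hK2⟩ := hfar (max lo K1)
    obtain ⟨k, hk, hkε⟩ := hcon (max idx0 K2)
    have hkidx : idx0 ≤ k := (le_max_left _ _).trans hk
    have hkK2 : K2 ≤ k := (le_max_right _ _).trans hk
    have hx0 : ∀ n < max lo K1, x k n = 0 := hK2 k hkK2
    have hhead : ∀ v : X, (∀ n, |v n| ≤ |x k n|) → ∑ n ∈ range lo, |S v n| ≤ min τ (ε / 2) := by
      intro v hv
      have hv0 : ∀ n < K1, v n = 0 := by
        intro n hn
        have := hv n
        rw [hx0 n (lt_of_lt_of_le hn (le_max_right _ _)), abs_zero] at this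
        exact abs_eq_zero.mp (le_antisymm this (abs_nonneg _))
      have hvC : ‖v‖ ≤ C := (norm_mono hv).trans (hxC k)
      refine (hK1 v hv0).trans ?_
      have hmin : 0 < min τ (ε / 2) := by positivity
      calc min τ (ε / 2) / (C + 1) * ‖v‖ ≤ min τ (ε / 2) / (C + 1) * (C + 1) :=
            mul_le_mul_of_nonneg_left (by linarith) (by positivity)
        _ = min τ (ε / 2) := by field_simp
    -- norming functional
    set z : X := P (Od ∩ {n | lo ≤ n}) (S (x k)) with hz
    have hzn : ε / 2 < ‖z‖ := by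
      have h1 : ‖P Od (S (x k))‖ ≤ ‖P ((Od ∩ {n | lo ≤ n}) ∪ {n | n < lo}) (S (x k))‖ := by
        refine norm_P_mono ?_ _
        intro n hn
        by_cases h : n < lo
        · exact Or.inr h
        · exact Or.inl ⟨hn, not_lt.mp h⟩
      have h2 := P_union_le (Od ∩ {n | lo ≤ n}) {n | n < lo} (S (x k))
      have h3 := norm_head_le (S (x k)) lo
      have h4 := hhead (x k) (fun n => le_rfl)
      have h5 : min τ (ε / 2) ≤ ε / 2 := min_le_right _ _
      linarith
    obtain ⟨i, f, hf, hfz⟩ := exists_prW z hzn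
    obtain ⟨b, hb⟩ := hxf k
    set V : Finset ℕ := f.support ∪ range b with hV
    set u : ℕ → ℝ := fun n => if Odd n ∧ lo ≤ n then (f n : ℝ) * (if 0 ≤ z n then 1 else -1) else 0
      with hu
    have hzapp : ∀ n, z n = if Odd n ∧ lo ≤ n then S (x k) n else 0 := by
      intro n
      rw [hz, P_apply]
      simp [Od]
    have hprz : pr f z = ∑ n ∈ V, u n * S (x k) n := by
      rw [pr_superset (s := V) Finset.subset_union_left]
      refine Finset.sum_congr rfl fun n _ => ?_
      simp only [hu]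
      by_cases hc : Odd n ∧ lo ≤ n
      · rw [if_pos hc]
        have hzn' : z n = S (x k) n := by rw [hzapp, if_pos hc]
        rw [hzn']
        split_ifs with h0
        · rw [abs_of_nonneg h0]; ring
        · rw [abs_of_neg (not_le.mp h0)]; ring
      · rw [if_neg hc, hzapp, if_neg hc]; simp
    have hSx : ∀ n, S (x k) n = ∑ i ∈ V, x k i * (S (bv i)) n := by
      intro n
      have h1 : x k = ∑ i ∈ V, x k i • (bv i : X) := by
        rw [hV]
        conv_lhs => rw [eq_sum_of_finite (x k) b hb]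
        refine Finset.sum_subset Finset.subset_union_right fun a _ ha => ?_
        rw [hb a (by simpa using ha), zero_smul]
      conv_lhs => rw [h1]
      rw [map_sum, sum_apply]
      refine Finset.sum_congr rfl fun a _ => ?_
      rw [map_smul, smul_apply]
    obtain ⟨A, hAV, hA⟩ := maxcut V (fun n i => u n * (x k i * (S (bv i)) n)) (by
      intro n _
      simp only [hu]
      by_cases hc : Odd n ∧ lo ≤ n
      · rw [hS n hc.1]; simp
      · rw [if_neg hc, zero_mul])
    have hsumc : ∑ n ∈ V, ∑ i ∈ V, u n * (x k i * (S (bv i)) n) = pr f z := by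
      rw [hprz]
      refine Finset.sum_congr rfl fun n _ => ?_
      rw [hSx n, Finset.mul_sum]
    rw [hsumc] at hA
    set y : X := P (A : Set ℕ) (x k) with hy
    have hSy : ∀ n, S y n = ∑ i ∈ A, x k i * (S (bv i)) n := by
      intro n
      have h1 : y = ∑ i ∈ A, x k i • (bv i : X) := by
        refine ext' fun a => ?_
        rw [hy, P_apply, sum_apply]
        simp only [smul_apply, bv_apply, mul_ite, mul_one, mul_zero, Finset.sum_ite_eq,
          Finset.mem_coe]
      rw [h1, map_sum, sum_apply]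
      refine Finset.sum_congr rfl fun a _ => ?_
      rw [map_smul, smul_apply]
    set g : ℕ →₀ ℚ := f.filter (fun n => n ∈ V \ A ∧ Odd n ∧ lo ≤ n) with hg
    have hgapp : ∀ n, g n = if n ∈ V \ A ∧ Odd n ∧ lo ≤ n then f n else 0 := fun n =>
      Finsupp.filter_apply _ _ _
    have hgne : ∀ a, g a ≠ 0 → a ∈ V \ A ∧ Odd a ∧ lo ≤ a := by
      intro a ha
      rw [hgapp] at ha
      by_contra hcon'
      rw [if_neg hcon'] at ha
      exact ha rfl
    have hgle : ∀ n, g n ≤ f n := by
      intro n; rw [hgapp]; split_ifs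
      · exact le_rfl
      · exact hf.nonneg n
    have hg0 : ∀ n, 0 ≤ g n := by
      intro n; rw [hgapp]; split_ifs
      · exact hf.nonneg n
      · exact le_rfl
    have hgW : W i g := hf.of_le hg0 hgle
    have hyle : ∀ n, |y n| ≤ |x k n| := fun n => abs_P_le _ _ n
    have hbig : ε / 8 ≤ pr g (S y) := by
      have h1 : ∑ n ∈ V \ A, ∑ i ∈ A, u n * (x k i * (S (bv i)) n) ≤ pr g (S y) := by
        rw [pr_superset (s := V) (by
          intro a ha
          exact (Finset.mem_sdiff.mp (hgne a (Finsupp.mem_support_iff.mp ha)).1).1)]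
        calc ∑ n ∈ V \ A, ∑ i ∈ A, u n * (x k i * (S (bv i)) n)
            = ∑ n ∈ V \ A, u n * S y n := by
              refine Finset.sum_congr rfl fun n _ => ?_
              rw [hSy n, Finset.mul_sum]
          _ ≤ ∑ n ∈ V \ A, (g n : ℝ) * |S y n| := by
              refine Finset.sum_le_sum fun n hn => ?_
              have habs : |u n| ≤ (g n : ℝ) := by
                simp only [hu]
                by_cases hc : Odd n ∧ lo ≤ n
                · have hgn : g n = f n := by rw [hgapp, if_pos ⟨hn, hc⟩]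
                  have h2 : |(f n : ℝ)| = f n := abs_of_nonneg (by exact_mod_cast hf.nonneg n)
                  have h3 : |(if 0 ≤ z n then (1 : ℝ) else -1)| = 1 := by
                    split_ifs <;> simp
                  rw [if_pos hc, abs_mul, h2, h3, mul_one, hgn]
                · rw [if_neg hc, abs_zero]
                  exact_mod_cast hg0 n
              calc u n * S y n ≤ |u n * S y n| := le_abs_self _
                _ = |u n| * |S y n| := abs_mul _ _
                _ ≤ _ := mul_le_mul_of_nonneg_right habs (abs_nonneg _)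
          _ ≤ ∑ n ∈ V, (g n : ℝ) * |S y n| := by
              refine Finset.sum_le_sum_of_subset_of_nonneg Finset.sdiff_subset fun n _ _ => ?_
              exact mul_nonneg (by exact_mod_cast hg0 n) (abs_nonneg _)
      linarith
    refine ⟨⟨k, lo, V.sup id + 1, rk, y, g⟩, ?_, ?_⟩
    · refine ⟨hyle, ⟨i, hgW⟩, fun a ha => (hgne a ha).2.1, ?_, ?_, ?_, hbig⟩
      · intro a ha
        refine ⟨(hgne a ha).2.2, ?_⟩
        have := Finset.le_sup (f := id) (Finset.mem_sdiff.mp (hgne a ha).1).1
        simp only [id] at this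
        exact Nat.lt_succ_of_le this
      · intro a ha
        simp only [hy] at ha
        rw [P_apply] at ha
        have haA : a ∈ (A : Set ℕ) := by
          by_contra hcon'
          rw [if_neg hcon'] at ha
          exact ha rfl
        rw [if_pos haA] at ha
        constructor
        · by_contra hcon'
          exact ha (hx0 a (lt_of_lt_of_le (not_le.mp hcon') (le_max_left _ _)))
        · have := Finset.le_sup (f := id) (hAV (Finset.mem_coe.mp haA))
          simp only [id] at this
          exact Nat.lt_succ_of_le this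
      · intro a ha
        have h1 : a ∉ A := (Finset.mem_sdiff.mp (hgne a ha).1).2
        simp only [hy]
        rw [P_apply, if_neg (by simpa using h1)]
    · intro c hcs
      have hcP := hs c hcs
      refine ⟨?_, ?_, ?_, ?_, ?_⟩
      · have := Finset.single_le_sum (f := fun c : Cell => c.rk) (fun _ _ => Nat.zero_le _) hcs
        simp only at this ⊢
        omega
      · have := Finset.single_le_sum (f := fun c : Cell => c.idx) (fun _ _ => Nat.zero_le _) hcs
        simp only at this ⊢
        omega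
      · have := Finset.single_le_sum (f := fun c : Cell => c.hi) (fun _ _ => Nat.zero_le _) hcs
        simp only at this ⊢
        omega
      · -- later functional on earlier vector
        simp only
        have hlopc : pc (S c.y) τ ≤ lo := by
          have := Finset.single_le_sum (f := fun c : Cell => pc (S c.y) τ)
            (fun _ _ => Nat.zero_le _) hcs
          omega
        have h1 := hpc (S c.y) τ hτ0 lo hlopc
        refine le_trans ?_ h1
        have h2 : pr g (S c.y) = pr g (P {n | lo ≤ n} (S c.y)) := by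
          refine pr_congr fun a ha => ?_
          have h3 := (hgne a (Finsupp.mem_support_iff.mp ha)).2.2
          rw [P_apply, if_pos (by simpa using h3)]
        rw [h2]
        exact pr_le_normW _ hgW
      · -- earlier functional on later vector
        simp only
        obtain ⟨i', hi'⟩ := hcP.2.1
        have h1 : pr c.g (S y) ≤ ∑ n ∈ range lo, |S y n| := by
          refine pr_le_sum_abs hi' (fun a ha => ?_) _
          have h2 := (hcP.2.2.2.1 a ha).2
          have := Finset.single_le_sum (f := fun c : Cell => c.hi) (fun _ _ => Nat.zero_le _) hcs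
          omega
        exact h1.trans ((hhead y hyle).trans (min_le_left _ _))
  obtain ⟨c, hcP, hcR⟩ := exists_seq_of_forall_finset_exists Pc Rc hex
  have hrk : ∀ k, k ≤ (c k).rk := by
    have : StrictMono fun k => (c k).rk :=
      strictMono_nat_of_lt_succ fun k => (hcR k (k + 1) (Nat.lt_succ_self k)).1
    exact fun k => this.id_le k
  have hidx : StrictMono fun k => (c k).idx :=
    strictMono_nat_of_lt_succ fun k => (hcR k (k + 1) (Nat.lt_succ_self k)).2.1
  have hpow : ∀ k k', k < k' → ((1 : ℝ) / 4) ^ (c k').rk ≤ (1 / 2) ^ k * (1 / 2) ^ k' := by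
    intro k k' hk
    calc ((1 : ℝ) / 4) ^ (c k').rk ≤ (1 / 4) ^ k' :=
          pow_le_pow_of_le_one (by norm_num) (by norm_num) (hrk k')
      _ = (1 / 2) ^ k' * (1 / 2) ^ k' := by rw [← mul_pow]; norm_num
      _ ≤ (1 / 2) ^ k * (1 / 2) ^ k' := by
          refine mul_le_mul_of_nonneg_right ?_ (by positivity)
          exact pow_le_pow_of_le_one (by norm_num) (by norm_num) hk.le
  have hcells : Cells S C (ε / 8) (fun k => (c k).y) (fun k => (c k).g) (j ∘ fun k => (c k).idx)
      (fun k => (c k).lo) (fun k => (c k).hi) := by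
    refine ⟨hR.sub hidx fun k a => (hcP k).1 a, fun k => (hcP k).2.1, fun k => (hcP k).2.2.1,
      fun k => (hcP k).2.2.2.1, fun k => (hcP k).2.2.2.2.1, fun k k' hk => (hcR k k' hk).2.2.1,
      fun k => (hcP k).2.2.2.2.2.1, fun k => (hcP k).2.2.2.2.2.2, ?_⟩
    intro k k' hne
    rcases lt_or_gt_of_ne hne with h | h
    · have h1 := (hcR k k' h).2.2.2.2
      have h2 := hpow k k' h
      refine h1.trans ?_
      have h3 : (0 : ℝ) < ε / 64 := by positivity
      have := mul_le_mul_of_nonneg_left h2 h3.le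
      calc ε / 64 * (1 / 4) ^ (c k').rk ≤ ε / 64 * ((1 / 2) ^ k * (1 / 2) ^ k') := this
        _ = ε / 8 / 8 * (1 / 2) ^ k * (1 / 2) ^ k' := by ring
    · have h1 := (hcR k' k h).2.2.2.1
      have h2 := hpow k' k h
      refine h1.trans ?_
      have h3 : (0 : ℝ) < ε / 64 := by positivity
      have := mul_le_mul_of_nonneg_left h2 h3.le
      calc ε / 64 * (1 / 4) ^ (c k).rk ≤ ε / 64 * ((1 / 2) ^ k' * (1 / 2) ^ k) := this
        _ = ε / 8 / 8 * (1 / 2) ^ k * (1 / 2) ^ k' := by ring
  exact hcells.false (by positivity)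

end Pool.Agent.P18b69d
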