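import Mathlib
import Pool.Agent.Lib.P18b69d.OpA2

set_option autoImplicit false
open Filter Topology Finset

namespace Pool.Agent.P18b69d

open Space

/-- Lower estimate coming from the free (even) levels. -/
lemma even_node {i r : ℕ} (hi : 1 ≤ i) (he : Even i) (hr : r ≤ nn i) (F : ℕ → (ℕ →₀ ℚ))
    (hF : ∀ l, ∃ i', W i' (F l)) (hs : Succ r F) (ho : ∀ l k, F l k ≠ 0 → Odd k) (v : X) :
    ∑ l ∈ range r, pr (F l) v ≤ mm i * ‖v‖ := by
  choose ι hι using hF
  set G : ℕ →₀ ℚ := (1 / (mm i : ℚ)) • ∑ l ∈ range r, F l with hG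
  have hGapp : ∀ k, G k = (1 / (mm i : ℚ)) * ∑ l ∈ range r, F l k := by
    intro k
    rw [hG, Finsupp.smul_apply, smul_eq_mul, Finsupp.finsetSum_apply]
  have hGW : W i G := by
    refine W.node i r F ι G hi hr (fun l _ => hι l) hs ?_ ?_ ?_ ?_
    · intro h; exact absurd he (Nat.not_even_iff_odd.mpr h)
    · intro k
      rw [hGapp]
      exact mul_nonneg (by positivity) (Finset.sum_nonneg fun l _ => (hι l).nonneg k)
    · intro k; rw [hGapp]
    · intro k hk
      rw [hGapp] at hk
      have hne : ∑ l ∈ range r, F l k ≠ 0 := right_ne_zero_of_mul hk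
      obtain ⟨l, _, hl⟩ := Finset.exists_ne_zero_of_sum_ne_zero hne
      exact ho l k hl
  have h1 := pr_le_normW v hGW
  rw [hG, pr_smul_left, pr_sum_left] at h1
  push_cast at h1
  rw [one_div, inv_mul_le_iff₀ (mm_posR i)] at h1
  exact h1

lemma sum_blocks {M : Type*} [AddCommMonoid M] (f : ℕ → M) (K m n : ℕ) :
    ∑ g ∈ range n, ∑ k ∈ Ico (K + g * m) (K + (g + 1) * m), f k =
      ∑ k ∈ Ico K (K + n * m), f k := by
  induction n with
  | zero => simp
  | succ n ihn =>
    rw [Finset.sum_range_succ, ihn, Finset.sum_Ico_consecutive]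
    · omega
    · have : n * m ≤ (n + 1) * m := Nat.mul_le_mul_right _ (by omega)
      omega

lemma sum_half_Ico (a b : ℕ) : ∑ k ∈ Ico a b, ((1 : ℝ) / 2) ^ k ≤ 2 * (1 / 2) ^ a := by
  rw [Finset.sum_Ico_eq_sum_range]
  have h := sum_half_le (range (b - a))
  calc ∑ k ∈ range (b - a), ((1 : ℝ) / 2) ^ (a + k)
      = (1 / 2) ^ a * ∑ k ∈ range (b - a), ((1 : ℝ) / 2) ^ k := by
        rw [Finset.mul_sum]
        exact Finset.sum_congr rfl fun k _ => pow_add _ _ _
    _ ≤ (1 / 2) ^ a * 2 := mul_le_mul_of_nonneg_left h (by positivity)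
    _ = _ := by ring

/-- Existence of good averages. -/
lemma exists_average {w : ℕ → X} (hw1 : ∀ k, ‖w k‖ ≤ 1) (hw2 : ∀ k, 1 / 2 < ‖w k‖)
    (hwo : ∀ k n, n ∉ Od → w k n = 0) (hws : VSucc (fun k => (w k : ℕ → ℝ))) {N : ℕ}
    (hN : 1 ≤ N) (K : ℕ) :
    ∃ s K' : ℕ, K ≤ K' ∧ ((2 : ℝ) / N) ^ s ≤ 1 ∧
      (∀ g < N, ‖((2 : ℝ) / N) ^ s • ∑ k ∈ Ico (K' + g * N ^ s) (K' + (g + 1) * N ^ s), w k‖ ≤ 1) ∧
      (N : ℝ) / 2 ≤ ‖∑ g ∈ range N, ((2 : ℝ) / N) ^ s •
        ∑ k ∈ Ico (K' + g * N ^ s) (K' + (g + 1) * N ^ s), w k‖ := by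
  classical
  rcases Nat.eq_or_lt_of_le hN with h1 | h2
  · subst h1
    refine ⟨0, K, le_rfl, by simp, ?_, ?_⟩
    · intro g hg
      have : g = 0 := by omega
      subst this
      simp only [pow_zero, one_smul, mul_one, add_zero, zero_add]
      rw [Nat.Ico_succ_singleton, Finset.sum_singleton]
      exact hw1 K
    · simp only [pow_zero, one_smul, mul_one, Finset.sum_range_one, add_zero, zero_add]
      rw [Nat.Ico_succ_singleton, Finset.sum_singleton]
      push_cast
      exact (hw2 K).le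
  · by_contra hcon
    push Not at hcon
    have hN0 : (0 : ℝ) < N := by exact_mod_cast hN
    have hN2 : (2 : ℝ) ≤ N := by exact_mod_cast h2
    have h2N : (2 : ℝ) / N ≤ 1 := by rw [div_le_one hN0]; exact hN2
    have hpow1 : ∀ s : ℕ, ((2 : ℝ) / N) ^ s ≤ 1 := fun s => pow_le_one₀ (by positivity) h2N
    have hind : ∀ s K', K ≤ K' → ‖((2 : ℝ) / N) ^ s • ∑ k ∈ Ico K' (K' + N ^ s), w k‖ ≤ 1 := by
      intro s
      induction s with
      | zero =>
        intro K' _
        simp only [pow_zero, one_smul]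
        rw [Nat.Ico_succ_singleton, Finset.sum_singleton]
        exact hw1 K'
      | succ s ih =>
        intro K' hK'
        have h3 := hcon s K' hK' (hpow1 s) (fun g _ => by
          have := ih (K' + g * N ^ s) (by omega)
          have e : K' + (g + 1) * N ^ s = K' + g * N ^ s + N ^ s := by ring
          rw [e]; exact this)
        have h4 : ∑ g ∈ range N, ((2 : ℝ) / N) ^ s •
            ∑ k ∈ Ico (K' + g * N ^ s) (K' + (g + 1) * N ^ s), w k =
            ((2 : ℝ) / N) ^ s • ∑ k ∈ Ico K' (K' + N ^ (s + 1)), w k := by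
          rw [← Finset.smul_sum]
          congr 1
          rw [sum_blocks w K' (N ^ s) N]
          congr 3
          ring
        rw [h4] at h3
        have h6 : ((2 : ℝ) / N) ^ (s + 1) • ∑ k ∈ Ico K' (K' + N ^ (s + 1)), w k =
            ((2 : ℝ) / N) • (((2 : ℝ) / N) ^ s • ∑ k ∈ Ico K' (K' + N ^ (s + 1)), w k) := by
          rw [smul_smul]; congr 1; ring
        rw [h6, norm_smul, Real.norm_of_nonneg (by positivity)]
        calc (2 : ℝ) / N * _ ≤ 2 / N * (N / 2) := mul_le_mul_of_nonneg_left h3.le (by positivity)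
          _ = 1 := by field_simp
    -- lower estimate
    set i := 2 * (N + 1) with hi
    set s := ex i + 2 with hs
    have hNs : N ^ s ≤ nn i := by
      have e1 : i = (2 * N + 1) + 1 := by omega
      have e2 : N ≤ 2 * nn (2 * N + 1) := by
        have h5 := two_pow_le_nn (2 * N + 1)
        have h6 : 2 * N + 1 < 2 ^ (2 * N + 1) := Nat.lt_two_pow_self
        omega
      rw [e1, nn_succ, ← e1]
      calc N ^ s ≤ (2 * nn (2 * N + 1)) ^ s := Nat.pow_le_pow_left e2 s
        _ ≤ (2 * nn (2 * N + 1)) ^ (2 * ex i + 2) := by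
            refine Nat.pow_le_pow_right ?_ (by omega)
            have := nn_pos (2 * N + 1)
            omega
        _ = (2 * nn (2 * N + 1)) ^ (2 * ex i + 2) * 1 := (mul_one _).symm
        _ ≤ _ := Nat.mul_le_mul_left _ (Nat.one_le_pow _ _ (mm_pos i))
    have hfk : ∀ k, ∃ f, (∃ i', W i' f) ∧ 1 / 2 < pr f (w k) ∧ ∀ n, f n ≠ 0 → w k n ≠ 0 := by
      intro k
      obtain ⟨i', f, hf, hfk⟩ := exists_prW (w k) (hw2 k)
      set g : ℕ →₀ ℚ := f.filter (fun n => w k n ≠ 0) with hg
      have hgapp : ∀ n, g n = if w k n ≠ 0 then f n else 0 := fun n => Finsupp.filter_apply _ _ _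
      refine ⟨g, ⟨i', hf.of_le ?_ ?_⟩, ?_, ?_⟩
      · intro n; rw [hgapp]; split_ifs
        · exact hf.nonneg n
        · exact le_rfl
      · intro n; rw [hgapp]; split_ifs
        · exact le_rfl
        · exact hf.nonneg n
      · have : pr g (w k) = pr f (w k) := by
          rw [pr_superset (f := g) (s := f.support) (by
            intro a ha
            rw [Finsupp.mem_support_iff] at ha ⊢
            intro h0
            apply ha
            rw [hgapp, h0]; simp)]
          unfold pr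
          refine Finset.sum_congr rfl fun n _ => ?_
          rw [hgapp]
          by_cases h0 : w k n = 0
          · simp [h0]
          · rw [if_pos h0]
        rw [this]; exact hfk
      · intro n hn
        rw [hgapp] at hn
        by_contra h0
        rw [if_neg (by simpa using h0)] at hn
        exact hn rfl
    choose f hfW hf2 hfs using hfk
    set v : X := ∑ k ∈ Ico K (K + N ^ s), w k with hv
    have hpr : ∀ l ∈ range (N ^ s), pr (f (K + l)) v = pr (f (K + l)) (w (K + l)) := by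
      intro l hl
      refine pr_congr fun a ha => ?_
      have ha' := hfs _ a (Finsupp.mem_support_iff.mp ha)
      rw [hv, sum_apply, Finset.sum_eq_single_of_mem (K + l)]
      · rw [mem_range] at hl
        rw [Finset.mem_Ico]; omega
      · intro k _ hne
        by_contra hcon'
        exact hne (vsucc_unique hws hcon' ha')
    have hlow := even_node (i := i) (r := N ^ s) (by omega) ⟨N + 1, by omega⟩ hNs
      (fun l => f (K + l)) (fun l => hfW _)
      (by
        intro l l' hl _ a ha b hb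
        exact hws (K + l) (K + l') (by omega) a b (hfs _ a (Finsupp.mem_support_iff.mp ha))
          (hfs _ b (Finsupp.mem_support_iff.mp hb)))
      (by
        intro l k hk
        have h5 := hfs _ k hk
        by_contra hcon'
        exact h5 (hwo _ k hcon')) v
    rw [Finset.sum_congr rfl hpr] at hlow
    have hlow2 : (N : ℝ) ^ s * (1 / 2) ≤ mm i * ‖v‖ := by
      refine le_trans ?_ hlow
      calc (N : ℝ) ^ s * (1 / 2) = ∑ l ∈ range (N ^ s), (1 : ℝ) / 2 := by
            rw [Finset.sum_const, card_range, nsmul_eq_mul]; push_cast; rfl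
        _ ≤ _ := Finset.sum_le_sum fun l _ => (hf2 _).le
    have hupv := hind s K le_rfl
    rw [norm_smul, Real.norm_of_nonneg (by positivity), div_pow] at hupv
    have hNsp : (0 : ℝ) < (N : ℝ) ^ s := by positivity
    have h2s : (2 : ℝ) ^ s = 4 * mm i := by
      rw [hs, pow_add, ← mm_cast]; ring
    rw [h2s, div_mul_eq_mul_div, div_le_one hNsp] at hupv
    have hm := mm_posR i
    nlinarith [norm_nonneg v]

/-- Cells for Theorem B. -/
structure BCell where
  lo : ℕ
  hi : ℕ
  rk : ℕ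
  w : X

/-- **Theorem B** (for one operator): operators with large diagonal are bounded below, modulo
initial coordinates, far out on the odd part. -/
theorem opB (R D : X →L[ℝ] X) (hR0 : ∀ n, Odd n → R (bv n) n = 0) (d : ℕ → ℝ)
    (hD : ∀ (x : X) n, D x n = d n * x n) {δ : ℝ} (hδ : 0 < δ) (hd : ∀ n, δ ≤ |d n|) :
    ∃ (p : ℕ) (c : ℝ), 0 < c ∧ ∀ p' ≥ p, ∀ v : X, (∀ n, n ∉ Od → v n = 0) → (∀ n < p', v n = 0) →
      c * ‖v‖ ≤ ‖P (Od ∩ {n | p' ≤ n}) (D v + R v)‖ := by
  classical
  by_contra hcon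
  push Not at hcon
  set T : X →L[ℝ] X := D + R with hT
  set Pc : BCell → Prop := fun c => (∀ n, n ∉ Od → c.w n = 0) ∧
    (∀ n, c.w n ≠ 0 → c.lo ≤ n ∧ n < c.hi) ∧ 1 / 2 < ‖c.w‖ ∧ ‖c.w‖ ≤ 1 ∧
    ‖P (Od ∩ {n | c.lo ≤ n}) (T c.w)‖ ≤ (1 / 2) ^ c.rk ∧ c.rk ≤ c.lo with hPc
  set Rc : BCell → BCell → Prop := fun c e => c.rk < e.rk ∧ c.hi ≤ e.lo ∧
    ∑ n ∈ range c.hi, |R e.w n| ≤ (1 / 2) ^ e.rk with hRc
  have hex : ∀ s : Finset BCell, (∀ c ∈ s, Pc c) → ∃ e, Pc e ∧ ∀ c ∈ s, Rc c e := by
    intro s _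
    set rk := ∑ c ∈ s, c.rk + 1 with hrk
    set h := ∑ c ∈ s, c.hi with hh
    obtain ⟨K, hK⟩ := head_small R h (ε := (1 / 2) ^ rk) (by positivity)
    obtain ⟨p', hp', v, hvo, hvp, hv⟩ := hcon (max (max h K) rk) ((1 / 2) ^ rk / 2) (by positivity)
    have hh' : h ≤ p' := ((le_max_left _ _).trans (le_max_left _ _)).trans hp'
    have hK' : K ≤ p' := ((le_max_right _ _).trans (le_max_left _ _)).trans hp'
    have hrk' : rk ≤ p' := (le_max_right _ _).trans hp'
    have hv0 : 0 < ‖v‖ := by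
      rcases (norm_nonneg v).lt_or_eq with h0 | h0
      · exact h0
      · exfalso
        rw [← h0, mul_zero] at hv
        exact absurd hv (not_lt.mpr (norm_nonneg _))
    set v' : X := ‖v‖⁻¹ • v with hv'
    have hv'n : ‖v'‖ = 1 := by
      rw [hv', norm_smul, Real.norm_of_nonneg (by positivity)]; field_simp
    have hTv' : ‖P (Od ∩ {n | p' ≤ n}) (T v')‖ ≤ (1 / 2) ^ rk / 2 := by
      have h1 : P (Od ∩ {n | p' ≤ n}) (T v') = ‖v‖⁻¹ • P (Od ∩ {n | p' ≤ n}) (D v + R v) := by
        rw [hv', map_smul, map_smul]; rfl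
      rw [h1, norm_smul, Real.norm_of_nonneg (by positivity), inv_mul_le_iff₀ hv0]
      linarith
    obtain ⟨b, hb⟩ := tail_small v' (ε := min (1 / 4) ((1 / 2) ^ rk / 2 / (‖T‖ + 1)))
      (by positivity)
    have hb0 := hb b le_rfl
    set w : X := P {n | n < b} v' with hw
    have hdec : v' = w + P {n | b ≤ n} v' := (head_add_tail v' b).symm
    have hwv : ∀ n, v' n = 0 → w n = 0 := by
      intro n hn
      rw [hw, P_apply, hn]; simp
    have hvv : ∀ n, v n = 0 → v' n = 0 := by
      intro n hn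
      rw [hv', smul_apply, hn, mul_zero]
    have hw1 : ‖w‖ ≤ 1 := (norm_P_le _ _).trans hv'n.le
    have hw2 : 1 / 2 < ‖w‖ := by
      have h1 : ‖v'‖ ≤ ‖w‖ + ‖P {n | b ≤ n} v'‖ := by
        conv_lhs => rw [hdec]
        exact norm_add_le _ _
      have h2 : ‖P {n | b ≤ n} v'‖ ≤ 1 / 4 := hb0.trans (min_le_left _ _)
      linarith
    have hwT : ‖P (Od ∩ {n | p' ≤ n}) (T w)‖ ≤ (1 / 2) ^ rk := by
      have h1 : w = v' - P {n | b ≤ n} v' := by
        rw [eq_sub_iff_add_eq]; exact hdec.symm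
      have h2 : P (Od ∩ {n | p' ≤ n}) (T w) = P (Od ∩ {n | p' ≤ n}) (T v') -
          P (Od ∩ {n | p' ≤ n}) (T (P {n | b ≤ n} v')) := by
        conv_lhs => rw [h1]
        rw [map_sub, map_sub]
      have h3 : ‖P (Od ∩ {n | p' ≤ n}) (T (P {n | b ≤ n} v'))‖ ≤ (1 / 2) ^ rk / 2 := by
        calc _ ≤ ‖T (P {n | b ≤ n} v')‖ := norm_P_le _ _
          _ ≤ ‖T‖ * ‖P {n | b ≤ n} v'‖ := T.le_opNorm _
          _ ≤ (‖T‖ + 1) * ((1 / 2) ^ rk / 2 / (‖T‖ + 1)) := by
              refine mul_le_mul (by linarith) (hb0.trans (min_le_right _ _)) (norm_nonneg _)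
                (by positivity)
          _ = (1 / 2) ^ rk / 2 := by field_simp
      rw [h2]
      exact (norm_sub_le _ _).trans (by linarith)
    refine ⟨⟨p', b, rk, w⟩, ⟨?_, ?_, hw2, hw1, hwT, hrk'⟩, ?_⟩
    · intro n hn
      exact hwv n (hvv n (hvo n hn))
    · intro n hn
      refine ⟨?_, ?_⟩
      · by_contra hlt
        exact hn (hwv n (hvv n (hvp n (not_le.mp hlt))))
      · by_contra hlt
        apply hn
        simp only [hw]
        rw [P_apply, if_neg]
        simpa using hlt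
    · intro c hc
      have e1 := Finset.single_le_sum (f := fun c : BCell => c.rk) (fun _ _ => Nat.zero_le _) hc
      have e2 := Finset.single_le_sum (f := fun c : BCell => c.hi) (fun _ _ => Nat.zero_le _) hc
      refine ⟨?_, ?_, ?_⟩
      · simp only at e1 ⊢; omega
      · simp only at e2 ⊢; omega
      · simp only at e2 ⊢
        have h1 : ∑ n ∈ range c.hi, |R w n| ≤ ∑ n ∈ range h, |R w n| := by
          refine Finset.sum_le_sum_of_subset_of_nonneg ?_ fun _ _ _ => abs_nonneg _
          exact Finset.range_mono e2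
        refine h1.trans ((hK w fun n hn => hwv n (hvv n (hvp n (lt_of_lt_of_le hn hK')))).trans ?_)
        have : (0 : ℝ) ≤ (1 / 2) ^ rk := by positivity
        nlinarith
  obtain ⟨c, hcP, hcR⟩ := exists_seq_of_forall_finset_exists Pc Rc hex
  have hrk : ∀ k, k ≤ (c k).rk := by
    have : StrictMono fun k => (c k).rk :=
      strictMono_nat_of_lt_succ fun k => (hcR k (k + 1) (Nat.lt_succ_self k)).1
    exact fun k => this.id_le k
  set w : ℕ → X := fun k => (c k).w with hw
  have hwo : ∀ k n, n ∉ Od → w k n = 0 := fun k => (hcP k).1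
  have hws : VSucc (fun k => (w k : ℕ → ℝ)) := by
    intro k k' hk a b ha hb
    have h1 := ((hcP k).2.1 a ha).2
    have h2 := ((hcP k').2.1 b hb).1
    have h3 := (hcR k k' hk).2.1
    omega
  have hw1 : ∀ k, ‖w k‖ ≤ 1 := fun k => (hcP k).2.2.2.1
  have hw2 : ∀ k, 1 / 2 < ‖w k‖ := fun k => (hcP k).2.2.1
  have hwk : ∀ k a, w k a ≠ 0 → k ≤ a := by
    intro k a ha
    have h1 := ((hcP k).2.1 a ha).1
    have h2 := (hcP k).2.2.2.2.2
    have h3 := hrk k
    omega
  set Ω : Set ℕ := {a | Odd a ∧ ∃ k, (c k).lo ≤ a ∧ a < (c k).hi} with hΩ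
  have hΩT : ∀ k, ‖P Ω (T (w k))‖ ≤ 2 * (1 / 2) ^ k := by
    intro k
    have hk1 : ‖P (Od ∩ {n | (c k).lo ≤ n}) (T (w k))‖ ≤ (1 / 2) ^ (c k).rk := (hcP k).2.2.2.2.1
    have hk2 : ((1 : ℝ) / 2) ^ (c k).rk ≤ (1 / 2) ^ k :=
      pow_le_pow_of_le_one (by norm_num) (by norm_num) (hrk k)
    cases k with
    | zero =>
      have hsub : Ω ⊆ Od ∩ {n | (c 0).lo ≤ n} := by
        rintro a ⟨ha, k, h1, h2⟩
        refine ⟨ha, ?_⟩
        rcases Nat.eq_zero_or_pos k with h | h
        · subst h; exact h1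
        · have := (hcR 0 k h).2.1
          have h3 : (c 0).lo ≤ (c 0).hi := by
            have hne : w 0 ≠ 0 := by
              intro h0
              have := hw2 0
              rw [h0, norm_zero] at this
              norm_num at this
            obtain ⟨b, hb⟩ : ∃ b, w 0 b ≠ 0 := by
              by_contra hall
              push Not at hall
              exact hne (ext' hall)
            have := (hcP 0).2.1 b hb
            omega
          change (c 0).lo ≤ a
          omega
      have := norm_P_mono hsub (T (w 0))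
      have h5 : (0 : ℝ) ≤ (1 / 2) ^ 0 := by positivity
      linarith
    | succ k =>
      have hsub : Ω ⊆ (Od ∩ {n | (c (k + 1)).lo ≤ n}) ∪ (Ω ∩ {n | n < (c k).hi}) := by
        rintro a ⟨ha, k', h1, h2⟩
        rcases lt_or_ge k' (k + 1) with h | h
        · refine Or.inr ⟨⟨ha, k', h1, h2⟩, ?_⟩
          change a < (c k).hi
          rcases Nat.eq_or_lt_of_le (Nat.lt_succ_iff.mp h) with h3 | h3
          · subst h3; exact h2
          · have h4 := (hcR k' k h3).2.1
            have h5 : (c k).lo ≤ (c k).hi := by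
              have hne : w k ≠ 0 := by
                intro h0
                have := hw2 k
                rw [h0, norm_zero] at this
                norm_num at this
              obtain ⟨b, hb⟩ : ∃ b, w k b ≠ 0 := by
                by_contra hall
                push Not at hall
                exact hne (ext' hall)
              have := (hcP k).2.1 b hb
              omega
            omega
        · refine Or.inl ⟨ha, ?_⟩
          change (c (k + 1)).lo ≤ a
          rcases Nat.eq_or_lt_of_le h with h3 | h3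
          · rw [← h3] at h1; exact h1
          · have h4 := (hcR (k + 1) k' h3).2.1
            have h5 : (c (k + 1)).lo ≤ (c (k + 1)).hi := by
              have hne : w (k + 1) ≠ 0 := by
                intro h0
                have := hw2 (k + 1)
                rw [h0, norm_zero] at this
                norm_num at this
              obtain ⟨b, hb⟩ : ∃ b, w (k + 1) b ≠ 0 := by
                by_contra hall
                push Not at hall
                exact hne (ext' hall)
              have := (hcP (k + 1)).2.1 b hb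
              omega
            omega
      have h1 := norm_P_mono hsub (T (w (k + 1)))
      have h2 := P_union_le (Od ∩ {n | (c (k + 1)).lo ≤ n}) (Ω ∩ {n | n < (c k).hi})
        (T (w (k + 1)))
      have h3 : ‖P (Ω ∩ {n | n < (c k).hi}) (T (w (k + 1)))‖ ≤
          ∑ n ∈ range (c k).hi, |R (w (k + 1)) n| := by
        have e1 : P (Ω ∩ {n | n < (c k).hi}) (T (w (k + 1))) =
            P (Ω ∩ {n | n < (c k).hi}) (R (w (k + 1))) := by
          refine ext' fun n => ?_
          rw [P_apply, P_apply]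
          split_ifs with hn
          · have h0 : w (k + 1) n = 0 := by
              by_contra hne
              have h4 := ((hcP (k + 1)).2.1 n hne).1
              have h5 := (hcR k (k + 1) (Nat.lt_succ_self k)).2.1
              have h6 : n < (c k).hi := hn.2
              omega
            rw [hT, _root_.add_apply, add_apply, hD, h0]; simp
          · rfl
        rw [e1]
        exact (norm_P_mono Set.inter_subset_right _).trans (norm_head_le _ _)
      have h4 : ∑ n ∈ range (c k).hi, |R (w (k + 1)) n| ≤ (1 / 2) ^ (c (k + 1)).rk :=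
        (hcR k (k + 1) (Nat.lt_succ_self k)).2.2
      linarith
  -- averages
  have hav : ∀ N K : ℕ, ∃ s K' : ℕ, 1 ≤ N → (K ≤ K' ∧ ((2 : ℝ) / N) ^ s ≤ 1 ∧
      (∀ g < N, ‖((2 : ℝ) / N) ^ s • ∑ k ∈ Ico (K' + g * N ^ s) (K' + (g + 1) * N ^ s), w k‖ ≤ 1) ∧
      (N : ℝ) / 2 ≤ ‖∑ g ∈ range N, ((2 : ℝ) / N) ^ s •
        ∑ k ∈ Ico (K' + g * N ^ s) (K' + (g + 1) * N ^ s), w k‖) := by
    intro N K
    by_cases hN : 1 ≤ N
    · obtain ⟨s, K', h⟩ := exists_average hw1 hw2 hwo hws hN K
      exact ⟨s, K', fun _ => h⟩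
    · exact ⟨0, 0, fun h => absurd h hN⟩
  choose sE KE hE using hav
  let u : ℕ → ℕ → ℕ → X := fun N K g => ((2 : ℝ) / N) ^ (sE N K) •
    ∑ k ∈ Ico (KE N K + g * N ^ (sE N K)) (KE N K + (g + 1) * N ^ (sE N K)), w k
  let ZX : ℕ → ℕ → X := fun N K => if 1 ≤ N then (1 / (N : ℝ)) • ∑ g ∈ range N, u N K g else 0
  have hZX : ∀ N K, 1 ≤ N → ZX N K = (1 / (N : ℝ)) • ∑ g ∈ range N, u N K g := by
    intro N K hN
    simp only [ZX]; rw [if_pos hN]
  have hu_supp : ∀ N K g a, 1 ≤ N → u N K g a ≠ 0 →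
      ∃ k, KE N K + g * N ^ (sE N K) ≤ k ∧ k < KE N K + (g + 1) * N ^ (sE N K) ∧ w k a ≠ 0 := by
    intro N K g a _ h
    by_contra hall
    push Not at hall
    apply h
    change (((2 : ℝ) / N) ^ (sE N K) • ∑ k ∈ Ico (KE N K + g * N ^ (sE N K))
      (KE N K + (g + 1) * N ^ (sE N K)), w k : X) a = 0
    rw [smul_apply, sum_apply, Finset.sum_eq_zero, mul_zero]
    intro k hk
    rw [Finset.mem_Ico] at hk
    exact hall k hk.1 hk.2
  have hZ_supp : ∀ N K a, ZX N K a ≠ 0 → 1 ≤ N ∧ ∃ k ≥ K, w k a ≠ 0 ∧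
      k < KE N K + N * N ^ (sE N K) := by
    intro N K a h
    by_cases hN : 1 ≤ N
    · refine ⟨hN, ?_⟩
      by_contra hall
      push Not at hall
      apply h
      rw [hZX N K hN, smul_apply, sum_apply, Finset.sum_eq_zero, mul_zero]
      intro g hg
      by_contra hne
      obtain ⟨k, h1, h2, h3⟩ := hu_supp N K g a hN hne
      have h4 := hall k ((hE N K hN).1.trans (by omega)) h3
      have h5 : (g + 1) * N ^ (sE N K) ≤ N * N ^ (sE N K) :=
        Nat.mul_le_mul_right _ (by rw [mem_range] at hg; omega)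
      omega
    · exfalso
      apply h
      simp only [ZX]
      rw [if_neg hN]; rfl
  have hZ : AvgFam (fun N K => (ZX N K : ℕ → ℝ)) := by
    refine ⟨?_, ?_, ?_, ?_⟩
    · intro N K i f hN hf
      refine (pr_le_normW _ hf).trans ?_
      have hN0 : (0 : ℝ) < N := by exact_mod_cast hN
      rw [hZX N K hN, norm_smul, Real.norm_of_nonneg (by positivity), one_div,
        inv_mul_le_iff₀ hN0, mul_one]
      calc ‖∑ g ∈ range N, u N K g‖ ≤ ∑ g ∈ range N, ‖u N K g‖ := norm_sum_le _ _
        _ ≤ ∑ g ∈ range N, (1 : ℝ) :=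
            Finset.sum_le_sum fun g hg => (hE N K hN).2.2.1 g (mem_range.mp hg)
        _ = N := by simp
    · intro N K i f hN hf hi
      have hN0 : (0 : ℝ) < N := by exact_mod_cast hN
      have h1 : pr f (ZX N K) ≤ (1 / (N : ℝ)) * ∑ g ∈ range N, pr f (u N K g) := by
        rw [hZX N K hN, Space.coe_smul, pr_smul, Space.coe_sum,
          abs_of_nonneg (by positivity : (0 : ℝ) ≤ 1 / (N : ℝ))]
        exact mul_le_mul_of_nonneg_left (pr_sum_le hf.nonneg _ _) (by positivity)
      have h2 := avg_low (N := N) (u := fun g => (u N K g : ℕ → ℝ))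
        (by
          intro g g' hg _ a b ha hb
          obtain ⟨k, _, h4, h5⟩ := hu_supp N K g a hN ha
          obtain ⟨k', h3', _, h5'⟩ := hu_supp N K g' b hN hb
          have h6 : (g + 1) * N ^ (sE N K) ≤ g' * N ^ (sE N K) :=
            Nat.mul_le_mul_right _ hg
          exact hws k k' (by omega) a b h5 h5')
        (fun g hg i f hf => (pr_le_normW _ hf).trans ((hE N K hN).2.2.1 g hg)) hf hi
      refine h1.trans ?_
      calc (1 / (N : ℝ)) * ∑ g ∈ range N, pr f (u N K g)
          ≤ (1 / (N : ℝ)) * (((nn i : ℝ) + N) / mm i) :=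
            mul_le_mul_of_nonneg_left h2 (by positivity)
        _ = _ := by ring
    · intro N K
      refine ⟨∑ k ∈ range (KE N K + N * N ^ (sE N K)), (c k).hi, fun a ha => ?_⟩
      by_contra hne
      obtain ⟨_, k, _, h2, h3⟩ := hZ_supp N K a hne
      have h4 := ((hcP k).2.1 a h2).2
      have h5 := Finset.single_le_sum (f := fun k => (c k).hi) (fun _ _ => Nat.zero_le _)
        (mem_range.mpr h3)
      omega
    · intro N K a ha
      obtain ⟨_, k, h1, h2, _⟩ := hZ_supp N K a ha
      have := hwk k a h2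
      omega
  obtain ⟨N, K, j, hN, hKm, -, hRis⟩ := hZ.exists_RIS (fun _ => 0)
  obtain ⟨l1, hl1⟩ := opA R hR0 hRis (by
    intro k
    exact hZ.fin _ _) (ε := δ / 8) (by positivity)
  obtain ⟨l2, hl2⟩ := exists_pow_lt_of_lt_one (show (0 : ℝ) < δ / 32 by positivity)
    (show ((1 : ℝ) / 2) < 1 by norm_num)
  set l := max l1 l2 with hl
  set z : X := ZX (N l) (K l) with hz
  have hNl := hN l
  have hNl0 : (0 : ℝ) < N l := by exact_mod_cast hNl
  have hzlow : 1 / 2 ≤ ‖z‖ := by
    rw [hz, hZX _ _ hNl, norm_smul, Real.norm_of_nonneg (by positivity), one_div (N l : ℝ),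
      le_inv_mul_iff₀ hNl0]
    have := (hE (N l) (K l) hNl).2.2.2
    linarith
  have hzΩ : P Ω (D z) = D z := by
    refine P_eq_self fun n hn => ?_
    rw [hD]
    by_cases h0 : z n = 0
    · rw [h0, mul_zero]
    · exfalso
      obtain ⟨_, k, _, h2, _⟩ := hZ_supp (N l) (K l) n h0
      apply hn
      refine ⟨?_, k, (hcP k).2.1 n h2⟩
      by_contra hodd
      exact h2 (hwo k n hodd)
  have hDz : δ * ‖z‖ ≤ ‖D z‖ := by
    have h1 : ‖δ • z‖ = δ * ‖z‖ := by rw [norm_smul, Real.norm_of_nonneg hδ.le]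
    rw [← h1]
    refine norm_mono fun n => ?_
    rw [Space.smul_apply, hD, abs_mul, abs_mul, abs_of_pos hδ]
    exact mul_le_mul_of_nonneg_right (hd n) (abs_nonneg _)
  have hTz : ‖P Ω (T z)‖ ≤ 4 * (1 / 2) ^ (K l) := by
    have h1 : P Ω (T z) = (1 / (N l : ℝ)) • ∑ g ∈ range (N l), ((2 : ℝ) / N l) ^ (sE (N l) (K l)) •
        ∑ k ∈ Ico (KE (N l) (K l) + g * N l ^ (sE (N l) (K l)))
          (KE (N l) (K l) + (g + 1) * N l ^ (sE (N l) (K l))), P Ω (T (w k)) := by
      rw [hz, hZX _ _ hNl]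
      simp only [u, map_smul, map_sum]
    rw [h1, norm_smul, Real.norm_of_nonneg (by positivity)]
    have hc1 := (hE (N l) (K l) hNl).2.1
    have hKle := (hE (N l) (K l) hNl).1
    calc (1 / (N l : ℝ)) * ‖_‖ ≤ 1 * ∑ g ∈ range (N l),
          ∑ k ∈ Ico (KE (N l) (K l) + g * N l ^ (sE (N l) (K l)))
          (KE (N l) (K l) + (g + 1) * N l ^ (sE (N l) (K l))), (2 * ((1 : ℝ) / 2) ^ k) := by
          refine mul_le_mul ?_ ?_ (norm_nonneg _) (by norm_num)
          · rw [div_le_one hNl0]; exact_mod_cast hNl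
          · refine (norm_sum_le _ _).trans (Finset.sum_le_sum fun g _ => ?_)
            rw [norm_smul, Real.norm_of_nonneg (by positivity)]
            calc _ ≤ 1 * ‖_‖ := mul_le_mul_of_nonneg_right hc1 (norm_nonneg _)
              _ ≤ _ := by
                rw [one_mul]
                exact (norm_sum_le _ _).trans (Finset.sum_le_sum fun k _ => hΩT k)
      _ = 2 * ∑ k ∈ Ico (KE (N l) (K l)) (KE (N l) (K l) + N l * N l ^ (sE (N l) (K l))),
          ((1 : ℝ) / 2) ^ k := by
          rw [one_mul, sum_blocks, Finset.mul_sum]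
      _ ≤ 2 * (2 * (1 / 2) ^ (KE (N l) (K l))) :=
          mul_le_mul_of_nonneg_left (sum_half_Ico _ _) (by norm_num)
      _ ≤ 4 * (1 / 2) ^ (K l) := by
          have := pow_le_pow_of_le_one (by norm_num : (0 : ℝ) ≤ 1 / 2) (by norm_num) hKle
          linarith
  have hKl : ((1 : ℝ) / 2) ^ (K l) ≤ δ / 32 := by
    have h1 : l2 ≤ K l := (le_max_right l1 l2).trans (hKm.id_le l)
    exact (pow_le_pow_of_le_one (by norm_num) (by norm_num) h1).trans hl2.le
  have hRz : ‖P Ω (R z)‖ ≤ δ / 8 := by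
    refine le_trans (norm_P_mono (B := Od) (fun a ha => ha.1) _) ?_
    exact hl1 l (le_max_left _ _)
  have hfin : ‖D z‖ ≤ ‖P Ω (T z)‖ + ‖P Ω (R z)‖ := by
    have h1 : D z = P Ω (T z) - P Ω (R z) := by
      rw [← hzΩ, hT, _root_.add_apply, map_add]; abel
    conv_lhs => rw [h1]
    exact norm_sub_le _ _
  have h6 : δ * (1 / 2) ≤ δ * ‖z‖ := mul_le_mul_of_nonneg_left hzlow hδ.le
  linarith

end Pool.Agent.P18b69d
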