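import Mathlib
import Pool.Agent.Lib.P18b69d.OpB

set_option autoImplicit false
open Filter Topology Finset

namespace Pool.Agent.P18b69d

open Space

/-- Bounded coordinatewise null sequences are mapped to coordinatewise null sequences. -/
lemma weak_null (S : X →L[ℝ] X) {u : ℕ → X} {M : ℝ} (hM : ∀ k, ‖u k‖ ≤ M)
    (h0 : ∀ n, Tendsto (fun k => u k n) atTop (𝓝 0)) (p : ℕ) {ε : ℝ} (hε : 0 < ε) :
    ∃ K, ∀ k ≥ K, ∑ n ∈ range p, |S (u k) n| ≤ ε := by
  have hM0 : 0 ≤ M := (norm_nonneg _).trans (hM 0)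
  obtain ⟨q, hq⟩ := head_small S p (ε := ε / 2 / (M + 1)) (by positivity)
  have hlim : Tendsto (fun k => ∑ a ∈ range q, |u k a|) atTop (𝓝 0) := by
    have : Tendsto (fun k => ∑ a ∈ range q, |u k a|) atTop (𝓝 (∑ a ∈ range q, |(0 : ℝ)|)) :=
      tendsto_finsetSum _ fun a _ => (h0 a).abs
    simpa using this
  have hev := (Metric.tendsto_atTop.mp hlim) (ε / 2 / (p * ‖S‖ + 1)) (by positivity)
  obtain ⟨K, hK⟩ := hev
  refine ⟨K, fun k hk => ?_⟩
  have h1 := hK k hk
  rw [Real.dist_eq, sub_zero, abs_of_nonneg (Finset.sum_nonneg fun _ _ => abs_nonneg _)] at h1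
  have h2 : ∀ n, |S (u k) n| ≤ |S (P {a | a < q} (u k)) n| + |S (P {a | q ≤ a} (u k)) n| := by
    intro n
    conv_lhs => rw [← head_add_tail (u k) q]
    rw [map_add, Space.add_apply]
    exact abs_add_le _ _
  have h3 : ∑ n ∈ range p, |S (P {a | q ≤ a} (u k)) n| ≤ ε / 2 := by
    refine (hq _ fun n hn => ?_).trans ?_
    · rw [P_apply, if_neg]; simpa using hn
    · have h4 : ‖P {a | q ≤ a} (u k)‖ ≤ M := (norm_P_le _ _).trans (hM k)
      calc ε / 2 / (M + 1) * ‖P {a | q ≤ a} (u k)‖ ≤ ε / 2 / (M + 1) * (M + 1) :=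
            mul_le_mul_of_nonneg_left (by linarith) (by positivity)
        _ = ε / 2 := by field_simp
  have h5 : ∑ n ∈ range p, |S (P {a | a < q} (u k)) n| ≤ ε / 2 := by
    have h6 : ‖P {a | a < q} (u k)‖ ≤ ε / 2 / (p * ‖S‖ + 1) := (norm_head_le _ _).trans h1.le
    calc ∑ n ∈ range p, |S (P {a | a < q} (u k)) n|
        ≤ ∑ n ∈ range p, ‖S‖ * (ε / 2 / (p * ‖S‖ + 1)) := by
          refine Finset.sum_le_sum fun n _ => ?_
          exact (abs_apply_le _ _).trans ((S.le_opNorm _).trans
            (mul_le_mul_of_nonneg_left h6 (norm_nonneg _)))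
      _ = (p * ‖S‖) * (ε / 2 / (p * ‖S‖ + 1)) := by
          rw [Finset.sum_const, card_range, nsmul_eq_mul]; ring
      _ ≤ (p * ‖S‖ + 1) * (ε / 2 / (p * ‖S‖ + 1)) :=
          mul_le_mul_of_nonneg_right (by linarith) (by positivity)
      _ = ε / 2 := by field_simp
  calc ∑ n ∈ range p, |S (u k) n| ≤
        ∑ n ∈ range p, (|S (P {a | a < q} (u k)) n| + |S (P {a | q ≤ a} (u k)) n|) :=
        Finset.sum_le_sum fun n _ => h2 n
    _ ≤ ε := by rw [Finset.sum_add_distrib]; linarith

/-- Cells for the compactness argument. -/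
structure CCell where
  idx : ℕ
  lo : ℕ
  hi : ℕ
  rk : ℕ
  g : ℕ →₀ ℚ

/-- Operators from the even (`c₀`) part to the odd part send bounded coordinatewise null
sequences to norm null sequences. -/
theorem opC (S : X →L[ℝ] X) {u : ℕ → X} {M : ℝ} (hM : ∀ k, ‖u k‖ ≤ M)
    (hue : ∀ k n, Odd n → u k n = 0) (h0 : ∀ n, Tendsto (fun k => u k n) atTop (𝓝 0)) {ε : ℝ}
    (hε : 0 < ε) : ∃ K, ∀ k ≥ K, ‖P Od (S (u k))‖ ≤ ε := by
  classical
  by_contra hcon
  push Not at hcon
  have hM0 : 0 ≤ M := (norm_nonneg _).trans (hM 0)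
  have htail : ∀ (v : X) (τ : ℝ), ∃ p, 0 < τ → ∀ q ≥ p, ‖P {n | q ≤ n} v‖ ≤ τ := by
    intro v τ
    by_cases hτ : 0 < τ
    · obtain ⟨p, hp⟩ := tail_small v hτ
      exact ⟨p, fun _ => hp⟩
    · exact ⟨0, fun h => absurd h hτ⟩
  choose pc hpc using htail
  set Pc : CCell → Prop := fun c => (∃ i, W i c.g) ∧ (∀ a, c.g a ≠ 0 → Odd a) ∧
    (∀ a, c.g a ≠ 0 → c.lo ≤ a ∧ a < c.hi) ∧ ε / 2 ≤ pr c.g (S (u c.idx)) ∧
    (∀ n ≥ c.hi, |u c.idx n| ≤ (1 / 2) ^ c.rk) with hPc
  set Rc : CCell → CCell → Prop := fun c e => c.rk < e.rk ∧ c.idx < e.idx ∧ c.hi ≤ e.lo ∧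
    c.hi ≤ e.hi ∧
    pr e.g (S (u c.idx)) ≤ ε / 8 * (1 / 2) ^ e.rk ∧ pr c.g (S (u e.idx)) ≤ ε / 8 * (1 / 2) ^ e.rk ∧
    (∀ n < c.hi, |u e.idx n| ≤ (1 / 2) ^ e.rk) with hRc
  have hex : ∀ s : Finset CCell, (∀ c ∈ s, Pc c) → ∃ e, Pc e ∧ ∀ c ∈ s, Rc c e := by
    intro s hs
    set rk := ∑ c ∈ s, c.rk + 1 with hrk
    set idx0 := ∑ c ∈ s, c.idx + 1 with hidx0
    set τ : ℝ := ε / 8 * (1 / 2) ^ rk with hτ
    have hτ0 : 0 < τ := by positivity
    set lo := ∑ c ∈ s, c.hi + ∑ c ∈ s, pc (S (u c.idx)) τ with hlo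
    obtain ⟨K1, hK1⟩ := weak_null S hM h0 lo (ε := min τ (ε / 4)) (by positivity)
    have hlim : Tendsto (fun k => ∑ a ∈ range lo, |u k a|) atTop (𝓝 0) := by
      have : Tendsto (fun k => ∑ a ∈ range lo, |u k a|) atTop (𝓝 (∑ a ∈ range lo, |(0 : ℝ)|)) :=
        tendsto_finsetSum _ fun a _ => (h0 a).abs
      simpa using this
    obtain ⟨K2, hK2⟩ := (Metric.tendsto_atTop.mp hlim) ((1 / 2) ^ rk) (by positivity)
    obtain ⟨k, hk, hkε⟩ := hcon (max idx0 (max K1 K2))
    have hkidx : idx0 ≤ k := (le_max_left _ _).trans hk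
    have hkK1 : K1 ≤ k := ((le_max_left _ _).trans (le_max_right _ _)).trans hk
    have hkK2 : K2 ≤ k := ((le_max_right _ _).trans (le_max_right _ _)).trans hk
    have hSk := hK1 k hkK1
    have huk := hK2 k hkK2
    rw [Real.dist_eq, sub_zero, abs_of_nonneg (Finset.sum_nonneg fun _ _ => abs_nonneg _)] at huk
    set z : X := P (Od ∩ {n | lo ≤ n}) (S (u k)) with hz
    have hzn : ε / 2 < ‖z‖ := by
      have h1 : ‖P Od (S (u k))‖ ≤ ‖P ((Od ∩ {n | lo ≤ n}) ∪ {n | n < lo}) (S (u k))‖ := by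
        refine norm_P_mono ?_ _
        intro n hn
        by_cases h : n < lo
        · exact Or.inr h
        · exact Or.inl ⟨hn, not_lt.mp h⟩
      have h2 := P_union_le (Od ∩ {n | lo ≤ n}) {n | n < lo} (S (u k))
      have h3 := norm_head_le (S (u k)) lo
      have h5 : min τ (ε / 4) ≤ ε / 4 := min_le_right _ _
      linarith
    obtain ⟨i, f, hf, hfz⟩ := exists_prW z hzn
    set g : ℕ →₀ ℚ := f.filter (fun n => Odd n ∧ lo ≤ n) with hg
    have hgapp : ∀ n, g n = if Odd n ∧ lo ≤ n then f n else 0 := fun n =>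
      Finsupp.filter_apply _ _ _
    have hgne : ∀ a, g a ≠ 0 → Odd a ∧ lo ≤ a := by
      intro a ha
      rw [hgapp] at ha
      by_contra hcon'
      rw [if_neg hcon'] at ha
      exact ha rfl
    have hg0 : ∀ n, 0 ≤ g n := by
      intro n; rw [hgapp]; split_ifs
      · exact hf.nonneg n
      · exact le_rfl
    have hgW : W i g := hf.of_le hg0 fun n => by
      rw [hgapp]; split_ifs
      · exact le_rfl
      · exact hf.nonneg n
    have hgbig : ε / 2 ≤ pr g (S (u k)) := by
      have h1 : pr f z = pr g (S (u k)) := by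
        rw [pr_superset (f := g) (s := f.support) (by
          intro a ha
          rw [Finsupp.mem_support_iff] at ha ⊢
          intro h0'
          apply ha
          rw [hgapp, h0']; simp)]
        unfold pr
        refine Finset.sum_congr rfl fun n _ => ?_
        rw [hgapp, hz, P_apply]
        by_cases hc : Odd n ∧ lo ≤ n
        · rw [if_pos hc, if_pos]
          exact hc
        · rw [if_neg hc, if_neg]
          · simp
          · exact hc
      rw [← h1]; exact hfz.le
    obtain ⟨b, hb⟩ := tail_small (u k) (ε := (1 / 2) ^ rk) (by positivity)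
    refine ⟨⟨k, lo, max (g.support.sup id + 1) (max b lo), rk, g⟩, ⟨⟨i, hgW⟩,
      fun a ha => (hgne a ha).1, ?_, hgbig, ?_⟩, ?_⟩
    · intro a ha
      refine ⟨(hgne a ha).2, lt_of_lt_of_le ?_ (le_max_left _ _)⟩
      have := Finset.le_sup (f := id) (Finsupp.mem_support_iff.mpr ha)
      simp only [id] at this
      exact Nat.lt_succ_of_le this
    · intro n hn
      have hbn : b ≤ n := ((le_max_left _ _).trans (le_max_right _ _)).trans hn
      have h1 := abs_apply_le (P {a | n ≤ a} (u k)) n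
      rw [P_apply, if_pos (by simp)] at h1
      exact h1.trans (hb n hbn)
    · intro c hcs
      have hcP := hs c hcs
      have e1 := Finset.single_le_sum (f := fun c : CCell => c.rk) (fun _ _ => Nat.zero_le _) hcs
      have e2 := Finset.single_le_sum (f := fun c : CCell => c.idx) (fun _ _ => Nat.zero_le _) hcs
      have e3 := Finset.single_le_sum (f := fun c : CCell => c.hi) (fun _ _ => Nat.zero_le _) hcs
      have e4 := Finset.single_le_sum (f := fun c : CCell => pc (S (u c.idx)) τ)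
        (fun _ _ => Nat.zero_le _) hcs
      have hhl : c.hi ≤ lo := by omega
      refine ⟨?_, ?_, hhl, ?_, ?_, ?_, ?_⟩
      · simp only at e1 ⊢; omega
      · simp only at e2 ⊢; omega
      · exact hhl.trans ((le_max_right _ _).trans (le_max_right _ _))
      · simp only
        have h1 := hpc (S (u c.idx)) τ hτ0 lo (by omega)
        refine le_trans ?_ h1
        have h2 : pr g (S (u c.idx)) = pr g (P {n | lo ≤ n} (S (u c.idx))) := by
          refine pr_congr fun a ha => ?_
          have h3 := (hgne a (Finsupp.mem_support_iff.mp ha)).2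
          rw [P_apply, if_pos (by simpa using h3)]
        rw [h2]
        exact pr_le_normW _ hgW
      · simp only
        obtain ⟨i', hi'⟩ := hcP.1
        have h1 : pr c.g (S (u k)) ≤ ∑ n ∈ range lo, |S (u k) n| := by
          refine pr_le_sum_abs hi' (fun a ha => ?_) _
          have h2 := (hcP.2.2.1 a ha).2
          omega
        exact h1.trans (hSk.trans (min_le_left _ _))
      · intro n hn
        simp only
        have h1 := Finset.single_le_sum (f := fun a => |u k a|) (fun _ _ => abs_nonneg _)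
          (mem_range.mpr (lt_of_lt_of_le hn hhl))
        exact h1.trans huk.le
  obtain ⟨c, hcP, hcR⟩ := exists_seq_of_forall_finset_exists Pc Rc hex
  have hrk : ∀ k, k ≤ (c k).rk := by
    have : StrictMono fun k => (c k).rk :=
      strictMono_nat_of_lt_succ fun k => (hcR k (k + 1) (Nat.lt_succ_self k)).1
    exact fun k => this.id_le k
  have hpow : ∀ k, ((1 : ℝ) / 2) ^ (c k).rk ≤ (1 / 2) ^ k := fun k =>
    pow_le_pow_of_le_one (by norm_num) (by norm_num) (hrk k)
  set v : ℕ → X := fun k => u (c k).idx with hv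
  -- sup norm bound for sums
  have hsum : ∀ r, ‖∑ k ∈ range r, v k‖ ≤ M + 2 := by
    intro r
    refine even_norm_le _ ?_ ?_
    · intro n hn
      rw [sum_apply]
      exact Finset.sum_eq_zero fun k _ => hue _ n hn
    · intro n
      rw [sum_apply]
      -- at most one exceptional index
      have hexc : ∀ k k', k ≠ k' → |v k n| ≤ (1 / 2) ^ k ∨ |v k' n| ≤ (1 / 2) ^ k' := by
        intro k k' hne
        rcases lt_or_gt_of_ne hne with h | h
        · rcases lt_or_ge n (c k).hi with h1 | h1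
          · exact Or.inr (((hcR k k' h).2.2.2.2.2.2 n h1).trans (hpow k'))
          · exact Or.inl (((hcP k).2.2.2.2 n h1).trans (hpow k))
        · rcases lt_or_ge n (c k').hi with h1 | h1
          · exact Or.inl (((hcR k' k h).2.2.2.2.2.2 n h1).trans (hpow k))
          · exact Or.inr (((hcP k').2.2.2.2 n h1).trans (hpow k'))
      refine (Finset.abs_sum_le_sum_abs _ _).trans ?_
      by_cases hall : ∀ k ∈ range r, |v k n| ≤ (1 / 2) ^ k
      · calc ∑ k ∈ range r, |v k n| ≤ ∑ k ∈ range r, ((1 : ℝ) / 2) ^ k :=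
              Finset.sum_le_sum hall
          _ ≤ 2 := sum_half_le _
          _ ≤ M + 2 := by linarith
      · push Not at hall
        obtain ⟨k0, hk0, hk0'⟩ := hall
        rw [← Finset.add_sum_erase _ _ hk0]
        have h1 : ∑ k ∈ (range r).erase k0, |v k n| ≤ 2 := by
          calc ∑ k ∈ (range r).erase k0, |v k n| ≤ ∑ k ∈ (range r).erase k0, ((1 : ℝ) / 2) ^ k := by
                refine Finset.sum_le_sum fun k hk => ?_
                rcases hexc k k0 (Finset.ne_of_mem_erase hk) with h | h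
                · exact h
                · exact absurd h (not_le.mpr hk0')
            _ ≤ 2 := sum_half_le _
        have h2 : |v k0 n| ≤ M := (abs_apply_le _ _).trans (hM _)
        linarith
  -- choose a large even level
  obtain ⟨t, ht⟩ := exists_nat_gt (4 * ‖S‖ * (M + 2) / ε)
  set i := 2 * (t + 1) with hi
  set V : X := ∑ k ∈ range (nn i), v k with hV
  have hVn : ‖V‖ ≤ M + 2 := hsum _
  have hmem : ∀ k, ∃ i', W i' (c k).g := fun k => (hcP k).1
  have hup := even_node (i := i) (r := nn i) (by omega) ⟨t + 1, by omega⟩ le_rfl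
    (fun k => (c k).g) hmem
    (by
      intro l l' hl _ a ha b hb
      have h1 := ((hcP l).2.2.1 a (Finsupp.mem_support_iff.mp ha)).2
      have h2 := ((hcP l').2.2.1 b (Finsupp.mem_support_iff.mp hb)).1
      have h3 := (hcR l l' hl).2.2.1
      omega)
    (fun l k hk => (hcP l).2.1 k hk) (S V)
  have hlow : ∀ l ∈ range (nn i), ε / 4 ≤ pr (c l).g (S V) := by
    intro l hl
    obtain ⟨i', hi'⟩ := hmem l
    have hdec : V = v l + ∑ k ∈ (range (nn i)).erase l, v k := (Finset.add_sum_erase _ _ hl).symm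
    set R : X := ∑ k ∈ (range (nn i)).erase l, S (v k) with hR
    have hSV : S V = S (v l) + R := by
      rw [hdec, map_add, map_sum]
    have hRle : pr (c l).g R ≤ ε / 4 := by
      rw [hR, Space.coe_sum]
      refine (pr_sum_le hi'.nonneg _ _).trans ?_
      calc ∑ k ∈ (range (nn i)).erase l, pr (c l).g (S (v k))
          ≤ ∑ k ∈ (range (nn i)).erase l, ε / 8 * (1 / 2) ^ k := by
            refine Finset.sum_le_sum fun k hk => ?_
            have hne := Finset.ne_of_mem_erase hk
            rcases lt_or_gt_of_ne hne with h | h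
            · have h1 := (hcR k l h).2.2.2.2.1
              refine h1.trans (mul_le_mul_of_nonneg_left ?_ (by positivity))
              exact (hpow l).trans (pow_le_pow_of_le_one (by norm_num) (by norm_num) h.le)
            · have h1 := (hcR l k h).2.2.2.2.2.1
              exact h1.trans (mul_le_mul_of_nonneg_left (hpow k) (by positivity))
        _ = ε / 8 * ∑ k ∈ (range (nn i)).erase l, (1 / 2) ^ k := by rw [Finset.mul_sum]
        _ ≤ ε / 8 * 2 := mul_le_mul_of_nonneg_left (sum_half_le _) (by positivity)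
        _ = ε / 4 := by ring
    have h1 : pr (c l).g (S (v l)) ≤ pr (c l).g (S V) + pr (c l).g R := by
      have h2 : ((S (v l) : X) : ℕ → ℝ) = (S V : ℕ → ℝ) + ((-R : X) : ℕ → ℝ) := by
        rw [hSV]; funext a; simp
      rw [h2]
      refine (pr_add_le hi'.nonneg _ _).trans ?_
      have h3 : pr (c l).g ((-R : X) : ℕ → ℝ) = pr (c l).g R := pr_congr fun a _ => by simp
      rw [h3]
    have h4 := (hcP l).2.2.2.1
    simp only [hv] at h1
    linarith
  have hlow2 : (nn i : ℝ) * (ε / 4) ≤ mm i * (‖S‖ * (M + 2)) := by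
    calc (nn i : ℝ) * (ε / 4) = ∑ l ∈ range (nn i), ε / 4 := by
          rw [Finset.sum_const, card_range, nsmul_eq_mul]
      _ ≤ _ := Finset.sum_le_sum hlow
      _ ≤ mm i * ‖S V‖ := hup
      _ ≤ mm i * (‖S‖ * (M + 2)) := by
          refine mul_le_mul_of_nonneg_left ?_ (mm_posR i).le
          exact (S.le_opNorm _).trans (mul_le_mul_of_nonneg_left hVn (norm_nonneg _))
  have hmn : ((mm i : ℝ)) ^ 2 ≤ nn i := by
    have : i = (2 * t + 1) + 1 := by omega
    rw [this]
    exact_mod_cast mm_sq_le_nn (2 * t + 1)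
  have hm := mm_posR i
  have h5 : (mm i : ℝ) * ε ≤ 4 * ‖S‖ * (M + 2) := by
    have h6 : (mm i : ℝ) * (mm i * (ε / 4)) ≤ mm i * (‖S‖ * (M + 2)) := by
      refine le_trans ?_ hlow2
      have : (mm i : ℝ) * (mm i * (ε / 4)) = mm i ^ 2 * (ε / 4) := by ring
      rw [this]
      exact mul_le_mul_of_nonneg_right hmn (by positivity)
    have := le_of_mul_le_mul_left h6 hm
    linarith
  rw [div_lt_iff₀ hε] at ht
  have h7 : (t : ℝ) < mm i := by
    have := lt_mm i
    have h8 : t < mm i := by omega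
    exact_mod_cast h8
  nlinarith

end Pool.Agent.P18b69d
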