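import Mathlib
import Pool.Agent.Lib.P18b69d.OpC

set_option autoImplicit false
open Filter Topology Finset

namespace Pool.Agent.P18b69d

open Space

/-- Uniform version of Theorem B along the segment `D + t S`. -/
theorem opB_uniform (S D : X →L[ℝ] X) (hS0 : ∀ n, Odd n → S (bv n) n = 0) (d : ℕ → ℝ)
    (hD : ∀ (x : X) n, D x n = d n * x n) {δ : ℝ} (hδ : 0 < δ) (hd : ∀ n, δ ≤ |d n|) :
    ∃ (p : ℕ) (c : ℝ), 0 < c ∧ ∀ t ∈ Set.Icc (0 : ℝ) 1, ∀ p' ≥ p, ∀ v : X,
      (∀ n, n ∉ Od → v n = 0) → (∀ n < p', v n = 0) →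
      c * ‖v‖ ≤ ‖P (Od ∩ {n | p' ≤ n}) (D v + t • S v)‖ := by
  refine isCompact_Icc.induction_on (p := fun s : Set ℝ => ∃ (p : ℕ) (c : ℝ), 0 < c ∧
    ∀ t ∈ s, ∀ p' ≥ p, ∀ v : X,
      (∀ n, n ∉ Od → v n = 0) → (∀ n < p', v n = 0) →
      c * ‖v‖ ≤ ‖P (Od ∩ {n | p' ≤ n}) (D v + t • S v)‖) ?_ ?_ ?_ ?_
  · exact ⟨0, 1, one_pos, fun t ht => absurd ht (Set.notMem_empty t)⟩
  · rintro s t hst ⟨p, c, hc, h⟩
    exact ⟨p, c, hc, fun u hu => h u (hst hu)⟩
  · rintro s t ⟨p, c, hc, h⟩ ⟨p2, c2, hc2, h2⟩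
    refine ⟨max p p2, min c c2, lt_min hc hc2, ?_⟩
    rintro u (hu | hu) p' hp' v hv1 hv2
    · refine le_trans ?_ (h u hu p' ((le_max_left _ _).trans hp') v hv1 hv2)
      exact mul_le_mul_of_nonneg_right (min_le_left _ _) (norm_nonneg _)
    · refine le_trans ?_ (h2 u hu p' ((le_max_right _ _).trans hp') v hv1 hv2)
      exact mul_le_mul_of_nonneg_right (min_le_right _ _) (norm_nonneg _)
  · intro t0 _
    obtain ⟨p, c, hc, h⟩ := opB (t0 • S) D (by
      intro n hn
      have : (t0 • S) (bv n) = t0 • S (bv n) := rfl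
      rw [this, Space.smul_apply, hS0 n hn, mul_zero]) d hD hδ hd
    refine ⟨Metric.ball t0 (c / 2 / (‖S‖ + 1)), mem_nhdsWithin_of_mem_nhds
      (Metric.ball_mem_nhds _ (by positivity)), p, c / 2, by positivity, ?_⟩
    intro t ht p' hp' v hv1 hv2
    have h1 := h p' hp' v hv1 hv2
    rw [Metric.mem_ball, Real.dist_eq] at ht
    have h2 : D v + (t0 • S) v = (D v + t • S v) + (t0 - t) • S v := by
      have : (t0 • S) v = t0 • S v := rfl
      rw [this, sub_smul]; abel
    rw [h2, map_add] at h1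
    have h3 : ‖P (Od ∩ {n | p' ≤ n}) ((t0 - t) • S v)‖ ≤ c / 2 * ‖v‖ := by
      refine (norm_P_le _ _).trans ?_
      rw [norm_smul, Real.norm_eq_abs, abs_sub_comm]
      have h4 : ‖S v‖ ≤ (‖S‖ + 1) * ‖v‖ :=
        (S.le_opNorm v).trans (mul_le_mul_of_nonneg_right (by linarith) (norm_nonneg _))
      calc |t - t0| * ‖S v‖ ≤ (c / 2 / (‖S‖ + 1)) * ((‖S‖ + 1) * ‖v‖) :=
            mul_le_mul ht.le h4 (norm_nonneg _) (by positivity)
        _ = c / 2 * ‖v‖ := by field_simp
    have h5 := norm_add_le (P (Od ∩ {n | p' ≤ n}) (D v + t • S v))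
      (P (Od ∩ {n | p' ≤ n}) ((t0 - t) • S v))
    linarith

/-- Sparse sets of even coordinates. -/
lemma exists_sparse (S : X →L[ℝ] X) {η : ℝ} (hη : 0 < η) :
    ∃ μ : ℕ → ℕ, StrictMono μ ∧ (∀ k, Even (μ k)) ∧
      (∀ k, ‖P Od (S (bv (μ k)))‖ ≤ η * (1 / 2) ^ k) ∧
      (∀ k l, k ≠ l → |S (bv (μ k)) (μ l)| ≤ η * (1 / 2) ^ k) := by
  classical
  have htail : ∀ (v : X) (τ : ℝ), ∃ p, 0 < τ → ∀ q ≥ p, ‖P {n | q ≤ n} v‖ ≤ τ := by
    intro v τ
    by_cases hτ : 0 < τ
    · obtain ⟨p, hp⟩ := tail_small v hτ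
      exact ⟨p, fun _ => hp⟩
    · exact ⟨0, fun h => absurd h hτ⟩
  choose pc hpc using htail
  set Pc : ℕ × ℕ → Prop := fun c => Even c.1 ∧ ‖P Od (S (bv c.1))‖ ≤ η * (1 / 2) ^ c.2 with hPc
  set Rc : ℕ × ℕ → ℕ × ℕ → Prop := fun c e => c.1 < e.1 ∧ c.2 < e.2 ∧
    |S (bv e.1) c.1| ≤ η * (1 / 2) ^ e.2 ∧ |S (bv c.1) e.1| ≤ η * (1 / 2) ^ e.2 with hRc
  have hu1 : ∀ k, ‖(bv (2 * k) : X)‖ ≤ 1 := fun k => norm_bv_le _
  have hu2 : ∀ k n, Odd n → (bv (2 * k) : X) n = 0 := by
    intro k n hn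
    rw [bv_apply, if_neg]
    rintro rfl
    exact absurd hn (by simp)
  have hu3 : ∀ n, Tendsto (fun k => (bv (2 * k) : X) n) atTop (𝓝 0) := by
    intro n
    refine tendsto_const_nhds.congr' ?_
    filter_upwards [eventually_gt_atTop n] with k hk
    rw [bv_apply, if_neg]; omega
  have hex : ∀ s : Finset (ℕ × ℕ), (∀ c ∈ s, Pc c) → ∃ e, Pc e ∧ ∀ c ∈ s, Rc c e := by
    intro s _
    set rk := ∑ c ∈ s, c.2 + 1 with hrk
    set τ : ℝ := η * (1 / 2) ^ rk with hτ
    have hτ0 : 0 < τ := by positivity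
    set lo := ∑ c ∈ s, c.1 + 1 with hlo
    set q := ∑ c ∈ s, pc (S (bv c.1)) τ with hq
    obtain ⟨K1, hK1⟩ := opC S hu1 hu2 hu3 hτ0
    obtain ⟨K2, hK2⟩ := weak_null S hu1 hu3 lo hτ0
    set k := max (max K1 K2) (max lo q) with hk
    have hk1 : K1 ≤ k := (le_max_left _ _).trans (le_max_left _ _)
    have hk2 : K2 ≤ k := (le_max_right _ _).trans (le_max_left _ _)
    have hk3 : lo ≤ k := (le_max_left _ _).trans (le_max_right _ _)
    have hk4 : q ≤ k := (le_max_right _ _).trans (le_max_right _ _)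
    refine ⟨(2 * k, rk), ⟨even_two_mul k, hK1 k hk1⟩, ?_⟩
    intro c hc
    have e1 := Finset.single_le_sum (f := fun c : ℕ × ℕ => c.1) (fun _ _ => Nat.zero_le _) hc
    have e2 := Finset.single_le_sum (f := fun c : ℕ × ℕ => c.2) (fun _ _ => Nat.zero_le _) hc
    have e3 := Finset.single_le_sum (f := fun c : ℕ × ℕ => pc (S (bv c.1)) τ)
      (fun _ _ => Nat.zero_le _) hc
    refine ⟨?_, ?_, ?_, ?_⟩
    · simp only; omega
    · simp only; omega
    · simp only
      have h1 := hK2 k hk2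
      have h2 := Finset.single_le_sum (f := fun n => |S (bv (2 * k)) n|)
        (fun _ _ => abs_nonneg _) (mem_range.mpr (by omega : c.1 < lo))
      exact h2.trans h1
    · simp only
      have h1 := hpc (S (bv c.1)) τ hτ0 (2 * k) (by omega)
      have h2 := abs_apply_le (P {n | 2 * k ≤ n} (S (bv c.1))) (2 * k)
      rw [P_apply, if_pos (by simp)] at h2
      exact h2.trans h1
  obtain ⟨c, hcP, hcR⟩ := exists_seq_of_forall_finset_exists Pc Rc hex
  have hrk : ∀ k, k ≤ (c k).2 := by
    have : StrictMono fun k => (c k).2 :=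
      strictMono_nat_of_lt_succ fun k => (hcR k (k + 1) (Nat.lt_succ_self k)).2.1
    exact fun k => this.id_le k
  have hpow : ∀ k, ((1 : ℝ) / 2) ^ (c k).2 ≤ (1 / 2) ^ k := fun k =>
    pow_le_pow_of_le_one (by norm_num) (by norm_num) (hrk k)
  refine ⟨fun k => (c k).1,
    strictMono_nat_of_lt_succ fun k => (hcR k (k + 1) (Nat.lt_succ_self k)).1,
    fun k => (hcP k).1, fun k => (hcP k).2.trans (mul_le_mul_of_nonneg_left (hpow k) hη.le), ?_⟩
  intro k l hne
  rcases lt_or_gt_of_ne hne with h | h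
  · refine (hcR k l h).2.2.2.trans (mul_le_mul_of_nonneg_left ?_ hη.le)
    exact (hpow l).trans (pow_le_pow_of_le_one (by norm_num) (by norm_num) h.le)
  · exact (hcR l k h).2.2.1.trans (mul_le_mul_of_nonneg_left (hpow k) hη.le)

/-- Estimating an operator on the span of a sparse set. -/
lemma sparse_bound {E : Type*} [NormedAddCommGroup E] [NormedSpace ℝ E] (Φ : X →L[ℝ] E)
    {μ : ℕ → ℕ} (hμ : StrictMono μ) {B : ℝ} (hB : ∀ K, ∑ k ∈ range K, ‖Φ (bv (μ k))‖ ≤ B) (x : X) :
    ‖Φ (P (Set.range μ) x)‖ ≤ B * ‖x‖ := by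
  classical
  have hlim : Tendsto (fun K => P (μ '' {k | k < K}) x) atTop (𝓝 (P (Set.range μ) x)) := by
    rw [Metric.tendsto_atTop]
    intro ε hε
    obtain ⟨p, hp⟩ := tail_small x (half_pos hε)
    refine ⟨p, fun K hK => ?_⟩
    rw [dist_eq_norm, norm_sub_rev]
    refine lt_of_le_of_lt ?_ (half_lt_self hε)
    refine le_trans ?_ (hp p le_rfl)
    refine norm_mono fun n => ?_
    rw [Space.sub_apply, P_apply, P_apply, P_apply]
    by_cases h1 : n ∈ Set.range μ
    · obtain ⟨k, rfl⟩ := h1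
      by_cases h2 : k < K
      · have h3 : μ k ∈ μ '' {k | k < K} := ⟨k, h2, rfl⟩
        rw [if_pos ⟨k, rfl⟩, if_pos h3]; simp
      · have h3 : μ k ∈ ({n | p ≤ n} : Set ℕ) := by
          have := hμ.id_le k
          change p ≤ μ k
          simp only [id] at this
          omega
        have h4 : μ k ∉ μ '' {k | k < K} := by
          rintro ⟨k', hk', he⟩
          rw [hμ.injective he] at hk'
          exact h2 hk'
        rw [if_pos ⟨k, rfl⟩, if_neg h4, if_pos h3]; simp
    · have h4 : n ∉ μ '' {k | k < K} := by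
        rintro ⟨k', _, he⟩
        exact h1 ⟨k', he⟩
      rw [if_neg h1, if_neg h4]; simp
  have hPK : ∀ K, P (μ '' {k | k < K}) x = ∑ k ∈ range K, x (μ k) • (bv (μ k) : X) := by
    intro K
    refine ext' fun n => ?_
    rw [P_apply, sum_apply]
    by_cases h : n ∈ μ '' {k | k < K}
    · obtain ⟨k, hk, rfl⟩ := h
      rw [if_pos ⟨k, hk, rfl⟩, Finset.sum_eq_single_of_mem k (mem_range.mpr hk)]
      · simp
      · intro k' _ hne
        rw [Space.smul_apply, bv_apply, if_neg, mul_zero]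
        intro he
        exact hne (hμ.injective he.symm)
    · rw [if_neg h, Finset.sum_eq_zero]
      intro k hk
      rw [Space.smul_apply, bv_apply, if_neg, mul_zero]
      rintro rfl
      exact h ⟨k, mem_range.mp hk, rfl⟩
  have hlim2 : Tendsto (fun K => ‖Φ (P (μ '' {k | k < K}) x)‖) atTop
      (𝓝 ‖Φ (P (Set.range μ) x)‖) := ((Φ.continuous.tendsto _).comp hlim).norm
  refine le_of_tendsto' hlim2 fun K => ?_
  rw [hPK, map_sum]
  calc ‖∑ k ∈ range K, Φ (x (μ k) • (bv (μ k) : X))‖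
      ≤ ∑ k ∈ range K, ‖x‖ * ‖Φ (bv (μ k))‖ := by
        refine (norm_sum_le _ _).trans (Finset.sum_le_sum fun k _ => ?_)
        rw [map_smul, norm_smul]
        exact mul_le_mul_of_nonneg_right (abs_apply_le x _) (norm_nonneg _)
    _ = ‖x‖ * ∑ k ∈ range K, ‖Φ (bv (μ k))‖ := by rw [Finset.mul_sum]
    _ ≤ ‖x‖ * B := mul_le_mul_of_nonneg_left (hB K) (norm_nonneg _)
    _ = B * ‖x‖ := mul_comm _ _

/-- Continuity method, one step. -/
lemma unit_step {A B : X →L[ℝ] X} (hA : IsUnit A) {c : ℝ} (hc : 0 < c)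
    (hAc : ∀ x, c * ‖x‖ ≤ ‖A x‖) (hAB : ‖A - B‖ < c) : IsUnit B := by
  obtain ⟨U, rfl⟩ := hA
  have hinv : ‖(↑U⁻¹ : X →L[ℝ] X)‖ ≤ 1 / c := by
    refine ContinuousLinearMap.opNorm_le_bound _ (by positivity) fun y => ?_
    have h1 := hAc ((↑U⁻¹ : X →L[ℝ] X) y)
    have h2 : (U : X →L[ℝ] X) ((↑U⁻¹ : X →L[ℝ] X) y) = y := by
      change ((U : X →L[ℝ] X) * (↑U⁻¹ : X →L[ℝ] X)) y = y
      rw [Units.mul_inv]; rfl
    rw [h2] at h1
    rw [one_div, ← div_eq_inv_mul, le_div_iff₀ hc]
    linarith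
  have hlt : ‖(↑U⁻¹ : X →L[ℝ] X) * ((U : X →L[ℝ] X) - B)‖ < 1 := by
    calc ‖(↑U⁻¹ : X →L[ℝ] X) * ((U : X →L[ℝ] X) - B)‖
        ≤ ‖(↑U⁻¹ : X →L[ℝ] X)‖ * ‖(U : X →L[ℝ] X) - B‖ := norm_mul_le _ _
      _ ≤ 1 / c * ‖(U : X →L[ℝ] X) - B‖ := mul_le_mul_of_nonneg_right hinv (norm_nonneg _)
      _ < 1 / c * c := mul_lt_mul_of_pos_left hAB (by positivity)
      _ = 1 := by field_simp
  have h1 := isUnit_one_sub_of_norm_lt_one hlt
  have h2 : B = (U : X →L[ℝ] X) * (1 - (↑U⁻¹ : X →L[ℝ] X) * ((U : X →L[ℝ] X) - B)) := by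
    rw [mul_sub, mul_one, ← mul_assoc, Units.mul_inv, one_mul, sub_sub_cancel]
  rw [h2]
  exact U.isUnit.mul h1

/-- **The factorization property of the basis of `X`.** -/
theorem fp_X (T : X →L[ℝ] X) (hT : ∃ δ : ℝ, 0 < δ ∧ ∀ n, δ ≤ |T (bv n) n|) :
    ∃ A B : X →L[ℝ] X, A.comp (T.comp B) = ContinuousLinearMap.id ℝ X := by
  classical
  obtain ⟨δ, hδ, hd⟩ := hT
  set d : ℕ → ℝ := fun n => T (bv n) n with hddef
  have hdK : ∀ n, |d n| ≤ ‖T‖ := by
    intro n
    refine (abs_apply_le _ _).trans ((T.le_opNorm _).trans ?_)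
    calc ‖T‖ * ‖(bv n : X)‖ ≤ ‖T‖ * 1 := mul_le_mul_of_nonneg_left (norm_bv_le n) (norm_nonneg _)
      _ = ‖T‖ := mul_one _
  set D : X →L[ℝ] X := mulOp d ‖T‖ hdK with hDdef
  have hD : ∀ (x : X) n, D x n = d n * x n := fun x n => rfl
  set S : X →L[ℝ] X := T - D with hSdef
  have hTDS : ∀ x, T x = D x + S x := by
    intro x; rw [hSdef]; simp
  have hS0 : ∀ n, S (bv n) n = 0 := by
    intro n
    have h1 : S (bv n) n = T (bv n) n - D (bv n) n := rfl
    rw [h1, hD, bv_apply, if_pos rfl, mul_one, sub_self]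
  obtain ⟨p, c, hc, hB⟩ := opB_uniform S D (fun n _ => hS0 n) d hD hδ hd
  -- constants
  set Bc : ℝ := 1 / δ + (1 + ‖S‖ / δ) / c with hBc
  have hBc0 : 0 < Bc := by
    have : 0 ≤ ‖S‖ := norm_nonneg _
    positivity
  set η : ℝ := 1 / (4 * Bc) with hη
  have hη0 : 0 < η := by positivity
  obtain ⟨μ, hμ, hμe, hμ1, hμ2⟩ := exists_sparse S hη0
  set M : Set ℕ := Set.range μ with hM
  have hMe : ∀ n ∈ M, Even n := by rintro _ ⟨k, rfl⟩; exact hμe k
  set Op : Set ℕ := Od ∩ {n | p ≤ n} with hOp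
  set Q : Set ℕ := M ∪ Op with hQ
  have hMO : ∀ n ∈ M, n ∉ Op := by
    intro n hn hn'
    have h1 : Odd n := hn'.1
    exact absurd (hMe n hn) (Nat.not_even_iff_odd.mpr h1)
  -- smallness of `S` on the sparse set
  have hsum : ∀ K, ∑ k ∈ range K, η * ((1 : ℝ) / 2) ^ k ≤ 2 * η := by
    intro K
    rw [← Finset.mul_sum]
    have := mul_le_mul_of_nonneg_left (sum_half_le (range K)) hη0.le
    linarith
  have hS1 : ∀ x : X, ‖P Od (S (P M x))‖ ≤ 2 * η * ‖x‖ := by
    intro x
    refine sparse_bound ((P Od).comp S) hμ (fun K => ?_) x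
    exact (Finset.sum_le_sum fun k _ => hμ1 k).trans (hsum K)
  have hS2 : ∀ x : X, ‖P M (S (P M x))‖ ≤ 2 * η * ‖x‖ := by
    intro x
    refine even_norm_le _ ?_ ?_
    · intro n hn
      rw [P_apply, if_neg]
      intro hnM
      exact absurd (hMe n hnM) (Nat.not_even_iff_odd.mpr hn)
    · intro n
      rw [P_apply]
      split_ifs with hn
      · obtain ⟨l, rfl⟩ := hn
        refine sparse_bound ((coord (μ l)).comp S) hμ (fun K => ?_) x
        refine (Finset.sum_le_sum fun k _ => ?_).trans (hsum K)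
        change |S (bv (μ k)) (μ l)| ≤ _
        by_cases hkl : k = l
        · subst hkl
          rw [hS0, abs_zero]; positivity
        · exact hμ2 k l hkl
      · rw [abs_zero]
        have := norm_nonneg x
        positivity
  -- the path of operators
  let A : ℝ → X →L[ℝ] X := fun t => P Qᶜ + (P Q).comp ((D + t • S).comp (P Q))
  have hAapp : ∀ t x, A t x = P Qᶜ x + P Q (D (P Q x) + t • S (P Q x)) := fun t x => rfl
  have hlow : ∀ t ∈ Set.Icc (0 : ℝ) 1, ∀ x : X, 1 / (2 * (1 + Bc)) * ‖x‖ ≤ ‖A t x‖ := by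
    intro t ht x
    set u : X := P M x with hu
    set v : X := P Op x with hv
    set α : ℝ := ‖A t x‖ with hα
    have htabs : |t| ≤ 1 := by rw [abs_of_nonneg ht.1]; exact ht.2
    have hQx : P Q x = u + v := by
      refine ext' fun n => ?_
      rw [Space.add_apply, hu, hv, P_apply, P_apply, P_apply]
      by_cases h1 : n ∈ M
      · have h2 := hMO n h1
        have h3 : n ∈ Q := Or.inl h1
        rw [if_pos h3, if_pos h1, if_neg h2]; simp
      · by_cases h2 : n ∈ Op
        · have h3 : n ∈ Q := Or.inr h2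
          rw [if_pos h3, if_neg h1, if_pos h2]; simp
        · have h3 : n ∉ Q := by rintro (h | h) <;> contradiction
          rw [if_neg h3, if_neg h1, if_neg h2]; simp
    -- complement part
    have hcompl : ‖P Qᶜ x‖ ≤ α := by
      have h1 : P Qᶜ x = P Qᶜ (A t x) := by
        rw [hAapp, map_add, P_P, P_P]
        simp only [Set.inter_self, Set.compl_inter_self]
        rw [P_eq_zero (A := (∅ : Set ℕ)) (fun n hn => absurd hn (Set.notMem_empty n)), add_zero]
      rw [h1]; exact norm_P_le _ _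
    -- odd part
    have hOpA : P Op (A t x) = P Op (D v + t • S v) + t • P Op (S u) := by
      refine ext' fun n => ?_
      rw [hAapp, Space.add_apply, Space.smul_apply, P_apply, P_apply, P_apply]
      by_cases h : n ∈ Op
      · have h3 : n ∈ Q := Or.inr h
        have h4 : n ∉ M := fun hm => hMO n hm h
        have h5 : u n = 0 := by rw [hu, P_apply, if_neg h4]
        rw [if_pos h, if_pos h, if_pos h, Space.add_apply, P_apply, P_apply, if_pos h3,
          if_neg (by simpa using h3), hQx]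
        simp only [Space.add_apply, Space.smul_apply, hD, map_add, h5]
        ring
      · rw [if_neg h, if_neg h, if_neg h]; ring
    have hvn : c * ‖v‖ ≤ α + 2 * η * ‖x‖ := by
      have h1 := hB t ht p le_rfl v
        (by
          intro n hn
          rw [hv, P_apply, if_neg]
          exact fun h => hn h.1)
        (by
          intro n hn
          rw [hv, P_apply, if_neg]
          exact fun h => absurd h.2 (not_le.mpr hn))
      have h2 : P Op (D v + t • S v) = P Op (A t x) - t • P Op (S u) := by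
        rw [hOpA]; abel
      have h3 : ‖t • P Op (S u)‖ ≤ 2 * η * ‖x‖ := by
        rw [norm_smul, Real.norm_eq_abs]
        have h4 : ‖P Op (S u)‖ ≤ ‖P Od (S u)‖ := norm_P_mono (fun n hn => hn.1) _
        have h5 := hS1 x
        calc |t| * ‖P Op (S u)‖ ≤ 1 * ‖P Op (S u)‖ :=
              mul_le_mul_of_nonneg_right htabs (norm_nonneg _)
          _ ≤ 2 * η * ‖x‖ := by rw [one_mul]; exact h4.trans h5
      have h6 : ‖P Op (A t x)‖ ≤ α := norm_P_le _ _
      have h7 := norm_sub_le (P Op (A t x)) (t • P Op (S u))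
      rw [← h2] at h7
      linarith
    -- even part
    have hMA : P M (A t x) = D u + t • P M (S u) + t • P M (S v) := by
      refine ext' fun n => ?_
      rw [hAapp, Space.add_apply, Space.add_apply, Space.smul_apply, Space.smul_apply, P_apply,
        P_apply, P_apply, hD]
      by_cases h : n ∈ M
      · have h3 : n ∈ Q := Or.inl h
        have h4 : n ∉ Op := hMO n h
        have h5 : v n = 0 := by rw [hv, P_apply, if_neg h4]
        rw [if_pos h, if_pos h, if_pos h, Space.add_apply, P_apply, P_apply, if_pos h3,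
          if_neg (by simpa using h3), hQx]
        simp only [Space.add_apply, Space.smul_apply, hD, map_add, h5]
        ring
      · have h5 : u n = 0 := by rw [hu, P_apply, if_neg h]
        rw [if_neg h, if_neg h, if_neg h, h5]; ring
    have hun : δ * ‖u‖ ≤ α + 2 * η * ‖x‖ + ‖S‖ * ‖v‖ := by
      have hDu : δ * ‖u‖ ≤ ‖D u‖ := by
        have h1 : ‖δ • u‖ = δ * ‖u‖ := by rw [norm_smul, Real.norm_of_nonneg hδ.le]
        rw [← h1]
        refine norm_mono fun n => ?_
        rw [Space.smul_apply, hD, abs_mul, abs_mul, abs_of_pos hδ]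
        exact mul_le_mul_of_nonneg_right (hd n) (abs_nonneg _)
      have h2 : D u = P M (A t x) - t • P M (S u) - t • P M (S v) := by
        rw [hMA]; abel
      have h3 : ‖t • P M (S u)‖ ≤ 2 * η * ‖x‖ := by
        rw [norm_smul, Real.norm_eq_abs]
        calc |t| * ‖P M (S u)‖ ≤ 1 * ‖P M (S u)‖ :=
              mul_le_mul_of_nonneg_right htabs (norm_nonneg _)
          _ ≤ 2 * η * ‖x‖ := by rw [one_mul]; exact hS2 x
      have h4 : ‖t • P M (S v)‖ ≤ ‖S‖ * ‖v‖ := by
        rw [norm_smul, Real.norm_eq_abs]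
        calc |t| * ‖P M (S v)‖ ≤ 1 * ‖P M (S v)‖ :=
              mul_le_mul_of_nonneg_right htabs (norm_nonneg _)
          _ ≤ ‖S‖ * ‖v‖ := by rw [one_mul]; exact (norm_P_le _ _).trans (S.le_opNorm _)
      have h5 : ‖P M (A t x)‖ ≤ α := norm_P_le _ _
      have h6 := norm_sub_le (P M (A t x) - t • P M (S u)) (t • P M (S v))
      have h7 := norm_sub_le (P M (A t x)) (t • P M (S u))
      rw [← h2] at h6
      linarith
    have hxn : ‖x‖ ≤ α + ‖u‖ + ‖v‖ := by
      have h1 : x = P Qᶜ x + (u + v) := by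
        rw [← hQx, add_comm]; exact (P_add_compl Q x).symm
      calc ‖x‖ = ‖P Qᶜ x + (u + v)‖ := by rw [← h1]
        _ ≤ ‖P Qᶜ x‖ + ‖u + v‖ := norm_add_le _ _
        _ ≤ α + (‖u‖ + ‖v‖) := add_le_add hcompl (norm_add_le _ _)
        _ = _ := by ring
    -- combine
    have hvn' : ‖v‖ ≤ (α + 2 * η * ‖x‖) / c := by
      rw [le_div_iff₀ hc]; linarith
    have hun' : ‖u‖ ≤ (α + 2 * η * ‖x‖ + ‖S‖ * ‖v‖) / δ := by
      rw [le_div_iff₀ hδ]; linarith
    have hα0 : 0 ≤ α := norm_nonneg _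
    have hSn : 0 ≤ ‖S‖ := norm_nonneg _
    have hx0 : 0 ≤ ‖x‖ := norm_nonneg _
    have hw0 : 0 ≤ α + 2 * η * ‖x‖ := by positivity
    have h1 : ‖u‖ + ‖v‖ ≤ Bc * (α + 2 * η * ‖x‖) := by
      have h2 : ‖u‖ ≤ (α + 2 * η * ‖x‖) / δ + ‖S‖ / δ * ((α + 2 * η * ‖x‖) / c) := by
        refine hun'.trans ?_
        rw [add_div]
        refine add_le_add le_rfl ?_
        rw [mul_div_right_comm]
        exact mul_le_mul_of_nonneg_left hvn' (by positivity)
      have h3 : Bc * (α + 2 * η * ‖x‖) = (α + 2 * η * ‖x‖) / δ +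
          ‖S‖ / δ * ((α + 2 * η * ‖x‖) / c) + (α + 2 * η * ‖x‖) / c := by
        rw [hBc]; field_simp; ring
      rw [h3]; linarith
    have h4 : Bc * (2 * η * ‖x‖) = ‖x‖ / 2 := by
      rw [hη]; field_simp; ring
    have h5 : ‖x‖ ≤ 2 * (1 + Bc) * α := by nlinarith
    rw [one_div, inv_mul_le_iff₀ (by positivity)]
    exact h5
  -- invertibility at zero
  have hA0 : IsUnit (A 0) := by
    set a : ℕ → ℝ := fun n => if n ∈ Q then d n else 1 with ha
    set b : ℕ → ℝ := fun n => if n ∈ Q then (d n)⁻¹ else 1 with hb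
    have hbK : ∀ n, |b n| ≤ δ⁻¹ + 1 := by
      intro n
      simp only [hb]
      split_ifs
      · rw [abs_inv]
        have := inv_anti₀ hδ (hd n)
        linarith
      · rw [abs_one]
        have : 0 < δ⁻¹ := by positivity
        linarith
    have haK : ∀ n, |a n| ≤ ‖T‖ + 1 := by
      intro n
      simp only [ha]
      split_ifs
      · have := hdK n; linarith
      · rw [abs_one]; have := norm_nonneg T; linarith
    have hab : ∀ n, a n * b n = 1 := by
      intro n
      simp only [ha, hb]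
      split_ifs
      · have : d n ≠ 0 := by
          intro h0
          have := hd n
          simp only [hddef] at h0
          rw [h0, abs_zero] at this
          linarith
        field_simp
      · norm_num
    have hAa : A 0 = mulOp a (‖T‖ + 1) haK := by
      refine ContinuousLinearMap.ext fun x => ext' fun n => ?_
      rw [hAapp, Space.add_apply, P_apply, P_apply, mulOp_apply]
      simp only [Space.add_apply, Space.smul_apply, zero_mul, add_zero, hD, ha, P_apply]
      by_cases h : n ∈ Q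
      · rw [if_neg (by simpa using h), if_pos h, if_pos h, if_pos h]; ring
      · rw [if_pos (by simpa using h), if_neg h, if_neg h]; ring
    rw [hAa]
    refine ⟨⟨mulOp a (‖T‖ + 1) haK, mulOp b (δ⁻¹ + 1) hbK, ?_, ?_⟩, rfl⟩
    · refine ContinuousLinearMap.ext fun x => ext' fun n => ?_
      change a n * (b n * x n) = x n
      rw [← mul_assoc, hab, one_mul]
    · refine ContinuousLinearMap.ext fun x => ext' fun n => ?_
      change b n * (a n * x n) = x n
      rw [← mul_assoc, mul_comm (b n), hab, one_mul]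
  -- invertibility at one
  obtain ⟨N, hN⟩ := exists_nat_gt (‖S‖ / (1 / (2 * (1 + Bc))))
  have hN' : ‖S‖ / ((N : ℝ) + 1) < 1 / (2 * (1 + Bc)) := by
    rw [div_lt_iff₀ (by positivity)] at hN ⊢
    nlinarith [show (0 : ℝ) < 1 / (2 * (1 + Bc)) by positivity]
  have hunit : ∀ i : ℕ, i ≤ N + 1 → IsUnit (A ((i : ℝ) / ((N : ℝ) + 1))) := by
    intro i
    induction i with
    | zero => intro _; simpa using hA0
    | succ i ih =>
      intro hi
      refine unit_step (ih (by omega)) (c := 1 / (2 * (1 + Bc))) (by positivity) ?_ ?_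
      · intro x
        refine hlow _ ⟨by positivity, ?_⟩ x
        rw [div_le_one (by positivity)]
        have : (i : ℝ) + 1 ≤ (N : ℝ) + 1 := by exact_mod_cast hi
        linarith
      · refine lt_of_le_of_lt ?_ hN'
        refine ContinuousLinearMap.opNorm_le_bound _ (by positivity) fun x => ?_
        have h1 : (A ((i : ℝ) / ((N : ℝ) + 1)) - A (((i + 1 : ℕ) : ℝ) / ((N : ℝ) + 1))) x =
            -((1 / ((N : ℝ) + 1)) • P Q (S (P Q x))) := by
          change A ((i : ℝ) / ((N : ℝ) + 1)) x - A (((i + 1 : ℕ) : ℝ) / ((N : ℝ) + 1)) x = _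
          rw [hAapp, hAapp, map_add, map_add, map_smul, map_smul]
          have h2 : ((i + 1 : ℕ) : ℝ) / ((N : ℝ) + 1) =
              (i : ℝ) / ((N : ℝ) + 1) + 1 / ((N : ℝ) + 1) := by
            push_cast; ring
          rw [h2, add_smul]
          abel
        rw [h1, norm_neg, norm_smul, Real.norm_of_nonneg (by positivity)]
        calc 1 / ((N : ℝ) + 1) * ‖P Q (S (P Q x))‖ ≤ 1 / ((N : ℝ) + 1) * (‖S‖ * ‖x‖) := by
              refine mul_le_mul_of_nonneg_left ?_ (by positivity)
              refine (norm_P_le _ _).trans ((S.le_opNorm _).trans ?_)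
              exact mul_le_mul_of_nonneg_left (norm_P_le _ _) (norm_nonneg _)
          _ = ‖S‖ / ((N : ℝ) + 1) * ‖x‖ := by ring
  have hA1 : IsUnit (A 1) := by
    have := hunit (N + 1) le_rfl
    have h1 : (((N + 1 : ℕ) : ℝ)) / ((N : ℝ) + 1) = 1 := by
      push_cast
      exact div_self (by positivity)
    rwa [h1] at this
  obtain ⟨U, hU⟩ := hA1
  have hfact : ∀ x, (↑U⁻¹ : X →L[ℝ] X) (P Q (T (P Q x))) = P Q x := by
    intro x
    have h1 : A 1 (P Q x) = P Q (T (P Q x)) := by
      rw [hAapp, P_P, P_P]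
      simp only [Set.inter_self, Set.compl_inter_self]
      rw [P_eq_zero (A := (∅ : Set ℕ)) (fun n hn => absurd hn (Set.notMem_empty n)), zero_add,
        one_smul, hTDS]
    rw [← h1, ← hU]
    change ((↑U⁻¹ : X →L[ℝ] X) * (U : X →L[ℝ] X)) (P Q x) = _
    rw [Units.inv_mul]; rfl
  -- relabelling
  set π : ℕ → ℕ := fun n => if Odd n ∧ p ≤ n then n else μ n with hπ
  have hπge : ∀ n, n ≤ π n := by
    intro n
    simp only [hπ]
    split_ifs
    · exact le_rfl
    · exact hμ.id_le n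
  have hπQ : ∀ n, π n ∈ Q := by
    intro n
    simp only [hπ]
    split_ifs with h
    · exact Or.inr ⟨h.1, h.2⟩
    · exact Or.inl ⟨n, rfl⟩
  have hπinj : Function.Injective π := by
    intro a b hab
    simp only [hπ] at hab
    split_ifs at hab with h1 h2 h2
    · exact hab
    · exact absurd (hab ▸ hμe b) (Nat.not_even_iff_odd.mpr h1.1)
    · exact absurd (hab.symm ▸ hμe a) (Nat.not_even_iff_odd.mpr h2.1)
    · exact hμ.injective hab
  have hπodd : ∀ n, Odd (π n) → π n = n ∧ p ≤ n := by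
    intro n hn
    simp only [hπ] at hn ⊢
    split_ifs at hn ⊢ with h
    · exact ⟨rfl, h.2⟩
    · exact absurd (hμe n) (Nat.not_even_iff_odd.mpr hn)
  have hπid : ∀ n, Odd n → p ≤ n → π n = n := by
    intro n h1 h2
    simp only [hπ]
    rw [if_pos ⟨h1, h2⟩]
  -- the spreading operator
  let Rf : (ℕ → ℝ) → ℕ → ℝ := fun x m => if h : ∃ n, π n = m then x h.choose else 0
  have hRf1 : ∀ x n, Rf x (π n) = x n := by
    intro x n
    have h : ∃ n', π n' = π n := ⟨n, rfl⟩
    simp only [Rf]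
    rw [dif_pos h, hπinj h.choose_spec]
  have hRf2 : ∀ x m, (¬ ∃ n, π n = m) → Rf x m = 0 := by
    intro x m h
    simp only [Rf]
    rw [dif_neg h]
  have hRodd : ∀ (x : ℕ → ℝ) m, Odd m → |Rf x m| ≤ |x m| := by
    intro x m hm
    by_cases h : ∃ n, π n = m
    · obtain ⟨n, rfl⟩ := h
      rw [hRf1, (hπodd n hm).1]
    · rw [hRf2 x m h, abs_zero]; exact abs_nonneg _
  have hprRf : ∀ (x : ℕ → ℝ) (B : ℝ), (∀ n, |x n| ≤ B) →
      (∀ i f, 1 ≤ i → W i f → pr f x ≤ B) → ∀ i f, W i f → pr f (Rf x) ≤ B := by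
    intro x B h0 h1 i f hf
    by_cases hi : 1 ≤ i
    · refine le_trans ?_ (h1 i f hi hf)
      unfold pr
      refine Finset.sum_le_sum fun n hn => mul_le_mul_of_nonneg_left ?_
        (by exact_mod_cast hf.nonneg n)
      exact hRodd x n (hf.odd hi n (Finsupp.mem_support_iff.mp hn))
    · have : i = 0 := by omega
      subst this
      cases hf with
      | basis m f g0 g1 =>
        refine (pr_mono_left g1 _).trans ?_
        rw [pr_single]
        by_cases h : ∃ n, π n = m
        · obtain ⟨n, rfl⟩ := h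
          rw [hRf1]; exact h0 n
        · rw [hRf2 x m h, abs_zero]
          exact (abs_nonneg _).trans (h0 0)
      | node i r F I f hi' hr hF hs hodd h0 h1 ho => omega
  have hRfmem : ∀ x : X, Rf x ∈ SeqSub NS := by
    intro x ε hε
    obtain ⟨p0, hp0⟩ := tail_small x hε
    refine ⟨∑ n ∈ range p0, (π n + 1) + p0, ?_⟩
    rintro f ⟨i, hf⟩
    have h1 : pr f (tail (∑ n ∈ range p0, (π n + 1) + p0) (Rf x)) ≤
        pr f (Rf (P {n | p0 ≤ n} x)) := by
      refine pr_mono hf.nonneg fun m => ?_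
      simp only [tail]
      split_ifs with hm
      · rw [abs_zero]; exact abs_nonneg _
      · by_cases h : ∃ n, π n = m
        · obtain ⟨n, rfl⟩ := h
          rw [hRf1, hRf1]
          have hn : p0 ≤ n := by
            by_contra hlt
            have := Finset.single_le_sum (f := fun n => π n + 1) (fun _ _ => Nat.zero_le _)
              (mem_range.mpr (not_le.mp hlt))
            omega
          rw [P_apply, if_pos (by simpa using hn)]
        · rw [hRf2 _ m h]; simp
    refine h1.trans (hprRf _ ε ?_ ?_ i f hf)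
    · intro n
      exact (abs_apply_le _ _).trans (hp0 p0 le_rfl)
    · intro i f _ hf
      exact (pr_le_normW _ hf).trans (hp0 p0 le_rfl)
  let R : X →L[ℝ] X := LinearMap.mkContinuous
    { toFun := fun x => mk (Rf x) (hRfmem x)
      map_add' := fun x y => ext' fun m => by
        by_cases h : ∃ n, π n = m
        · obtain ⟨n, rfl⟩ := h
          rw [Space.add_apply, mk_apply, mk_apply, mk_apply, hRf1, hRf1, hRf1]; rfl
        · rw [Space.add_apply, mk_apply, mk_apply, mk_apply, hRf2 _ m h, hRf2 _ m h,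
            hRf2 _ m h, add_zero]
      map_smul' := fun a x => ext' fun m => by
        by_cases h : ∃ n, π n = m
        · obtain ⟨n, rfl⟩ := h
          simp only [RingHom.id_apply]
          rw [Space.smul_apply, mk_apply, mk_apply, hRf1, hRf1]; rfl
        · simp only [RingHom.id_apply]
          rw [Space.smul_apply, mk_apply, mk_apply, hRf2 _ m h, hRf2 _ m h, mul_zero] } 1
    (fun x => by
      rw [one_mul]
      refine norm_le_iffW _ fun i f hf => ?_
      exact hprRf x ‖x‖ (fun n => abs_apply_le x n) (fun i f _ hf => pr_le_normW x hf) i f hf)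
  have hRapp : ∀ x n, R x (π n) = x n := fun x n => hRf1 x n
  have hRzero : ∀ x m, m ∉ Q → R x m = 0 := by
    intro x m hm
    refine hRf2 x m ?_
    rintro ⟨n, rfl⟩
    exact hm (hπQ n)
  -- the compression operator
  have hprL : ∀ (x : ℕ → ℝ) (B : ℝ), (∀ n, |x n| ≤ B) →
      (∀ i f, 1 ≤ i → W i f → pr f x ≤ B) → ∀ i f, W i f →
      pr f (fun n => x (π n)) ≤ (p + 1) * B := by
    intro x B h0 h1 i f hf
    have hB0 : 0 ≤ B := (abs_nonneg _).trans (h0 0)
    by_cases hi : 1 ≤ i
    · have h2 : pr f (fun n => x (π n)) ≤ pr f x + p * B := by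
        rw [pr_superset (s := f.support ∪ range p) Finset.subset_union_left,
          pr_superset (f := f) (x := x) (s := f.support ∪ range p) Finset.subset_union_left]
        have h3 : (p : ℝ) * B = ∑ n ∈ f.support ∪ range p, if n ∈ range p then B else 0 := by
          rw [← Finset.sum_filter, Finset.sum_const, nsmul_eq_mul]
          congr 2
          have : ({n ∈ f.support ∪ range p | n ∈ range p} : Finset ℕ) = range p := by
            ext n; simp; tauto
          rw [this, card_range]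
        rw [h3, ← Finset.sum_add_distrib]
        refine Finset.sum_le_sum fun n hn => ?_
        have hfn0 : (0 : ℝ) ≤ f n := by exact_mod_cast hf.nonneg n
        have hfn1 : (f n : ℝ) ≤ 1 := by exact_mod_cast hf.le_one n
        by_cases hfn : f n = 0
        · rw [hfn]
          simp only [Rat.cast_zero, zero_mul, zero_add]
          split_ifs
          · exact hB0
          · exact le_rfl
        · have hodd := hf.odd hi n hfn
          by_cases hnp : n < p
          · rw [if_pos (mem_range.mpr hnp)]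
            have h4 := h0 (π n)
            have h5 : (f n : ℝ) * |x (π n)| ≤ 1 * B := mul_le_mul hfn1 h4 (abs_nonneg _) (by norm_num)
            have h6 : 0 ≤ (f n : ℝ) * |x n| := mul_nonneg hfn0 (abs_nonneg _)
            linarith
          · rw [if_neg (by simpa using hnp), hπid n hodd (not_lt.mp hnp), add_zero]
      have := h1 i f hi hf
      linarith
    · have : i = 0 := by omega
      subst this
      cases hf with
      | basis m f g0 g1 =>
        refine (pr_mono_left g1 _).trans ?_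
        rw [pr_single]
        have h2 := h0 (π m)
        have h3 : (0 : ℝ) ≤ p := by positivity
        nlinarith
      | node i r F I f hi' hr hF hs hodd h0 h1 ho => omega
  have hLmem : ∀ x : X, (fun n => x (π n)) ∈ SeqSub NS := by
    intro x ε hε
    obtain ⟨p0, hp0⟩ := tail_small x (ε := ε / (p + 1)) (by positivity)
    refine ⟨p0, ?_⟩
    rintro f ⟨i, hf⟩
    have h1 : pr f (tail p0 (fun n => x (π n))) ≤
        pr f (fun n => (P {n | p0 ≤ n} x) (π n)) := by
      refine pr_mono hf.nonneg fun m => ?_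
      simp only [tail]
      split_ifs with hm
      · rw [abs_zero]; exact abs_nonneg _
      · rw [P_apply, if_pos]
        have := hπge m
        change p0 ≤ π m
        omega
    refine h1.trans ?_
    have h2 := hprL (P {n | p0 ≤ n} x) (ε / (p + 1))
      (fun n => (abs_apply_le _ _).trans (hp0 p0 le_rfl))
      (fun i f _ hf => (pr_le_normW _ hf).trans (hp0 p0 le_rfl)) i f hf
    refine h2.trans_eq ?_
    field_simp
  let L : X →L[ℝ] X := LinearMap.mkContinuous
    { toFun := fun x => mk (fun n => x (π n)) (hLmem x)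
      map_add' := fun x y => ext' fun m => rfl
      map_smul' := fun a x => ext' fun m => rfl } (p + 1)
    (fun x => by
      refine norm_le_iffW _ fun i f hf => ?_
      exact hprL x ‖x‖ (fun n => abs_apply_le x n) (fun i f _ hf => pr_le_normW x hf) i f hf)
  refine ⟨L.comp ((↑U⁻¹ : X →L[ℝ] X).comp (P Q)), (P Q).comp R, ?_⟩
  refine ContinuousLinearMap.ext fun x => ext' fun n => ?_
  change ((↑U⁻¹ : X →L[ℝ] X) (P Q (T (P Q (R x))))) (π n) = x n
  rw [hfact, P_apply, if_pos (hπQ n), hRapp]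

end Pool.Agent.P18b69d
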