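import Mathlib
import Pool.Agent.Lib.P18b69d.Factor

set_option autoImplicit false
open Filter Topology Finset

namespace Pool.Agent.P18b69d

open Space

/-- The odd unit vectors form a rapidly increasing sequence. -/
lemma ris_basis : RIS 1 (fun k => ((bv (2 * k + 1) : X) : ℕ → ℝ)) (fun k => k + 1) := by
  have hpr : ∀ (m : ℕ) (f : ℕ →₀ ℚ), pr f (bv m : X) = f m := by
    intro m f
    unfold pr
    by_cases h : f m = 0
    · rw [h, Finset.sum_eq_zero]
      · simp
      · intro n hn
        rw [bv_apply, if_neg]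
        · simp
        · rintro rfl
          exact (Finsupp.mem_support_iff.mp hn) h
    · rw [Finset.sum_eq_single_of_mem m (Finsupp.mem_support_iff.mpr h)]
      · simp
      · intro n _ hne
        rw [bv_apply, if_neg hne]; simp
  refine ⟨by norm_num, ?_, ?_, ?_, ?_, ?_⟩
  · intro k k' hk a b ha hb
    simp only [bv_apply] at ha hb
    have h1 : a = 2 * k + 1 := by
      by_contra h; rw [if_neg h] at ha; exact ha rfl
    have h2 : b = 2 * k' + 1 := by
      by_contra h; rw [if_neg h] at hb; exact hb rfl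
    omega
  · exact fun a b h => Nat.succ_lt_succ h
  · intro k i f hf
    exact (pr_le_normW _ hf).trans (norm_bv_le _)
  · intro k i f hf hi _
    rw [hpr]
    have h1 : ((f (2 * k + 1) : ℚ) : ℝ) ≤ ((1 / (mm i : ℚ) : ℚ) : ℝ) := by
      exact_mod_cast hf.le_inv hi _
    refine h1.trans ?_
    push_cast
    exact le_rfl
  · intro k i f hf hi
    rw [hpr]
    have h1 : ((f (2 * k + 1) : ℚ) : ℝ) ≤ ((1 / (mm i : ℚ) : ℚ) : ℝ) := by
      exact_mod_cast hf.le_inv (by omega) _
    refine h1.trans ?_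
    push_cast
    rw [one_div_pow]
    refine one_div_le_one_div_of_le (by positivity) ?_
    have h2 : 2 ^ k ≤ mm i := by
      refine le_trans ?_ (two_pow_le_mm i)
      exact Nat.pow_le_pow_right (by norm_num) (by omega)
    exact_mod_cast h2

/-- The diagonal is asymptotically multiplicative along the odd coordinates. -/
lemma approx_mul (R S : X →L[ℝ] X) {ε : ℝ} (hε : 0 < ε) :
    ∃ K, ∀ k ≥ K, |S (R (bv (2 * k + 1))) (2 * k + 1) -
      S (bv (2 * k + 1)) (2 * k + 1) * R (bv (2 * k + 1)) (2 * k + 1)| ≤ ε := by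
  -- diagonal part
  set d : ℕ → ℝ := fun n => R (bv n) n with hd
  have hdK : ∀ n, |d n| ≤ ‖R‖ := by
    intro n
    refine (abs_apply_le _ _).trans ((R.le_opNorm _).trans ?_)
    calc ‖R‖ * ‖(bv n : X)‖ ≤ ‖R‖ * 1 := mul_le_mul_of_nonneg_left (norm_bv_le n) (norm_nonneg _)
      _ = ‖R‖ := mul_one _
  set D : X →L[ℝ] X := mulOp d ‖R‖ hdK with hD
  have hoff : ∀ n, (R - D) (bv n) n = 0 := by
    intro n
    change R (bv n) n - d n * (bv n : X) n = 0
    rw [bv_apply, if_pos rfl, mul_one, sub_self]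
  obtain ⟨K1, hK1⟩ := opA (R - D) (fun n _ => hoff n) ris_basis
    (fun k => ⟨2 * k + 2, fun a ha => by rw [bv_apply, if_neg]; omega⟩)
    (ε := ε / 2 / (‖S‖ + 1)) (by positivity)
  have hnull : ∀ n, Tendsto (fun k => (bv (2 * k + 1) : X) n) atTop (𝓝 0) := by
    intro n
    refine tendsto_const_nhds.congr' ?_
    filter_upwards [eventually_gt_atTop n] with k hk
    rw [bv_apply, if_neg]; omega
  obtain ⟨K2, hK2⟩ := opC S (u := fun k => P Ev (R (bv (2 * k + 1)))) (M := ‖R‖)
    (by
      intro k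
      refine (norm_P_le _ _).trans ((R.le_opNorm _).trans ?_)
      calc ‖R‖ * ‖(bv (2 * k + 1) : X)‖ ≤ ‖R‖ * 1 :=
            mul_le_mul_of_nonneg_left (norm_bv_le _) (norm_nonneg _)
        _ = ‖R‖ := mul_one _)
    (by
      intro k n hn
      rw [P_apply, if_neg]
      exact fun h => absurd h (Nat.not_even_iff_odd.mpr hn))
    (by
      intro n
      rw [Metric.tendsto_atTop]
      intro τ hτ
      obtain ⟨K, hK⟩ := weak_null R (u := fun k => (bv (2 * k + 1) : X)) (M := 1)
        (fun k => norm_bv_le _) hnull (n + 1) (half_pos hτ)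
      refine ⟨K, fun k hk => ?_⟩
      rw [Real.dist_eq, sub_zero]
      refine lt_of_le_of_lt ?_ (half_lt_self hτ)
      refine (abs_P_le _ _ n).trans ?_
      refine le_trans ?_ (hK k hk)
      exact Finset.single_le_sum (f := fun n => |R (bv (2 * k + 1)) n|)
        (fun _ _ => abs_nonneg _) (mem_range.mpr (Nat.lt_succ_self n)))
    (ε := ε / 2) (by positivity)
  refine ⟨max K1 K2, fun k hk => ?_⟩
  have h1 := hK1 k ((le_max_left _ _).trans hk)
  have h2 := hK2 k ((le_max_right _ _).trans hk)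
  set n := 2 * k + 1 with hn
  have hno : Odd n := ⟨k, rfl⟩
  set w : X := P Od ((R - D) (bv n)) with hw
  set u : X := P Ev (R (bv n)) with hu
  have hdec : R (bv n) = d n • (bv n : X) + w + u := by
    refine ext' fun a => ?_
    rw [Space.add_apply, Space.add_apply, Space.smul_apply, hw, hu, P_apply, P_apply]
    have e1 : (R - D) (bv n) a = R (bv n) a - d a * (bv n : X) a := rfl
    rcases Nat.even_or_odd a with h | h
    · have h' : a ∉ Od := fun h'' => absurd h (Nat.not_even_iff_odd.mpr h'')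
      rw [if_neg h', if_pos (show a ∈ Ev from h), bv_apply, if_neg]
      · ring
      · rintro rfl
        exact absurd h (Nat.not_even_iff_odd.mpr hno)
    · have h' : a ∉ Ev := fun h'' => absurd h'' (Nat.not_even_iff_odd.mpr h)
      rw [if_neg h', if_pos (show a ∈ Od from h), e1, bv_apply]
      split_ifs with ha
      · subst ha; ring
      · ring
  have e2 : S (R (bv n)) n = d n * S (bv n) n + S w n + S u n := by
    rw [hdec, map_add, map_add, map_smul]; rfl
  rw [e2]
  have e3 : |S w n| ≤ ε / 2 := by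
    refine (abs_apply_le _ _).trans ((S.le_opNorm _).trans ?_)
    calc ‖S‖ * ‖w‖ ≤ (‖S‖ + 1) * (ε / 2 / (‖S‖ + 1)) :=
          mul_le_mul (by linarith) h1 (norm_nonneg _) (by positivity)
      _ = ε / 2 := by field_simp
  have e4 : |S u n| ≤ ε / 2 := by
    have h3 := abs_apply_le (P Od (S u)) n
    rw [P_apply, if_pos (show n ∈ Od from hno)] at h3
    exact h3.trans h2
  have e5 : d n * S (bv n) n + S w n + S u n - S (bv n) n * R (bv n) n = S w n + S u n := by
    have : d n = R (bv n) n := rfl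
    rw [this]; ring
  rw [e5]
  exact (abs_add_le _ _).trans (by linarith)

/-- `X ⊕ X` is not complemented in `X`. -/
theorem no_square (R S : Fin 2 → (X →L[ℝ] X))
    (h : ∀ i j x, S j (R i x) = if i = j then x else 0) : False := by
  have hK : ∀ i j, ∃ K, ∀ k ≥ K, |S j (R i (bv (2 * k + 1))) (2 * k + 1) -
      S j (bv (2 * k + 1)) (2 * k + 1) * R i (bv (2 * k + 1)) (2 * k + 1)| ≤ 1 / 4 :=
    fun i j => approx_mul (R i) (S j) (by norm_num)
  choose K hK using hK
  set k := K 0 0 + K 0 1 + K 1 0 + K 1 1 with hk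
  have h00 := hK 0 0 k (by omega)
  have h01 := hK 0 1 k (by omega)
  have h10 := hK 1 0 k (by omega)
  have h11 := hK 1 1 k (by omega)
  rw [h] at h00 h01 h10 h11
  simp only [if_true, bv_apply] at h00 h11
  rw [if_neg (by decide), Space.zero_apply, zero_sub, abs_neg] at h01 h10
  set s0 := S 0 (bv (2 * k + 1)) (2 * k + 1)
  set s1 := S 1 (bv (2 * k + 1)) (2 * k + 1)
  set r0 := R 0 (bv (2 * k + 1)) (2 * k + 1)
  set r1 := R 1 (bv (2 * k + 1)) (2 * k + 1)
  have a00 := (abs_le.mp h00).2
  have a11 := (abs_le.mp h11).2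
  have g1 : 3 / 4 ≤ s0 * r0 := by linarith
  have g2 : 3 / 4 ≤ s1 * r1 := by linarith
  have g3 : (s0 * r0) * (s1 * r1) = (s1 * r0) * (s0 * r1) := by ring
  have g4 : |(s1 * r0) * (s0 * r1)| ≤ 1 / 4 * (1 / 4) := by
    rw [abs_mul]
    exact mul_le_mul h01 h10 (abs_nonneg _) (by norm_num)
  have g5 := (abs_le.mp g4).2
  nlinarith

end Pool.Agent.P18b69d
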